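import Pool.Agent.Helper51K9.NC.Tri

/-!
# Flat noncommutative functions are affine
-/

set_option autoImplicit false

namespace Pool.Agent.Helper51K9.NC

open Matrix Topology Filter

variable {𝕜 : Type} [NontriviallyNormedField 𝕜] {r : ℕ}

/-- every matrix is the difference of a scalar matrix and an invertible one -/
theorem exists_sub_unit {ι : Type} [Fintype ι] [DecidableEq ι] (A : Matrix ι ι 𝕜) :
    ∃ (c : 𝕜) (g g' : Matrix ι ι 𝕜), g * g' = 1 ∧ A = c • 1 - g := by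
  classical
  have : Infinite 𝕜 := NontriviallyNormedField.infinite 𝕜
  obtain ⟨c, hc⟩ := Infinite.exists_notMem_finset (A.charpoly.roots.toFinset)
  have h1 : (Matrix.scalar ι c - A).det ≠ 0 := by
    rw [← Matrix.eval_charpoly]
    intro h
    apply hc
    rw [Multiset.mem_toFinset, Polynomial.mem_roots (Matrix.charpoly_monic A).ne_zero]
    exact h
  refine ⟨c, Matrix.scalar ι c - A, (Matrix.scalar ι c - A)⁻¹,
    Matrix.mul_nonsing_inv _ (isUnit_iff_ne_zero.mpr h1), ?_⟩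
  have e : Matrix.scalar ι c = c • (1 : Matrix ι ι 𝕜) := by
    ext i j
    simp [Matrix.one_apply, Matrix.diagonal_apply]
  rw [e, sub_sub_cancel]

/-- a matrix which commutes with everything is scalar -/
theorem exists_scalar {ι : Type} [Fintype ι] [DecidableEq ι] (M : Matrix ι ι 𝕜)
    (h : ∀ (g g' : Matrix ι ι 𝕜), g * g' = 1 → g * M = M * g) :
    ∃ α : 𝕜, M = α • 1 := by
  have h1 : ∀ A : Matrix ι ι 𝕜, A * M = M * A := by
    intro A
    obtain ⟨c, g, g', hg, rfl⟩ := exists_sub_unit A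
    rw [Matrix.sub_mul, Matrix.mul_sub, h g g' hg]
    simp
  obtain ⟨α, hα⟩ := Matrix.mem_range_scalar_of_commute_single (M := M) fun i j _ => h1 _
  refine ⟨α, ?_⟩
  rw [← hα]
  ext i j
  simp [Matrix.one_apply, Matrix.diagonal_apply]

section one

variable {Φ : NCFun 𝕜 r} (hF : Φ.Flat) {ι : Type} [Fintype ι] [DecidableEq ι]
  {X₀ : Fin r → Matrix ι ι 𝕜} (h₀ : X₀ ∈ Φ.dom ι)

/-- the tuple with one nonzero component -/
def sg (i : Fin r) (A : Matrix ι ι 𝕜) : Fin r → Matrix ι ι 𝕜 := fun j => if j = i then A else 0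

include hF h₀

theorem NCFun.Flat.sg_mul (i : Fin r) (A : Matrix ι ι 𝕜) :
    Φ.dd X₀ (sg i A) X₀ = A * Φ.dd X₀ (sg i 1) X₀ ∧
    Φ.dd X₀ (sg i A) X₀ = Φ.dd X₀ (sg i 1) X₀ * A := by
  obtain ⟨c, g, g', hg, rfl⟩ := exists_sub_unit A
  have e1 : (sg i (c • 1 - g) : Fin r → Matrix ι ι 𝕜) =
      fun j => (fun j => c • sg i (1 : Matrix ι ι 𝕜) j) j + (fun j => - sg i g j) j := by
    funext j
    by_cases h : j = i <;> simp [sg, h, sub_eq_add_neg]
  have e2 : (sg i g : Fin r → Matrix ι ι 𝕜) = fun j => g * sg i 1 j := by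
    funext j
    by_cases h : j = i <;> simp [sg, h]
  have e3 : (sg i g : Fin r → Matrix ι ι 𝕜) = fun j => sg i 1 j * g := by
    funext j
    by_cases h : j = i <;> simp [sg, h]
  have h1 : Φ.dd X₀ (sg i (c • 1 - g)) X₀ = c • Φ.dd X₀ (sg i 1) X₀ - Φ.dd X₀ (sg i g) X₀ := by
    rw [e1, hF.add h₀, Φ.dd_smul h₀ h₀, NCFun.Flat.neg h₀, sub_eq_add_neg]
  constructor
  · rw [h1]
    conv_lhs => rw [e2]
    rw [hF.mul_left h₀ g g' hg, Matrix.sub_mul]
    simp
  · rw [h1]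
    conv_lhs => rw [e3]
    rw [hF.mul_right h₀ g g' hg, Matrix.mul_sub]
    simp

theorem NCFun.Flat.exists_lin : ∃ α : Fin r → 𝕜, ∀ H : Fin r → Matrix ι ι 𝕜,
    Φ.dd X₀ H X₀ = ∑ i, α i • H i := by
  have h1 : ∀ i : Fin r, ∃ α : 𝕜, Φ.dd X₀ (sg i 1) X₀ = α • 1 := fun i =>
    exists_scalar _ fun g g' _ => by
      rw [← (hF.sg_mul h₀ i g).1, (hF.sg_mul h₀ i g).2]
  choose α hα using h1
  refine ⟨α, fun H => ?_⟩
  have h2 : ∀ s : Finset (Fin r), Φ.dd X₀ (fun j => ∑ i ∈ s, sg i (H i) j) X₀ =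
      ∑ i ∈ s, α i • H i := by
    intro s
    induction s using Finset.induction_on with
    | empty =>
      have := Φ.dd_smul h₀ h₀ (fun _ => (0 : Matrix ι ι 𝕜)) 0
      simpa using this
    | insert i s hi ih =>
      simp only [Finset.sum_insert hi]
      rw [hF.add h₀ (sg i (H i)) (fun j => ∑ i ∈ s, sg i (H i) j), ih]
      congr 1
      rw [(hF.sg_mul h₀ i (H i)).1, hα]
      simp
  have h3 : (fun j => ∑ i, sg i (H i) j) = H := by
    funext j
    simp [sg]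
  rw [← h2, h3]

theorem NCFun.Flat.exists_affine_one : ∃ (α₀ : 𝕜) (α : Fin r → 𝕜), ∀ X ∈ Φ.dom ι,
    Φ.val ι X = α₀ • (1 : Matrix ι ι 𝕜) + ∑ i, α i • X i := by
  obtain ⟨α, hα⟩ := hF.exists_lin h₀
  obtain ⟨α₀, h1⟩ := exists_scalar (Φ.val ι X₀ - ∑ i, α i • X₀ i) (fun g g' hg => by
    have hg' : g' * g = 1 := _root_.mul_eq_one_comm.mp hg
    have hX' := Φ.sim_dom ι ι g g' X₀ hg hg' h₀
    have e1 := Φ.sim_val ι ι g g' X₀ hg hg' h₀
    have e2 := hF.diff h₀ h₀ hX'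
    rw [hα, e1] at e2
    have e3 : g * Φ.val ι X₀ = Φ.val ι X₀ * g +
        ((∑ i, α i • (g * X₀ i * g' - X₀ i)) * g) := by
      have := congrArg (fun M => M * g) e2
      simp only [Matrix.mul_assoc, hg', Matrix.mul_one, Matrix.add_mul] at this
      rw [this]
      simp only [Matrix.mul_assoc]
    rw [Matrix.mul_sub, Matrix.sub_mul, e3]
    simp only [Finset.sum_mul, Finset.mul_sum, Matrix.smul_mul, Matrix.sub_mul, smul_sub,
      Finset.sum_sub_distrib, Matrix.mul_assoc, hg', Matrix.mul_one, Matrix.mul_smul]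
    abel)
  refine ⟨α₀, α, fun X hX => ?_⟩
  rw [hF.diff h₀ h₀ hX, hα, ← h1]
  simp only [smul_sub, Finset.sum_sub_distrib]
  abel

end one

/-- the coefficients of an affine function on an open set are unique -/
theorem affine_unique {ι : Type} [Fintype ι] [DecidableEq ι] [Nonempty ι]
    {D : Set (Fin r → Matrix ι ι 𝕜)} (hD : IsOpen D) {X₀ : Fin r → Matrix ι ι 𝕜} (h₀ : X₀ ∈ D)
    {α₀ β₀ : 𝕜} {α β : Fin r → 𝕜} (h : ∀ X ∈ D, α₀ • (1 : Matrix ι ι 𝕜) + ∑ i, α i • X i =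
      β₀ • (1 : Matrix ι ι 𝕜) + ∑ i, β i • X i) : α₀ = β₀ ∧ α = β := by
  obtain ⟨p⟩ := ‹Nonempty ι›
  have h1 : α = β := by
    funext i
    have hc : Continuous fun c : 𝕜 => fun j => X₀ j + c • sg i (1 : Matrix ι ι 𝕜) j :=
      continuous_pi fun j => continuous_const.add (continuous_id.smul continuous_const)
    have h2 : ∀ᶠ c in 𝓝[≠] (0 : 𝕜), (fun j => X₀ j + c • sg i (1 : Matrix ι ι 𝕜) j) ∈ D :=
      (hc.continuousAt.eventually (by simpa using hD.mem_nhds h₀)).filter_mono nhdsWithin_le_nhds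
    obtain ⟨c, h3, hc0⟩ := (h2.and self_mem_nhdsWithin).exists
    have hc0' : c ≠ 0 := hc0
    have e1 := h _ h₀
    have e2 := h _ h3
    simp only [smul_add, Finset.sum_add_distrib] at e2
    have e3 : ∀ γ : Fin r → 𝕜, ∑ j, γ j • c • sg i (1 : Matrix ι ι 𝕜) j =
        (γ i * c) • (1 : Matrix ι ι 𝕜) := by
      intro γ
      rw [Finset.sum_eq_single i]
      · simp [sg, smul_smul]
      · intro j _ hj
        simp [sg, hj]
      · simp
    rw [e3, e3, ← add_assoc, ← add_assoc, e1] at e2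
    have e5 : (α i * c) • (1 : Matrix ι ι 𝕜) = (β i * c) • (1 : Matrix ι ι 𝕜) :=
      add_left_cancel e2
    have e4 := congrFun (congrFun e5 p) p
    simp only [Matrix.smul_apply, Matrix.one_apply_eq, smul_eq_mul, mul_one] at e4
    exact mul_right_cancel₀ hc0' e4
  refine ⟨?_, h1⟩
  subst h1
  have e2 : α₀ • (1 : Matrix ι ι 𝕜) = β₀ • (1 : Matrix ι ι 𝕜) := add_right_cancel (h _ h₀)
  have e1 := congrFun (congrFun e2 p) p
  simpa using e1

theorem NCFun.Flat.affine {Φ : NCFun 𝕜 r} (hF : Φ.Flat) : Φ.Affine := by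
  by_cases hne : ∃ (κ : Type) (_ : Fintype κ) (_ : DecidableEq κ), Nonempty κ ∧
      (Φ.dom κ).Nonempty
  · obtain ⟨κ, _, _, hκ, Y₀, hY₀⟩ := hne
    obtain ⟨α₀, α, hα⟩ := hF.exists_affine_one hY₀
    refine ⟨α₀, α, fun ι _ _ X hX => ?_⟩
    obtain ⟨β₀, β, hβ⟩ := hF.exists_affine_one (Φ.sum_dom ι κ X Y₀ hX hY₀)
    have h1 : ∀ Y ∈ Φ.dom κ, Φ.val κ Y = β₀ • (1 : Matrix κ κ 𝕜) + ∑ i, β i • Y i := by
      intro Y hY
      have h2 := hβ _ (Φ.sum_dom ι κ X Y hX hY)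
      rw [Φ.sum_val ι κ X Y hX hY] at h2
      ext p q
      have h3 := congrFun (congrFun h2 (Sum.inr p)) (Sum.inr q)
      simp only [fromBlocks_apply₂₂, Matrix.add_apply, Matrix.smul_apply, Matrix.sum_apply,
        smul_eq_mul] at h3 ⊢
      rw [h3]
      simp [Matrix.one_apply]
    have h2 : α₀ = β₀ ∧ α = β := affine_unique (Φ.isOpen_dom κ) hY₀ fun Y hY => by
      rw [← hα Y hY, ← h1 Y hY]
    obtain ⟨rfl, rfl⟩ := h2
    have h3 := hβ _ (Φ.sum_dom ι κ X Y₀ hX hY₀)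
    rw [Φ.sum_val ι κ X Y₀ hX hY₀] at h3
    ext p q
    have h4 := congrFun (congrFun h3 (Sum.inl p)) (Sum.inl q)
    simp only [fromBlocks_apply₁₁, Matrix.add_apply, Matrix.smul_apply, Matrix.sum_apply,
      smul_eq_mul] at h4 ⊢
    rw [h4]
    simp [Matrix.one_apply]
  · push Not at hne
    refine ⟨0, fun _ => 0, fun ι _ _ X hX => ?_⟩
    by_cases hι : Nonempty ι
    · exact absurd ⟨X, hX⟩ (Set.not_nonempty_iff_eq_empty.mpr (hne ι _ _ hι))
    · rw [not_nonempty_iff] at hι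
      ext p
      exact hι.elim p

end Pool.Agent.Helper51K9.NC
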