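import Pool.Agent.Helper51K9.NC.Hard

/-!
# Scalar functions with cubic part `tr (A B C)` are hard
-/

set_option autoImplicit false
set_option linter.unusedSectionVars false

namespace Pool.Agent.Helper51K9.NC

open Matrix Topology Filter Pool.Agent.Y538.Net Pool.Agent.W956.KF

variable {𝕜 : Type} [NontriviallyNormedField 𝕜]

section restrict

variable {E E' : Type} [NormedAddCommGroup E] [NormedSpace 𝕜 E] [NormedAddCommGroup E']
  [NormedSpace 𝕜 E']

lemma fderiv_comp_lin {f : E → 𝕜} (j : E' →L[𝕜] E) {y : E'} (h : DifferentiableAt 𝕜 f (j y))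
    (b : E') : DifferentiableAt 𝕜 (fun z => f (j z)) y ∧
      fderiv 𝕜 (fun z => f (j z)) y b = fderiv 𝕜 f (j y) (j b) := by
  have h1 := h.hasFDerivAt.comp y j.hasFDerivAt
  refine ⟨h1.differentiableAt, ?_⟩
  have h2 : fderiv 𝕜 (fun z => f (j z)) y = (fderiv 𝕜 f (j y)).comp j := h1.fderiv
  rw [h2]
  rfl

/-- The third derivative in terms of a function on a subspace. -/
lemma H3_restrict {F : E → 𝕜} (j : E' →L[𝕜] E) {x : E'} (h : ContDiffAt 𝕜 3 F (j x))
    (a b : E') (c : E) : H3 F (j x) (j a) (j b) c =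
      H2 (fun y => fderiv 𝕜 F (j y) c) x a b := by
  have hj : ContinuousAt j x := j.continuous.continuousAt
  have hev : ∀ᶠ y in 𝓝 x, ContDiffAt 𝕜 3 F (j y) := hj.eventually (ev3 h)
  have e0 : ∀ z, ContDiffAt 𝕜 3 F z → DifferentiableAt 𝕜 (fun w => fderiv 𝕜 F w c) z ∧
      ∀ v, fderiv 𝕜 (fun w => fderiv 𝕜 F w c) z v = H2 F z v c := by
    intro z hz
    have h1 := (diff2 (cd2 hz)).hasFDerivAt.clm_apply (hasFDerivAt_const c z)
    refine ⟨h1.differentiableAt, fun v => ?_⟩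
    rw [h1.fderiv]
    simp [H2]
  have e1 : (fun y => H2 F (j y) (j b) c) =ᶠ[𝓝 x]
      fun y => fderiv 𝕜 (fun y => fderiv 𝕜 F (j y) c) y b := by
    filter_upwards [hev] with y hy
    have h1 := fderiv_comp_lin (f := fun w => fderiv 𝕜 F w c) j (e0 _ hy).1 b
    rw [h1.2, (e0 _ hy).2]
  rw [H3_apply h, ← (fderiv_comp_lin (f := fun z => H2 F z (j b) c) j (dH2 h (j b) c) a).2,
    e1.fderiv_eq]
  have hg : ContDiffAt 𝕜 2 (fun y => fderiv 𝕜 F (j y) c) x := by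
    have h1 : ContDiffAt 𝕜 2 (fun z => fderiv 𝕜 F z c) (j x) :=
      (cdf h).clm_apply contDiffAt_const
    exact h1.comp x j.contDiff.contDiffAt
  have h2 := (diff2 hg).hasFDerivAt.clm_apply (hasFDerivAt_const b x)
  rw [h2.fderiv]
  simp [H2]

end restrict

/-- Triples of `m × m` matrices. -/
abbrev Triples (𝕜 : Type) (m : ℕ) : Type := Pairs 𝕜 m × (Fin m → Fin m → 𝕜)

theorem rank_of_cubic {a b L m : ℕ} {γ : 𝕜} (hγ : γ ≠ 0) {F : Triples 𝕜 m → 𝕜}
    (h : Gives 3 a b L (fun y (_ : Unit) => F y) 0)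
    (hF : ∀ᶠ y : Pairs 𝕜 m in 𝓝 0, ∀ i k : Fin m, fderiv 𝕜 F (y, 0) (0, mu k i) =
      γ * ∑ l, y.1 i l * y.2 l k) : trank 𝕜 m m m ≤ 3 * a ^ 2 * L := by
  obtain ⟨D, g, hnet, hx, hG⟩ := h
  obtain ⟨f, hf, he⟩ := hG ()
  obtain ⟨U, hU⟩ := net_third hnet hx
  obtain ⟨-, μ₁, μ₂, μ₃, hμ⟩ := hU f hf
  have hcd : ContDiffAt 𝕜 3 F 0 := by
    refine (aff_cd (gates_cd hnet hx) f hf).congr_of_eventuallyEq ?_
    exact he.symm
  let j : Pairs 𝕜 m →L[𝕜] Triples 𝕜 m := ContinuousLinearMap.inl 𝕜 _ _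
  have hj0 : j 0 = 0 := rfl
  have key : ∀ (i i' j₁ j' k k' : Fin m),
      H3 F 0 (j (mu i j₁, 0)) (j (0, mu j' k)) (0, mu k' i') =
        γ * if i = i' ∧ j₁ = j' ∧ k = k' then 1 else 0 := by
    intro i i' j₁ j' k k'
    have h1 := H3_restrict (F := F) j (x := 0) (by rw [hj0]; exact hcd)
      (mu i j₁, 0) (0, mu j' k) (0, mu k' i')
    rw [hj0] at h1
    rw [h1]
    have h2 : (fun y : Pairs 𝕜 m => fderiv 𝕜 F (j y) (0, mu k' i')) =ᶠ[𝓝 0]
        fun y => γ * ∑ l, y.1 i' l * y.2 l k' := by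
      filter_upwards [hF] with y hy
      exact hy i' k'
    rw [H2_congr h2]
    have h4 := H2_smul (x := (0 : Pairs 𝕜 m)) γ (H2_sum_mul (E := Pairs 𝕜 m) Finset.univ
      (fun l => pA i' l) (fun l => pB l k') 0 (mu i j₁, 0) (0, mu j' k)).1
    simp only [pA_apply, pB_apply] at h4
    have h5 : (γ • fun y : Pairs 𝕜 m => ∑ l, y.1 i' l * y.2 l k') =
      fun y : Pairs 𝕜 m => γ * ∑ l, y.1 i' l * y.2 l k' := rfl
    rw [← h5, h4, _root_.smul_apply, _root_.smul_apply, H2_entry, smul_eq_mul]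
  let X : Fin m → Fin m → Triples 𝕜 m := fun i j₁ => j (mu i j₁, 0)
  let Y : Fin m → Fin m → Triples 𝕜 m := fun j' k => j (0, mu j' k)
  let Z : Fin m → Fin m → Triples 𝕜 m := fun i' k' => (0, mu k' i')
  have := trank_le_card (𝕜 := 𝕜) (m := m) (n := m) (p := m)
    (T := (Fin L × Fin a × Fin a) ⊕ ((Fin L × Fin a × Fin a) ⊕ (Fin L × Fin a × Fin a)))
    (Sum.elim (fun t => Matrix.of fun i j₁ => γ⁻¹ * μ₁ t.1 t.2.1 t.2.2 (X i j₁))
      (Sum.elim (fun t => Matrix.of fun i j₁ => γ⁻¹ * U t.1 t.2.2 (X i j₁))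
        (fun t => Matrix.of fun i j₁ => γ⁻¹ * U t.1 t.2.2 (X i j₁))))
    (Sum.elim (fun t => Matrix.of fun j' k => U t.1 t.2.2 (Y j' k))
      (Sum.elim (fun t => Matrix.of fun j' k => U t.1 t.2.1 (Y j' k))
        (fun t => Matrix.of fun j' k => μ₃ t.1 t.2.1 t.2.2 (Y j' k))))
    (Sum.elim (fun t => Matrix.of fun i' k' => U t.1 t.2.1 (Z i' k'))
      (Sum.elim (fun t => Matrix.of fun i' k' => μ₂ t.1 t.2.1 t.2.2 (Z i' k'))
        (fun t => Matrix.of fun i' k' => U t.1 t.2.1 (Z i' k'))))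
    (fun i i' j₁ j' k k' => by
      have h1 := key i i' j₁ j' k k'
      have h2 : H3 F 0 = H3 f 0 := H3_congr he.symm
      rw [h2] at h1
      have h3 := hμ (X i j₁) (Y j' k) (Z i' k')
      beta_reduce at h3
      simp only [Fintype.sum_sum_type, Sum.elim_inl, Sum.elim_inr, Matrix.of_apply]
      have h4 : (if i = i' ∧ j₁ = j' ∧ k = k' then (1 : 𝕜) else 0) = γ⁻¹ * ∑ s ∈ Finset.range L,
          ∑ p, ∑ q, (μ₁ s p q (X i j₁) * (U s q (Y j' k) * U s p (Z i' k')) +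
            μ₂ s p q (Z i' k') * (U s q (X i j₁) * U s p (Y j' k)) +
            μ₃ s p q (Y j' k) * (U s q (X i j₁) * U s p (Z i' k'))) := by
        rw [← h3]
        have h5 : H3 f 0 (X i j₁) (Y j' k) (Z i' k') =
          γ * if i = i' ∧ j₁ = j' ∧ k = k' then 1 else 0 := h1
        rw [h5, ← mul_assoc, inv_mul_cancel₀ hγ, one_mul]
      rw [h4, Finset.sum_range]
      simp only [Fintype.sum_prod_type, Finset.mul_sum]
      rw [← Finset.sum_add_distrib, ← Finset.sum_add_distrib]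
      refine Finset.sum_congr rfl fun s _ => ?_
      rw [← Finset.sum_add_distrib, ← Finset.sum_add_distrib]
      refine Finset.sum_congr rfl fun p _ => ?_
      rw [← Finset.sum_add_distrib, ← Finset.sum_add_distrib]
      refine Finset.sum_congr rfl fun q _ => ?_
      ring)
  refine this.trans (le_of_eq ?_)
  simp only [Fintype.card_sum, Fintype.card_prod, Fintype.card_fin]
  ring

end Pool.Agent.Helper51K9.NC
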