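import Pool.Agent.Y538.Net.Main
import Pool.Agent.W956.KF.Defs
import Mathlib.LinearAlgebra.FreeAlgebra

/-!
# Noncommutative functions: definitions
-/

set_option autoImplicit false

namespace Pool.Agent.Helper51K9.NC

open Matrix Topology Filter Pool.Agent.Y538.Net Pool.Agent.H522R2

/-! ### Functions of tuples of matrices -/

/-- A noncommutative function of `r` matrices over `𝕜`: for every finite index set `ι` a function
`val ι`, defined on an open set `dom ι` of `r`-tuples of `ι × ι` matrices, with values in the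
`ι × ι` matrices, such that direct sums and similar tuples (also over different index sets) belong
to the domain, and the function respects direct sums and similarity. -/
structure NCFun (𝕜 : Type) [NontriviallyNormedField 𝕜] (r : ℕ) where
  /-- the domain -/
  dom : ∀ (ι : Type) [Fintype ι] [DecidableEq ι], Set (Fin r → Matrix ι ι 𝕜)
  /-- the values -/
  val : ∀ (ι : Type) [Fintype ι] [DecidableEq ι], (Fin r → Matrix ι ι 𝕜) → Matrix ι ι 𝕜
  isOpen_dom : ∀ (ι : Type) [Fintype ι] [DecidableEq ι], IsOpen (dom ι)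
  sum_dom : ∀ (ι κ : Type) [Fintype ι] [DecidableEq ι] [Fintype κ] [DecidableEq κ]
    (X : Fin r → Matrix ι ι 𝕜) (Y : Fin r → Matrix κ κ 𝕜), X ∈ dom ι → Y ∈ dom κ →
      (fun i => fromBlocks (X i) 0 0 (Y i)) ∈ dom (ι ⊕ κ)
  sum_val : ∀ (ι κ : Type) [Fintype ι] [DecidableEq ι] [Fintype κ] [DecidableEq κ]
    (X : Fin r → Matrix ι ι 𝕜) (Y : Fin r → Matrix κ κ 𝕜), X ∈ dom ι → Y ∈ dom κ →
      val (ι ⊕ κ) (fun i => fromBlocks (X i) 0 0 (Y i)) = fromBlocks (val ι X) 0 0 (val κ Y)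
  sim_dom : ∀ (ι κ : Type) [Fintype ι] [DecidableEq ι] [Fintype κ] [DecidableEq κ]
    (S : Matrix ι κ 𝕜) (T : Matrix κ ι 𝕜) (X : Fin r → Matrix κ κ 𝕜), S * T = 1 → T * S = 1 →
      X ∈ dom κ → (fun i => S * X i * T) ∈ dom ι
  sim_val : ∀ (ι κ : Type) [Fintype ι] [DecidableEq ι] [Fintype κ] [DecidableEq κ]
    (S : Matrix ι κ 𝕜) (T : Matrix κ ι 𝕜) (X : Fin r → Matrix κ κ 𝕜), S * T = 1 → T * S = 1 →
      X ∈ dom κ → val ι (fun i => S * X i * T) = S * val κ X * T

/-- The function is affine: there are constants with `f(X) = α₀ + ∑ αᵢ Xᵢ` on the whole domain. -/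
def NCFun.Affine {𝕜 : Type} [NontriviallyNormedField 𝕜] {r : ℕ} (Φ : NCFun 𝕜 r) : Prop :=
  ∃ (α₀ : 𝕜) (α : Fin r → 𝕜), ∀ (ι : Type) [Fintype ι] [DecidableEq ι],
    ∀ X ∈ Φ.dom ι, Φ.val ι X = α₀ • (1 : Matrix ι ι 𝕜) + ∑ i, α i • X i

/-- An additive invariant of `r` matrices over `𝕜`: for every finite index set `ι` a differentiable
scalar function `val ι`, defined on an open set `dom ι` of `r`-tuples of `ι × ι` matrices, such that
direct sums and similar tuples belong to the domain, and the function is additive on direct sums and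
invariant under similarity. -/
structure NCInv (𝕜 : Type) [NontriviallyNormedField 𝕜] (r : ℕ) where
  /-- the domain -/
  dom : ∀ (ι : Type) [Fintype ι] [DecidableEq ι], Set (Fin r → Matrix ι ι 𝕜)
  /-- the values -/
  val : ∀ (ι : Type) [Fintype ι] [DecidableEq ι], (Fin r → Matrix ι ι 𝕜) → 𝕜
  isOpen_dom : ∀ (ι : Type) [Fintype ι] [DecidableEq ι], IsOpen (dom ι)
  differentiable : ∀ (ι : Type) [Fintype ι] [DecidableEq ι], ∀ X ∈ dom ι,
    DifferentiableAt 𝕜 (fun Y : Fin r → ι → ι → 𝕜 => val ι Y) X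
  sum_dom : ∀ (ι κ : Type) [Fintype ι] [DecidableEq ι] [Fintype κ] [DecidableEq κ]
    (X : Fin r → Matrix ι ι 𝕜) (Y : Fin r → Matrix κ κ 𝕜), X ∈ dom ι → Y ∈ dom κ →
      (fun i => fromBlocks (X i) 0 0 (Y i)) ∈ dom (ι ⊕ κ)
  sum_val : ∀ (ι κ : Type) [Fintype ι] [DecidableEq ι] [Fintype κ] [DecidableEq κ]
    (X : Fin r → Matrix ι ι 𝕜) (Y : Fin r → Matrix κ κ 𝕜), X ∈ dom ι → Y ∈ dom κ →
      val (ι ⊕ κ) (fun i => fromBlocks (X i) 0 0 (Y i)) = val ι X + val κ Y
  sim_dom : ∀ (ι κ : Type) [Fintype ι] [DecidableEq ι] [Fintype κ] [DecidableEq κ]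
    (S : Matrix ι κ 𝕜) (T : Matrix κ ι 𝕜) (X : Fin r → Matrix κ κ 𝕜), S * T = 1 → T * S = 1 →
      X ∈ dom κ → (fun i => S * X i * T) ∈ dom ι
  sim_val : ∀ (ι κ : Type) [Fintype ι] [DecidableEq ι] [Fintype κ] [DecidableEq κ]
    (S : Matrix ι κ 𝕜) (T : Matrix κ ι 𝕜) (X : Fin r → Matrix κ κ 𝕜), S * T = 1 → T * S = 1 →
      X ∈ dom κ → val ι (fun i => S * X i * T) = val κ X

/-- `1 ⊗ W`: the direct sum of `m` copies of the tuple `W`. -/
def copies {𝕜 : Type} [NontriviallyNormedField 𝕜] {r : ℕ} {σ : Type} (m : ℕ)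
    (W : Fin r → Matrix σ σ 𝕜) : Fin r → Matrix (Fin m × σ) (Fin m × σ) 𝕜 :=
  fun i => kroneckerMap (· * ·) (1 : Matrix (Fin m) (Fin m) 𝕜) (W i)

/-- the entries of the value -/
def NCFun.entries {𝕜 : Type} [NontriviallyNormedField 𝕜] {r : ℕ} (Φ : NCFun 𝕜 r)
    (ι : Type) [Fintype ι] [DecidableEq ι] :
    (Fin r → ι → ι → 𝕜) → ι × ι → 𝕜 := fun X o => Φ.val ι X o.1 o.2

/-- the value as a family with one member -/
def NCInv.one {𝕜 : Type} [NontriviallyNormedField 𝕜] {r : ℕ} (φ : NCInv 𝕜 r)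
    (ι : Type) [Fintype ι] [DecidableEq ι] :
    (Fin r → ι → ι → 𝕜) → Unit → 𝕜 := fun X _ => φ.val ι X

/-- Near every tuple of its domain the function is a quadratic trace polynomial, with the same
coefficients for all tuples and sizes up to the constant term. -/
def NCInv.Quadratic {𝕜 : Type} [NontriviallyNormedField 𝕜] {r : ℕ} (φ : NCInv 𝕜 r) : Prop :=
  ∃ (α : Fin r → 𝕜) (β : Fin r → Fin r → 𝕜), ∀ (ι : Type) [Fintype ι] [DecidableEq ι],
    ∀ X ∈ φ.dom ι, ∃ c : 𝕜, ∀ᶠ Y in 𝓝 X,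
      φ.val ι Y = c + ∑ i, α i * (Y i).trace + ∑ i, ∑ j, β i j * (Y i * Y j).trace

/-! ### Networks -/

section networks

variable {𝕜 : Type} [NontriviallyNormedField 𝕜] {E : Type} [NormedAddCommGroup E]
  [NormedSpace 𝕜 E]

/-- `g 0, …, g (L - 1)` are the outputs of the gates of a network with input in the open set `D`:
the `l`-th gate applies a map `φ : 𝕜 ^ a → 𝕜 ^ b` to `a` linear combinations of affine functions of
the input and of the outputs of the previous gates, and `φ` is `k` times continuously differentiable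
at the values that occur. -/
def IsNetK (k : WithTop ℕ∞) (a b L : ℕ) (D : Set E) (g : ℕ → Fin b → E → 𝕜) : Prop :=
  IsOpen D ∧ ∀ l < L, ∃ (u : Fin a → E → 𝕜) (φ : (Fin a → 𝕜) → Fin b → 𝕜),
    (∀ i, u i ∈ Aff g l) ∧
      ∀ x ∈ D, ContDiffAt 𝕜 k φ (fun i => u i x) ∧ ∀ o, g l o x = φ (fun i => u i x) o

/-- A network with `L` gates, each of which applies a `k` times continuously differentiable map
`𝕜 ^ a → 𝕜 ^ b`, gives the values `F y o` for all `y` near `x`. -/
def Gives {κ : Type} (k : WithTop ℕ∞) (a b L : ℕ) (F : E → κ → 𝕜) (x : E) : Prop :=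
  ∃ (D : Set E) (g : ℕ → Fin b → E → 𝕜), IsNetK k a b L D g ∧ x ∈ D ∧
    ∀ o, ∃ h ∈ Aff g L, h =ᶠ[𝓝 x] fun y => F y o

end networks

/-! ### Noncommutative polynomials -/

section polynomials

variable {K : Type} [Field K] {r : ℕ}

/-- The value of a noncommutative polynomial at a tuple of matrices with entries in a commutative
`K`-algebra. -/
noncomputable def ev {R : Type} [CommRing R] [Algebra K R] (p : FreeAlgebra K (Fin r))
    {ι : Type} [Fintype ι] [DecidableEq ι] (X : Fin r → Matrix ι ι R) : Matrix ι ι R :=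
  FreeAlgebra.lift K X p

/-- The polynomial is affine: a linear combination of `1` and the variables. -/
def AffinePoly (p : FreeAlgebra K (Fin r)) : Prop :=
  ∃ (α₀ : K) (α : Fin r → K), p = algebraMap K _ α₀ + ∑ i, α i • FreeAlgebra.ι K i

/-- The trace of the polynomial is a quadratic trace polynomial. -/
def QuadraticTrace (p : FreeAlgebra K (Fin r)) : Prop :=
  ∃ (c : K) (α : Fin r → K) (β : Fin r → Fin r → K), ∀ (ι : Type) [Fintype ι] [DecidableEq ι],
    ∀ X : Fin r → Matrix ι ι K, (ev p X).trace =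
      c * Fintype.card ι + ∑ i, α i * (X i).trace + ∑ i, ∑ j, β i j * (X i * X j).trace

/-- The generic `r`-tuple of `m × m` matrices. -/
noncomputable def gen (K : Type) [Field K] (r m : ℕ) :
    Fin r → Matrix (Fin m) (Fin m) (MvPolynomial (Fin r × Fin m × Fin m) K) :=
  fun i => Matrix.of fun a b => MvPolynomial.X (i, a, b)

/-- The least size of a circuit which computes the `m ^ 2` entries of `p (X₁, …, X_r)`, where the
`Xᵢ` are generic `m × m` matrices. -/
noncomputable def sizeNC (p : FreeAlgebra K (Fin r)) (m : ℕ) : ℕ :=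
  sInf {s | ∃ C : Circuit K (Fin r × Fin m × Fin m),
    (∀ a b : Fin m, ∃ v : Fin C.nodes, C.poly v = ev p (gen K r m) a b) ∧ C.size = s}

/-- The least size of a circuit which computes the trace of `p (X₁, …, X_r)`, where the
`Xᵢ` are generic `m × m` matrices. -/
noncomputable def sizeTr (p : FreeAlgebra K (Fin r)) (m : ℕ) : ℕ :=
  sInf {s | ∃ C : Circuit K (Fin r × Fin m × Fin m),
    (∃ v : Fin C.nodes, C.poly v = (ev p (gen K r m)).trace) ∧ C.size = s}

/-- Superlinear growth, as a function of `n = m ^ 2`, for all large `m`. -/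
def EvSuperlinear (f : ℕ → ℕ) : Prop :=
  ∃ α : ℝ, 1 < α ∧ ∃ c : ℝ, 0 < c ∧ ∀ᶠ m : ℕ in atTop, c * (((m : ℝ) ^ 2) ^ α) ≤ f m

end polynomials

end Pool.Agent.Helper51K9.NC
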