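import Pool.Agent.Helper51K9.NC.Final

/-!
# The easy polynomials
-/

set_option autoImplicit false
set_option linter.unusedSectionVars false

namespace Pool.Agent.Helper51K9.NC

open Matrix Topology Filter Pool.Agent.Y538.Net Pool.Agent.W956.KF Pool.Agent.H522R2

theorem sizeNC_affine {K : Type} [Field K] {r : ℕ} {p : FreeAlgebra K (Fin r)}
    (h : AffinePoly p) : ∃ c : ℕ, ∀ m, sizeNC p m ≤ c * m ^ 2 := by
  obtain ⟨α₀, α, rfl⟩ := h
  refine ⟨2 * r + 1, fun m => ?_⟩
  have h0 : (0 : MvPolynomial (Fin r × Fin m × Fin m) K) ∈ inputs K (Fin r × Fin m × Fin m) := by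
    simpa using C_mem_inputs (K := K) (V := Fin r × Fin m × Fin m) 0
  have key : ∀ t : Fin m × Fin m, Cost (inputs K (Fin r × Fin m × Fin m))
      {ev (algebraMap K _ α₀ + ∑ i, α i • FreeAlgebra.ι K i) (gen K r m) t.1 t.2} (2 * r + 1) := by
    intro t
    have h1 : Cost (inputs K (Fin r × Fin m × Fin m))
        {∑ i : Fin r, algebraMap K (MvPolynomial (Fin r × Fin m × Fin m) K) (α i) *
          MvPolynomial.X (i, t.1, t.2)} (2 * Fintype.card (Fin r)) :=
      Cost.sum_mul h0 (fun i : Fin r => algebraMap K (MvPolynomial (Fin r × Fin m × Fin m) K) (α i))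
        (fun i : Fin r => MvPolynomial.X (i, t.1, t.2)) (fun i => C_mem_inputs _)
        fun i => X_mem_inputs _
    have h2 : Cost (inputs K (Fin r × Fin m × Fin m) ∪
        {∑ i : Fin r, algebraMap K (MvPolynomial (Fin r × Fin m × Fin m) K) (α i) *
          MvPolynomial.X (i, t.1, t.2)})
        {algebraMap K (MvPolynomial (Fin r × Fin m × Fin m) K) (if t.1 = t.2 then α₀ else 0) +
          ∑ i : Fin r, algebraMap K (MvPolynomial (Fin r × Fin m × Fin m) K) (α i) *
          MvPolynomial.X (i, t.1, t.2)} 1 :=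
      Cost.add (Or.inl (C_mem_inputs _)) (Or.inr rfl)
    refine (h1.comp h2).mono subset_rfl ?_ (by simp)
    rintro _ rfl
    refine Or.inr ?_
    have e1 : (algebraMap K (Matrix (Fin m) (Fin m) (MvPolynomial (Fin r × Fin m × Fin m) K)) α₀)
        t.1 t.2 = algebraMap K (MvPolynomial (Fin r × Fin m × Fin m) K)
          (if t.1 = t.2 then α₀ else 0) := by
      rw [Matrix.algebraMap_matrix_apply]
      split_ifs
      · rfl
      · rw [map_zero]
    unfold ev
    rw [map_add, AlgHom.commutes, map_sum, Matrix.add_apply, Matrix.sum_apply, e1,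
      Set.mem_singleton_iff]
    congr 1
    refine Finset.sum_congr rfl fun i _ => ?_
    rw [map_smul, FreeAlgebra.lift_ι_apply, Matrix.smul_apply, Algebra.smul_def]
    rfl
  have h3 : Cost (inputs K (Fin r × Fin m × Fin m))
      (Set.range fun t : Fin m × Fin m =>
        ev (algebraMap K _ α₀ + ∑ i, α i • FreeAlgebra.ι K i) (gen K r m) t.1 t.2)
      (Fintype.card (Fin m × Fin m) * (2 * r + 1)) := Cost.range key
  obtain ⟨C, h4, h5⟩ := exists_circuit_of_cost (Set.finite_range _) h3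
  refine le_trans (Nat.sInf_le ⟨C, fun a b => h5 _ ⟨(a, b), rfl⟩, rfl⟩) (h4.trans (le_of_eq ?_))
  rw [Fintype.card_prod, Fintype.card_fin]
  ring

theorem sizeTr_quadratic {K : Type} [Field K] [Infinite K] {r : ℕ} {p : FreeAlgebra K (Fin r)}
    (h : QuadraticTrace p) : ∃ c : ℕ, ∀ m, sizeTr p m ≤ c * m ^ 2 := by
  obtain ⟨α₀, α, β, h⟩ := h
  refine ⟨2 * r * r + 4 * r + 2, fun m => ?_⟩
  have h0 : (0 : MvPolynomial (Fin r × Fin m × Fin m) K) ∈ inputs K (Fin r × Fin m × Fin m) := by
    simpa using C_mem_inputs (K := K) (V := Fin r × Fin m × Fin m) 0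
  rcases Nat.eq_zero_or_pos m with rfl | hm
  · have h1 : Cost (inputs K (Fin r × Fin 0 × Fin 0)) {(ev p (gen K r 0)).trace} 0 := by
      refine Cost.of_subset ?_ _
      rintro _ rfl
      have : (ev p (gen K r 0)).trace = 0 := by simp [Matrix.trace]
      rw [this]
      exact h0
    obtain ⟨C, h2, h3⟩ := exists_circuit_of_cost (Set.finite_singleton _) h1
    exact le_trans (Nat.sInf_le ⟨C, h3 _ rfl, rfl⟩) (h2.trans (Nat.zero_le _))
  let x : Fin r → Fin m → Fin m → MvPolynomial (Fin r × Fin m × Fin m) K :=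
    fun i a b => MvPolynomial.X (i, a, b)
  let cc : K → MvPolynomial (Fin r × Fin m × Fin m) K := algebraMap K _
  -- the inner sums
  let y : Fin r × Fin m × Fin m → MvPolynomial (Fin r × Fin m × Fin m) K :=
    fun t => ∑ j, cc (β t.1 j) * x j t.2.2 t.2.1
  have h1 : Cost (inputs K (Fin r × Fin m × Fin m)) (Set.range y)
      (Fintype.card (Fin r × Fin m × Fin m) * (2 * Fintype.card (Fin r))) :=
    Cost.range fun t => Cost.sum_mul h0 (fun j => cc (β t.1 j)) (fun j => x j t.2.2 t.2.1)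
      (fun j => C_mem_inputs _) fun j => X_mem_inputs _
  have h2 : Cost (inputs K (Fin r × Fin m × Fin m) ∪ Set.range y)
      {∑ t : Fin r × Fin m × Fin m, x t.1 t.2.1 t.2.2 * y t}
      (2 * Fintype.card (Fin r × Fin m × Fin m)) :=
    Cost.sum_mul (Set.mem_union_left _ h0) (fun t : Fin r × Fin m × Fin m => x t.1 t.2.1 t.2.2) y
      (fun t => Or.inl (X_mem_inputs _)) fun t => Or.inr ⟨t, rfl⟩
  have h3 : Cost (inputs K (Fin r × Fin m × Fin m))
      {∑ t : Fin r × Fin m, cc (α t.1) * x t.1 t.2 t.2} (2 * Fintype.card (Fin r × Fin m)) :=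
    Cost.sum_mul h0 (fun t : Fin r × Fin m => cc (α t.1)) (fun t => x t.1 t.2 t.2)
      (fun t => C_mem_inputs _) fun t => X_mem_inputs _
  have h4 := (h1.comp h2).union h3
  have h5 : Cost (inputs K (Fin r × Fin m × Fin m) ∪
      ((Set.range y ∪ {∑ t : Fin r × Fin m × Fin m, x t.1 t.2.1 t.2.2 * y t}) ∪
        {∑ t : Fin r × Fin m, cc (α t.1) * x t.1 t.2 t.2}))
      {cc (α₀ * m) + ∑ t : Fin r × Fin m, cc (α t.1) * x t.1 t.2 t.2} 1 :=
    Cost.add (Or.inl (C_mem_inputs _)) (Or.inr (Or.inr rfl))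
  have h6 := h4.comp h5
  have h7 : Cost (inputs K (Fin r × Fin m × Fin m) ∪
      (((Set.range y ∪ {∑ t : Fin r × Fin m × Fin m, x t.1 t.2.1 t.2.2 * y t}) ∪
        {∑ t : Fin r × Fin m, cc (α t.1) * x t.1 t.2 t.2}) ∪
        {cc (α₀ * m) + ∑ t : Fin r × Fin m, cc (α t.1) * x t.1 t.2 t.2}))
      {(cc (α₀ * m) + ∑ t : Fin r × Fin m, cc (α t.1) * x t.1 t.2 t.2) +
        ∑ t : Fin r × Fin m × Fin m, x t.1 t.2.1 t.2.2 * y t} 1 :=
    Cost.add (Or.inr (Or.inr rfl)) (Or.inr (Or.inl (Or.inl (Or.inr rfl))))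
  have h8 := h6.comp h7
  have h9 : (ev p (gen K r m)).trace =
      (cc (α₀ * m) + ∑ t : Fin r × Fin m, cc (α t.1) * x t.1 t.2 t.2) +
        ∑ t : Fin r × Fin m × Fin m, x t.1 t.2.1 t.2.2 * y t := by
    refine MvPolynomial.funext fun v => ?_
    have e1 : MvPolynomial.eval v (ev p (gen K r m)).trace =
        (ev p (fun i => Matrix.of fun a b => v (i, a, b))).trace := by
      have e2 := ev_map p (MvPolynomial.aeval v : MvPolynomial (Fin r × Fin m × Fin m) K →ₐ[K] K)
        (gen K r m)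
      have e3 : (fun i => (gen K r m i).map (MvPolynomial.aeval v :
          MvPolynomial (Fin r × Fin m × Fin m) K →ₐ[K] K)) =
          fun i => Matrix.of fun a b => v (i, a, b) := by
        funext i
        ext a b
        simp only [gen, Matrix.map_apply, Matrix.of_apply, MvPolynomial.aeval_X]
      rw [e3] at e2
      rw [← e2, Matrix.trace, Matrix.trace, map_sum]
      refine Finset.sum_congr rfl fun a _ => ?_
      rw [Matrix.diag_apply, Matrix.diag_apply, Matrix.map_apply, MvPolynomial.aeval_def,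
        MvPolynomial.eval₂_eq_eval_map]
      simp
    rw [e1, h (Fin m) (fun i => Matrix.of fun a b => v (i, a, b))]
    simp only [map_add, map_sum, map_mul, cc, x, y, MvPolynomial.algebraMap_eq,
      MvPolynomial.eval_C, MvPolynomial.eval_X, Fintype.card_fin, Fintype.sum_prod_type,
      Matrix.trace, Matrix.diag, Matrix.of_apply, Matrix.mul_apply, Finset.mul_sum]
    congr 1
    refine Finset.sum_congr rfl fun i _ => ?_
    have e2 : ∀ a, ∑ b, ∑ j, v (i, a, b) * (β i j * v (j, b, a)) =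
        ∑ j, ∑ b, β i j * (v (i, a, b) * v (j, b, a)) := by
      intro a
      rw [Finset.sum_comm]
      exact Finset.sum_congr rfl fun j _ => Finset.sum_congr rfl fun b _ => by ring
    simp only [e2]
    rw [Finset.sum_comm]
  have h10 : Cost (inputs K (Fin r × Fin m × Fin m)) {(ev p (gen K r m)).trace}
      ((2 * r * r + 4 * r + 2) * m ^ 2) := by
    refine h8.mono subset_rfl ?_ ?_
    · rw [h9]
      rintro _ rfl
      exact Or.inr rfl
    · simp only [Fintype.card_prod, Fintype.card_fin]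
      have : m ≤ m * m := Nat.le_mul_self m
      have h11 : 1 ≤ m * m := Nat.mul_pos hm hm
      nlinarith [Nat.mul_le_mul_left r this]
  obtain ⟨C, h11, h12⟩ := exists_circuit_of_cost (Set.finite_singleton _) h10
  exact le_trans (Nat.sInf_le ⟨C, h12 _ rfl, rfl⟩) h11

end Pool.Agent.Helper51K9.NC
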