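import Pool.Agent.Helper51K9.NC.Reduce

/-!
# Equivalence with the question about matrix multiplication
-/

set_option autoImplicit false
set_option linter.unusedSectionVars false

namespace Pool.Agent.Helper51K9.NC

open Matrix Topology Filter Pool.Agent.Y538.Net Pool.Agent.W956.KF Pool.Agent.H522R2
open Pool.Agent.H88R3.MM (Vars)
open Pool.Agent.Helper16K9.Fast Pool.Agent.H826R3.SM

theorem card_sf {r : ℕ} (w : List (Fin r)) : Fintype.card (Sf w) ≤ w.length + 1 := by
  rw [Fintype.card_coe]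
  refine (List.toFinset_card_le _).trans ?_
  rw [List.length_tails]

theorem sizeMM_le_sizeNC {K : Type} [Field K] {r : ℕ} {p : FreeAlgebra K (Fin r)}
    {w : List (Fin r)} (hw : 2 ≤ w.length)
    (hc : (FreeAlgebra.basisFreeMonoid K (Fin r)).repr p (FreeMonoid.ofList w) ≠ 0)
    {m n : ℕ} (hmn : (w.length + 1) * m ≤ n) : sizeMM K m ≤ sizeNC p n + m ^ 2 := by
  classical
  set c := (FreeAlgebra.basisFreeMonoid K (Fin r)).repr p (FreeMonoid.ofList w) with hcdef
  have hcard : Fintype.card (Fin m × Sf w) ≤ Fintype.card (Fin n) := by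
    rw [Fintype.card_prod, Fintype.card_fin, Fintype.card_fin]
    calc m * Fintype.card (Sf w) ≤ m * (w.length + 1) := Nat.mul_le_mul_left _ (card_sf w)
      _ ≤ n := by rw [mul_comm]; exact hmn
  obtain ⟨j⟩ := Function.Embedding.nonempty_of_card_le hcard
  obtain ⟨C, h1, h2⟩ := exists_circuit_NC p n
  let A : Matrix (Fin m) (Fin m) (MvPolynomial (Vars m) K) :=
    Matrix.of fun i k => MvPolynomial.X (Sum.inl (i, k))
  let B : Matrix (Fin m) (Fin m) (MvPolynomial (Vars m) K) :=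
    Matrix.of fun i k => MvPolynomial.X (Sum.inr (i, k))
  let N := extend j (two w A B)
  let φ : MvPolynomial (Fin r × Fin n × Fin n) K →ₐ[K] MvPolynomial (Vars m) K :=
    MvPolynomial.aeval fun v => N v.1 v.2.1 v.2.2
  have h0 : (0 : MvPolynomial (Vars m) K) ∈ inputs K (Vars m) := by
    simpa using C_mem_inputs (K := K) (V := Vars m) 0
  have h01 : (1 : MvPolynomial (Vars m) K) ∈ inputs K (Vars m) := by
    simpa using C_mem_inputs (K := K) (V := Vars m) 1
  have hN : ∀ i a b, N i a b ∈ inputs K (Vars m) := by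
    intro i a b
    by_cases h : ∃ x y, j x = a ∧ j y = b
    · obtain ⟨x, y, rfl, rfl⟩ := h
      have e : N i (j x) (j y) = two w A B i x y := extend_apply j _ i x y
      rw [e]
      simp only [two, Matrix.of_apply]
      split_ifs
      · exact X_mem_inputs _
      · exact X_mem_inputs _
      · exact h01
      · exact h0
      · exact h0
    · have e : N i a b = 0 := extend_zero j _ i a b h
      rw [e]
      exact h0
  have h3 : Cost (inputs K (Vars m))
      (Set.range fun t : Fin m × Fin m => algebraMap K (MvPolynomial (Vars m) K) c *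
        entryMM K m t.1 t.2) (sizeNC p n) := by
    refine ((cost_of_circuit C).map (φ : MvPolynomial (Fin r × Fin n × Fin n) K →+*
      MvPolynomial (Vars m) K)).mono ?_ ?_ h2.le
    · rintro _ ⟨_, ⟨v, rfl⟩ | ⟨c, rfl⟩, rfl⟩
      · simpa [φ] using hN _ _ _
      · simpa [φ] using C_mem_inputs (K := K) (V := Vars m) c
    · rintro _ ⟨⟨a, b⟩, rfl⟩
      refine ⟨ev p (gen K r n) (j (a, topS w)) (j (b, nilS w)), h1 _ _, ?_⟩
      have e1 := congrFun (congrFun (ev_map p φ (gen K r n)) (j (a, topS w))) (j (b, nilS w))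
      have e2 : (fun i => (gen K r n i).map φ) = N := by
        funext i
        ext x y : 1
        simp [φ, gen]
      rw [e2, Matrix.map_apply] at e1
      refine Eq.trans e1 ?_
      have e3 : ev p N (j (a, topS w)) (j (b, nilS w)) =
          ev p (two w A B) (a, topS w) (b, nilS w) := ev_extend p j _ _ _
      rw [e3, ev_two p hw]
      rfl
  have h4 : Cost (inputs K (Vars m) ∪ Set.range fun t : Fin m × Fin m =>
      algebraMap K (MvPolynomial (Vars m) K) c * entryMM K m t.1 t.2)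
      (Set.range fun t : Fin m × Fin m => algebraMap K (MvPolynomial (Vars m) K) c⁻¹ *
        (algebraMap K (MvPolynomial (Vars m) K) c * entryMM K m t.1 t.2))
      (Fintype.card (Fin m × Fin m) * 1) := Cost.range fun t =>
    Cost.mul (Or.inl (C_mem_inputs _)) (Or.inr ⟨t, rfl⟩)
  have h5 : Cost (inputs K (Vars m)) (Set.range fun t : Fin m × Fin m => entryMM K m t.1 t.2)
      (sizeNC p n + m ^ 2) := by
    refine (h3.comp h4).mono subset_rfl ?_ ?_
    · rintro _ ⟨t, rfl⟩
      refine Or.inr ⟨t, ?_⟩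
      change algebraMap K (MvPolynomial (Vars m) K) c⁻¹ *
        (algebraMap K (MvPolynomial (Vars m) K) c * entryMM K m t.1 t.2) = entryMM K m t.1 t.2
      rw [← mul_assoc, ← map_mul, inv_mul_cancel₀ hc, map_one, one_mul]
    · rw [Fintype.card_prod, Fintype.card_fin, mul_one, sq]
  obtain ⟨C', h6, h7⟩ := exists_circuit_of_cost (Set.finite_range _) h5
  refine le_trans (Nat.sInf_le ⟨C', fun i j => h7 _ ⟨(i, j), rfl⟩, rfl⟩) h6

theorem sq_le_sizeMM (K : Type) [Field K] (m : ℕ) : m ^ 2 ≤ 2 * sizeMM K m :=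
  (sq_le_trank (K := K) m).trans (Pool.Agent.Helper16K9.Adds.trank_le_two_size K m)

theorem evSuperlinear_iff {K : Type} [Field K] {f : ℕ → ℕ} {s c C : ℕ} (hs : 0 < s)
    (hc : 0 < c) (hlow : ∀ m n : ℕ, s * m ≤ n → trank K m m m ≤ c * f n + c * m ^ 2)
    (hup : ∀ m, f m ≤ C * sizeMM K m) : EvSuperlinear f ↔ Superlinear (sizeMM K) := by
  rw [Pool.Agent.Helper16K9.Adds.superlinear_size_iff]
  constructor
  · rintro ⟨α, hα, a, ha, h⟩
    by_contra hcon
    push Not at hcon
    obtain ⟨D, hD⟩ := sizeMM_upper (K := K) (τ := 1 + α) (by linarith)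
    have hlim : Tendsto (fun q : ℕ => (q : ℝ) ^ (2 * α - (1 + α))) atTop atTop :=
      (tendsto_rpow_atTop (by linarith)).comp tendsto_natCast_atTop_atTop
    obtain ⟨m, ⟨hm1, hm2⟩, hm3⟩ := ((hlim.eventually_gt_atTop (C * D / a)).and
      (eventually_ge_atTop 1)).and h |>.exists
    have hm0 : (0 : ℝ) < m := by exact_mod_cast hm2
    have h0 : (f m : ℝ) ≤ C * sizeMM K m := by exact_mod_cast hup m
    have h1 : a * (((m : ℝ) ^ 2) ^ α) ≤ C * D * (m : ℝ) ^ (1 + α) := by
      have h2 := mul_le_mul_of_nonneg_left (hD m) (Nat.cast_nonneg (α := ℝ) C)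
      linarith
    have e1 : ((m : ℝ) ^ 2) ^ α = (m : ℝ) ^ (2 * α - (1 + α)) * (m : ℝ) ^ (1 + α) := by
      rw [← Real.rpow_add hm0, ← Real.rpow_natCast (m : ℝ) 2, ← Real.rpow_mul hm0.le]
      congr 1
      push_cast
      ring
    rw [e1] at h1
    have h2 : 0 < (m : ℝ) ^ (1 + α) := Real.rpow_pos_of_pos hm0 _
    have h3 : C * D < a * (m : ℝ) ^ (2 * α - (1 + α)) := by
      rw [div_lt_iff₀ ha] at hm1
      linarith
    have h4 := mul_lt_mul_of_pos_right h3 h2
    linarith [mul_assoc a ((m : ℝ) ^ (2 * α - (1 + α))) ((m : ℝ) ^ (1 + α))]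
  · intro h
    set ω := omegaMM K with hω
    have hc' : (0 : ℝ) < c := by exact_mod_cast hc
    have hs' : (0 : ℝ) < s := by exact_mod_cast hs
    refine ⟨ω / 2, by linarith, (1 / (2 * c)) * (1 / (2 * s)) ^ ω, by positivity, ?_⟩
    have hlim : Tendsto (fun q : ℕ => (q : ℝ) ^ (ω - 2)) atTop atTop :=
      (tendsto_rpow_atTop (by linarith)).comp tendsto_natCast_atTop_atTop
    obtain ⟨M, hM⟩ := eventually_atTop.mp (hlim.eventually_ge_atTop (2 * (c : ℝ)))
    filter_upwards [eventually_ge_atTop (s * (M + 1))] with n hn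
    have hns : s ≤ n := le_trans (Nat.le_mul_of_pos_right s (Nat.succ_pos M)) hn
    have hn0 : (0 : ℝ) < n := by exact_mod_cast (by omega : 0 < n)
    have hq : 1 ≤ n / s := (Nat.one_le_div_iff hs).mpr hns
    have hqM : M ≤ n / s := by
      rw [Nat.le_div_iff_mul_le hs]
      nlinarith
    have hq0 : (0 : ℝ) < ((n / s : ℕ) : ℝ) := by exact_mod_cast hq
    have h1 := rpow_omega_le (K := K) (n / s) hq
    rw [← hω] at h1
    have h2 : (trank K (n / s) (n / s) (n / s) : ℝ) ≤ c * f n + c * ((n / s : ℕ) : ℝ) ^ 2 := by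
      exact_mod_cast hlow (n / s) n (Nat.mul_div_le n s)
    have h2' : 2 * (c * ((n / s : ℕ) : ℝ) ^ 2) ≤ ((n / s : ℕ) : ℝ) ^ ω := by
      have h3 := hM (n / s) hqM
      have e1 : ((n / s : ℕ) : ℝ) ^ ω = ((n / s : ℕ) : ℝ) ^ (ω - 2) * ((n / s : ℕ) : ℝ) ^ 2 := by
        rw [← Real.rpow_natCast _ 2, ← Real.rpow_add hq0]
        congr 1
        push_cast
        ring
      rw [e1]
      have h4 := mul_le_mul_of_nonneg_right h3 (sq_nonneg ((n / s : ℕ) : ℝ))
      linarith
    have h3 : (n : ℝ) * (1 / (2 * s)) ≤ ((n / s : ℕ) : ℝ) := by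
      have h4 : n < s * (n / s + 1) := Nat.lt_mul_div_succ n hs
      have h5 : (n : ℝ) < s * ((n / s : ℕ) + 1) := by exact_mod_cast h4
      have h6 : (1 : ℝ) ≤ ((n / s : ℕ) : ℝ) := by exact_mod_cast hq
      rw [mul_one_div, div_le_iff₀ (by positivity)]
      nlinarith
    have h4 : ((n : ℝ) * (1 / (2 * s))) ^ ω ≤ ((n / s : ℕ) : ℝ) ^ ω :=
      Real.rpow_le_rpow (by positivity) h3 (by linarith)
    rw [Real.mul_rpow hn0.le (by positivity)] at h4
    have e1 : ((n : ℝ) ^ 2) ^ (ω / 2) = (n : ℝ) ^ ω := by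
      rw [← Real.rpow_natCast (n : ℝ) 2, ← Real.rpow_mul hn0.le]
      congr 1
      push_cast
      ring
    rw [e1]
    have h5 : (n : ℝ) ^ ω * (1 / (2 * s)) ^ ω ≤ 2 * (c * f n) := by linarith
    have h6 : (1 / (2 * (c : ℝ))) * (1 / (2 * s)) ^ ω * (n : ℝ) ^ ω =
        ((n : ℝ) ^ ω * (1 / (2 * s)) ^ ω) / (2 * c) := by ring
    rw [h6, div_le_iff₀ (by positivity)]
    linarith

/-- the two sizes are the same up to constant factors -/
theorem sizeNC_equiv {K : Type} [Field K] {r : ℕ} {p : FreeAlgebra K (Fin r)}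
    (hp : ¬ AffinePoly p) : ∃ c : ℕ, 0 < c ∧ (∀ m, sizeNC p m ≤ c * sizeMM K m) ∧
      ∀ m n, c * m ≤ n → sizeMM K m ≤ sizeNC p n + m ^ 2 := by
  obtain ⟨w, hw, hc⟩ := exists_word hp
  obtain ⟨c, hc'⟩ := sizeNC_le p
  refine ⟨3 * c + (w.length + 1), by omega, fun m => ?_, fun m n hmn => ?_⟩
  · have h1 := hc' m
    have h2 := sq_le_sizeMM K m
    nlinarith
  · refine sizeMM_le_sizeNC hw hc (le_trans ?_ hmn)
    nlinarith

theorem superlinear_NC {K : Type} [Field K] {r : ℕ} {p : FreeAlgebra K (Fin r)}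
    (hp : ¬ AffinePoly p) : EvSuperlinear (sizeNC p) ↔ Superlinear (sizeMM K) := by
  obtain ⟨c, hc, h1, h2⟩ := sizeNC_equiv hp
  refine evSuperlinear_iff (s := c) (c := 2) (C := c) hc two_pos (fun m n hmn => ?_) h1
  have h3 := h2 m n hmn
  have h4 := Pool.Agent.Helper16K9.Adds.trank_le_two_size K m
  omega

end Pool.Agent.Helper51K9.NC
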