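import Pool.Agent.Helper51K9.NC.Trace

/-!
# The easy alternatives, and index sets `Fin s`
-/

set_option autoImplicit false
set_option linter.unusedSectionVars false

namespace Pool.Agent.Helper51K9.NC

open Matrix Topology Filter Pool.Agent.Y538.Net Pool.Agent.W956.KF Pool.Agent.H522R2

section easy

variable {𝕜 : Type} [NontriviallyNormedField 𝕜] {r : ℕ}

theorem NCFun.gives_of_affine {Φ : NCFun 𝕜 r} (h : Φ.Affine) (k : WithTop ℕ∞) (a b : ℕ)
    (ι : Type) [Fintype ι] [DecidableEq ι] {X : Fin r → Matrix ι ι 𝕜} (hX : X ∈ Φ.dom ι) :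
    Gives k a b 0 (Φ.entries ι) X := by
  obtain ⟨α₀, α, hα⟩ := h
  refine ⟨Set.univ, fun _ _ _ => 0, ⟨isOpen_univ, fun l hl => absurd hl (Nat.not_lt_zero l)⟩,
    Set.mem_univ _, fun o => ?_⟩
  refine ⟨fun Y : Fin r → ι → ι → 𝕜 => (∑ i, α i • (pe i o.1 o.2 :
    (Fin r → ι → ι → 𝕜) →L[𝕜] 𝕜)) Y + α₀ * (1 : Matrix ι ι 𝕜) o.1 o.2,
    Submodule.subset_span (Or.inl ⟨_, _, rfl⟩), ?_⟩
  have h1 : ∀ᶠ Y : Fin r → ι → ι → 𝕜 in 𝓝 X, Y ∈ Φ.dom ι := (Φ.isOpen_dom ι).mem_nhds hX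
  filter_upwards [h1] with Y hY
  have h2 := congrFun (congrFun (hα ι Y hY) o.1) o.2
  change _ = Φ.val ι Y o.1 o.2
  rw [h2, Matrix.add_apply, Matrix.smul_apply, Matrix.sum_apply, _root_.sum_apply, add_comm]
  congr 1

theorem gives_sum_mul {E : Type} [NormedAddCommGroup E] [NormedSpace 𝕜 E] {T : Type} [Fintype T]
    (u v : T → E →L[𝕜] 𝕜) (w : E →L[𝕜] 𝕜) (c : 𝕜) (k : WithTop ℕ∞) (x : E) :
    Gives k 2 1 (Fintype.card T) (fun y (_ : Unit) => ∑ t, u t y * v t y + w y + c) x := by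
  classical
  let e := Fintype.equivFin T
  let g : ℕ → Fin 1 → E → 𝕜 := fun l _ y =>
    if h : l < Fintype.card T then u (e.symm ⟨l, h⟩) y * v (e.symm ⟨l, h⟩) y else 0
  refine ⟨Set.univ, g, ⟨isOpen_univ, fun l hl => ?_⟩, Set.mem_univ _, fun _ => ?_⟩
  · refine ⟨![u (e.symm ⟨l, hl⟩), v (e.symm ⟨l, hl⟩)], fun y _ => y 0 * y 1, ?_,
      fun x _ => ⟨?_, fun o => ?_⟩⟩
    · intro i
      refine Submodule.subset_span (Or.inl ?_)
      fin_cases i
      · exact ⟨u (e.symm ⟨l, hl⟩), 0, by funext y; simp⟩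
      · exact ⟨v (e.symm ⟨l, hl⟩), 0, by funext y; simp⟩
    · refine contDiffAt_pi.mpr fun _ => ?_
      exact (contDiff_apply 𝕜 𝕜 (0 : Fin 2)).contDiffAt.mul
        (contDiff_apply 𝕜 𝕜 (1 : Fin 2)).contDiffAt
    · simp [g, hl]
  · refine ⟨(∑ l : Fin (Fintype.card T), g l 0) + fun y => w y + c, ?_, ?_⟩
    · refine Submodule.add_mem _ (Submodule.sum_mem _ fun l _ => ?_) ?_
      · exact Submodule.subset_span (Or.inr ⟨l, l.2, 0, rfl⟩)
      · exact Submodule.subset_span (Or.inl ⟨w, c, rfl⟩)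
    · refine Filter.Eventually.of_forall fun y => ?_
      change ((∑ l : Fin (Fintype.card T), g l 0) + fun y => w y + c) y =
        ∑ t, u t y * v t y + w y + c
      rw [Pi.add_apply, Finset.sum_apply, add_assoc]
      congr 1
      rw [← e.symm.sum_comp]
      refine Finset.sum_congr rfl fun l _ => ?_
      simp [g]

/-- the domain as the domain of the zero function -/
noncomputable def NCInv.zeroFun (φ : NCInv 𝕜 r) : NCFun 𝕜 r where
  dom := φ.dom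
  val := fun _ _ _ _ => 0
  isOpen_dom := φ.isOpen_dom
  sum_dom := φ.sum_dom
  sum_val := fun _ _ _ _ _ _ _ _ _ _ => by simp
  sim_dom := φ.sim_dom
  sim_val := fun _ _ _ _ _ _ _ _ _ _ _ _ => by simp

variable {ι κ σ : Type} [Fintype ι] [DecidableEq ι] [Fintype κ] [DecidableEq κ]
  [Fintype σ] [DecidableEq σ]

theorem NCFun.reindex_val (Φ : NCFun 𝕜 r) (e : ι ≃ κ) {X : Fin r → Matrix κ κ 𝕜}
    (hX : X ∈ Φ.dom κ) :
    Φ.val ι (fun i => (X i).submatrix e e) = (Φ.val κ X).submatrix e e := by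
  have h := Φ.sim_val ι κ ((1 : Matrix κ κ 𝕜).submatrix e (Equiv.refl κ))
    ((1 : Matrix κ κ 𝕜).submatrix (Equiv.refl κ) e) X
    (by rw [Matrix.submatrix_mul_equiv, Matrix.mul_one, Matrix.submatrix_one_equiv])
    (by rw [Matrix.submatrix_mul_equiv, Matrix.mul_one, Matrix.submatrix_one_equiv]) hX
  have e1 : ∀ Y : Matrix κ κ 𝕜, (1 : Matrix κ κ 𝕜).submatrix e (Equiv.refl κ) * Y *
      (1 : Matrix κ κ 𝕜).submatrix (Equiv.refl κ) e = Y.submatrix e e := by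
    intro Y
    have h1 : Y = Y.submatrix (Equiv.refl κ) (Equiv.refl κ) := rfl
    conv_lhs => rw [h1]
    rw [Matrix.submatrix_mul_equiv, Matrix.submatrix_mul_equiv, Matrix.one_mul, Matrix.mul_one]
  simpa only [e1] using h

theorem NCInv.reindex_val (φ : NCInv 𝕜 r) (e : ι ≃ κ) {X : Fin r → Matrix κ κ 𝕜}
    (hX : X ∈ φ.dom κ) : φ.val ι (fun i => (X i).submatrix e e) = φ.val κ X := by
  have h := φ.sim_val ι κ ((1 : Matrix κ κ 𝕜).submatrix e (Equiv.refl κ))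
    ((1 : Matrix κ κ 𝕜).submatrix (Equiv.refl κ) e) X
    (by rw [Matrix.submatrix_mul_equiv, Matrix.mul_one, Matrix.submatrix_one_equiv])
    (by rw [Matrix.submatrix_mul_equiv, Matrix.mul_one, Matrix.submatrix_one_equiv]) hX
  have e1 : ∀ Y : Matrix κ κ 𝕜, (1 : Matrix κ κ 𝕜).submatrix e (Equiv.refl κ) * Y *
      (1 : Matrix κ κ 𝕜).submatrix (Equiv.refl κ) e = Y.submatrix e e := by
    intro Y
    have h1 : Y = Y.submatrix (Equiv.refl κ) (Equiv.refl κ) := rfl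
    conv_lhs => rw [h1]
    rw [Matrix.submatrix_mul_equiv, Matrix.submatrix_mul_equiv, Matrix.one_mul, Matrix.mul_one]
  simpa only [e1] using h

/-- restriction to other index sets, as a continuous linear map -/
noncomputable def reL (r : ℕ) (e : ι ≃ κ) :
    (Fin r → κ → κ → 𝕜) →L[𝕜] (Fin r → ι → ι → 𝕜) :=
  ContinuousLinearMap.pi fun i => ContinuousLinearMap.pi fun p => ContinuousLinearMap.pi fun q =>
    pe i (e p) (e q)

theorem copies_submatrix (m : ℕ) (e : ι ≃ σ) (W : Fin r → Matrix σ σ 𝕜) :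
    copies m (fun i => (W i).submatrix e e) = fun i => (copies m W i).submatrix
      (Equiv.prodCongr (Equiv.refl (Fin m)) e) (Equiv.prodCongr (Equiv.refl (Fin m)) e) := by
  funext i
  ext ⟨p, s⟩ ⟨q, t⟩
  simp [copies]

theorem NCFun.gives_reindex (Φ : NCFun 𝕜 r) {k : WithTop ℕ∞} {a b L m : ℕ} (e : ι ≃ σ)
    {W : Fin r → Matrix σ σ 𝕜} (hW : W ∈ Φ.dom σ)
    (h : Gives k a b L (Φ.entries (Fin (m + 1) × ι))
      (copies (m + 1) fun i => (W i).submatrix e e)) :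
    Gives k a b L (Φ.entries (Fin (m + 1) × σ)) (copies (m + 1) W) := by
  let e' := Equiv.prodCongr (Equiv.refl (Fin (m + 1))) e
  have h0 : (fun X : Fin r → (Fin (m + 1) × σ) → (Fin (m + 1) × σ) → 𝕜 => reL r e' X)
      (copies (m + 1) W) = copies (m + 1) (fun i => (W i).submatrix e e) := by
    rw [copies_submatrix]
    rfl
  have h1 := Gives.comp (ψ := fun X : Fin r → (Fin (m + 1) × σ) → (Fin (m + 1) × σ) → 𝕜 =>
    reL r e' X) (reL r e') 0 (fun y => (add_zero _).symm)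
    (x := (copies (m + 1) W : Fin r → (Fin (m + 1) × σ) → (Fin (m + 1) × σ) → 𝕜)) (h0.symm ▸ h)
  have h2 : ∀ᶠ Y : Fin r → (Fin (m + 1) × σ) → (Fin (m + 1) × σ) → 𝕜 in 𝓝 (copies (m + 1) W),
      Y ∈ Φ.dom (Fin (m + 1) × σ) := (Φ.isOpen_dom _).mem_nhds (Φ.copies_mem hW m)
  refine h1.congr (fun o => (e'.symm o.1, e'.symm o.2)) ?_
  filter_upwards [h2] with Y hY
  intro o
  have h3 := congrFun (congrFun (Φ.reindex_val e' hY) (e'.symm o.1)) (e'.symm o.2)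
  rw [Matrix.submatrix_apply, Equiv.apply_symm_apply, Equiv.apply_symm_apply] at h3
  exact h3.symm

theorem NCInv.gives_reindex (φ : NCInv 𝕜 r) {k : WithTop ℕ∞} {a b L m : ℕ} (e : ι ≃ σ)
    {W : Fin r → Matrix σ σ 𝕜} (hW : W ∈ φ.dom σ)
    (h : Gives k a b L (φ.one (Fin (m + 1) × ι))
      (copies (m + 1) fun i => (W i).submatrix e e)) :
    Gives k a b L (φ.one (Fin (m + 1) × σ)) (copies (m + 1) W) := by
  let e' := Equiv.prodCongr (Equiv.refl (Fin (m + 1))) e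
  have h0 : (fun X : Fin r → (Fin (m + 1) × σ) → (Fin (m + 1) × σ) → 𝕜 => reL r e' X)
      (copies (m + 1) W) = copies (m + 1) (fun i => (W i).submatrix e e) := by
    rw [copies_submatrix]
    rfl
  have h1 := Gives.comp (ψ := fun X : Fin r → (Fin (m + 1) × σ) → (Fin (m + 1) × σ) → 𝕜 =>
    reL r e' X) (reL r e') 0 (fun y => (add_zero _).symm)
    (x := (copies (m + 1) W : Fin r → (Fin (m + 1) × σ) → (Fin (m + 1) × σ) → 𝕜)) (h0.symm ▸ h)
  have h2 : ∀ᶠ Y : Fin r → (Fin (m + 1) × σ) → (Fin (m + 1) × σ) → 𝕜 in 𝓝 (copies (m + 1) W),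
      Y ∈ φ.dom (Fin (m + 1) × σ) := (φ.isOpen_dom _).mem_nhds (φ.zeroFun.copies_mem hW m)
  refine h1.congr id ?_
  filter_upwards [h2] with Y hY
  intro o
  exact (φ.reindex_val e' hY).symm

theorem NCFun.main (Φ : NCFun 𝕜 r) :
    (Φ.Affine ∧ ∀ (k : WithTop ℕ∞) (a b : ℕ) (ι : Type) [Fintype ι] [DecidableEq ι],
      ∀ X ∈ Φ.dom ι, Gives k a b 0 (Φ.entries ι) X) ∨
    ∃ (s : ℕ) (W : Fin r → Matrix (Fin s) (Fin s) 𝕜), W ∈ Φ.dom (Fin s) ∧
      ∀ m a b L : ℕ, Gives 2 a b L (Φ.entries (Fin m × Fin s)) (copies m W) →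
        trank 𝕜 m m m ≤ a * min a b * L := by
  rcases Φ.dichotomy with h | ⟨σ, _, _, W, hW, h⟩
  · exact Or.inl ⟨h, fun k a b ι _ _ X hX => NCFun.gives_of_affine h k a b ι hX⟩
  · let e : Fin (Fintype.card σ) ≃ σ := (Fintype.equivFin σ).symm
    refine Or.inr ⟨Fintype.card σ, fun i => (W i).submatrix e e, Φ.reindex_mem e hW,
      fun m a b L hG => ?_⟩
    rcases m with _ | m
    · rw [trank_zero]; exact Nat.zero_le _
    · exact h _ a b L (Φ.gives_reindex e hW hG)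

end easy

section rc

variable {𝕜 : Type} [RCLike 𝕜] {r : ℕ}

theorem NCInv.gives_of_quadratic {φ : NCInv 𝕜 r} (h : φ.Quadratic) (k : WithTop ℕ∞)
    (ι : Type) [Fintype ι] [DecidableEq ι] {X : Fin r → Matrix ι ι 𝕜} (hX : X ∈ φ.dom ι) :
    Gives k 2 1 (r * Fintype.card ι ^ 2) (φ.one ι) X := by
  obtain ⟨α, β, h⟩ := h
  obtain ⟨c, hc⟩ := h ι X hX
  have h1 := gives_sum_mul (𝕜 := 𝕜) (E := Fin r → ι → ι → 𝕜) (T := Fin r × ι × ι)
    (fun t => pe t.1 t.2.1 t.2.2) (fun t => ∑ j, β t.1 j • pe j t.2.2 t.2.1)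
    (∑ i, α i • ∑ p, pe i p p) c k X
  rw [Fintype.card_prod, Fintype.card_prod, Fintype.card_fin, ← sq] at h1
  refine h1.congr id ?_
  have hc' : ∀ᶠ Y : Fin r → ι → ι → 𝕜 in 𝓝 X, φ.val ι Y =
      c + ∑ i, α i * (Matrix.of (Y i)).trace +
        ∑ i, ∑ j, β i j * (Matrix.of (Y i) * Matrix.of (Y j)).trace := hc
  filter_upwards [hc'] with Y hY
  intro o
  change φ.val ι Y = _
  rw [hY]
  have e1 : ∑ t : Fin r × ι × ι, (pe t.1 t.2.1 t.2.2 : (Fin r → ι → ι → 𝕜) →L[𝕜] 𝕜) Y *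
      (∑ j, β t.1 j • (pe j t.2.2 t.2.1 : (Fin r → ι → ι → 𝕜) →L[𝕜] 𝕜)) Y =
      ∑ i, ∑ j, β i j * (Matrix.of (Y i) * Matrix.of (Y j)).trace := by
    rw [Fintype.sum_prod_type]
    refine Finset.sum_congr rfl fun i _ => ?_
    simp only [_root_.sum_apply, _root_.smul_apply, pe_apply, smul_eq_mul, Matrix.trace,
      Matrix.diag, Matrix.mul_apply, Matrix.of_apply, Finset.mul_sum]
    rw [Fintype.sum_prod_type]
    simp only
    have e2 : ∀ p, ∑ q, ∑ j, Y i p q * (β i j * Y j q p) =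
        ∑ j, ∑ q, β i j * (Y i p q * Y j q p) := by
      intro p
      rw [Finset.sum_comm]
      exact Finset.sum_congr rfl fun j _ => Finset.sum_congr rfl fun q _ => by ring
    simp only [e2]
    rw [Finset.sum_comm]
  have e3 : (∑ i, α i • ∑ p, (pe i p p : (Fin r → ι → ι → 𝕜) →L[𝕜] 𝕜)) Y =
      ∑ i, α i * (Matrix.of (Y i)).trace := by
    simp only [_root_.sum_apply, _root_.smul_apply, pe_apply, smul_eq_mul, Matrix.trace,
      Matrix.diag, Matrix.of_apply]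
  rw [e1, e3]
  ring

theorem NCInv.main (φ : NCInv 𝕜 r) :
    (φ.Quadratic ∧ ∀ (k : WithTop ℕ∞) (ι : Type) [Fintype ι] [DecidableEq ι],
      ∀ X ∈ φ.dom ι, Gives k 2 1 (r * Fintype.card ι ^ 2) (φ.one ι) X) ∨
    ∃ (s : ℕ) (W : Fin r → Matrix (Fin s) (Fin s) 𝕜), W ∈ φ.dom (Fin s) ∧
      ∀ m a b L : ℕ, Gives 3 a b L (φ.one (Fin m × Fin s)) (copies m W) →
        trank 𝕜 m m m ≤ 3 * a ^ 2 * L := by
  rcases φ.dichotomy with h | ⟨σ, _, _, W, hW, h⟩
  · exact Or.inl ⟨h, fun k ι _ _ X hX => NCInv.gives_of_quadratic h k ι hX⟩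
  · let e : Fin (Fintype.card σ) ≃ σ := (Fintype.equivFin σ).symm
    refine Or.inr ⟨Fintype.card σ, fun i => (W i).submatrix e e, φ.zeroFun.reindex_mem e hW,
      fun m a b L hG => ?_⟩
    rcases m with _ | m
    · rw [trank_zero]; exact Nat.zero_le _
    · exact h _ a b L (φ.gives_reindex e hW hG)

end rc

end Pool.Agent.Helper51K9.NC
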