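import Pool.Agent.Helper51K9.NC.Cubic

/-!
# The gradient of an additive invariant
-/

set_option autoImplicit false
set_option linter.unusedSectionVars false

namespace Pool.Agent.Helper51K9.NC

open Matrix Topology Filter Pool.Agent.Y538.Net Pool.Agent.W956.KF

variable {𝕜 : Type} [NontriviallyNormedField 𝕜] {r : ℕ}

section units

variable {ι κ : Type} [Fintype ι] [DecidableEq ι] [Fintype κ] [DecidableEq κ]

/-- the tuple with a single entry -/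
def eu (j : Fin r) (p q : ι) : Fin r → ι → ι → 𝕜 :=
  fun i s t => if i = j ∧ s = p ∧ t = q then 1 else 0

/-- entry functional -/
noncomputable def pe (i : Fin r) (u v : ι) : (Fin r → ι → ι → 𝕜) →L[𝕜] 𝕜 :=
  (ContinuousLinearMap.proj v : (ι → 𝕜) →L[𝕜] 𝕜).comp
    ((ContinuousLinearMap.proj u : (ι → ι → 𝕜) →L[𝕜] (ι → 𝕜)).comp
      (ContinuousLinearMap.proj i : (Fin r → ι → ι → 𝕜) →L[𝕜] (ι → ι → 𝕜)))

@[simp] theorem pe_apply (i : Fin r) (u v : ι) (X : Fin r → ι → ι → 𝕜) : pe i u v X = X i u v := rfl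

theorem eu_expand (V : Fin r → ι → ι → 𝕜) : V = ∑ j, ∑ p, ∑ q, V j p q • eu j p q := by
  funext i s t
  simp only [Finset.sum_apply, Pi.smul_apply, smul_eq_mul, eu, mul_ite, mul_one, mul_zero]
  rw [Finset.sum_eq_single i, Finset.sum_eq_single s, Finset.sum_eq_single t]
  · simp
  · intro q _ hq; simp [hq.symm]
  · simp
  · intro p _ hp; simp [hp.symm]
  · simp
  · intro j _ hj; simp [hj.symm]
  · simp

theorem lin_expand (f : (Fin r → ι → ι → 𝕜) →L[𝕜] 𝕜) (V : Fin r → ι → ι → 𝕜) :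
    f V = ∑ j, ∑ p, ∑ q, V j p q * f (eu j p q) := by
  conv_lhs => rw [eu_expand V]
  simp only [map_sum, map_smul, smul_eq_mul]

/-- `X ↦ S X T` -/
noncomputable def cj (S : Matrix ι κ 𝕜) (T : Matrix κ ι 𝕜) :
    (Fin r → κ → κ → 𝕜) →L[𝕜] (Fin r → ι → ι → 𝕜) :=
  ContinuousLinearMap.pi fun i => ContinuousLinearMap.pi fun p => ContinuousLinearMap.pi fun q =>
    ∑ u, ∑ v, (S p u * T v q) • pe i u v

theorem cj_apply (S : Matrix ι κ 𝕜) (T : Matrix κ ι 𝕜) (X : Fin r → κ → κ → 𝕜) (i : Fin r)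
    (p q : ι) : cj S T X i p q = ∑ u, ∑ v, (S p u * T v q) * X i u v := by
  simp only [cj, ContinuousLinearMap.coe_pi', _root_.sum_apply, _root_.smul_apply, pe_apply,
    smul_eq_mul]

theorem cj_eq (S : Matrix ι κ 𝕜) (T : Matrix κ ι 𝕜) (X : Fin r → Matrix κ κ 𝕜) :
    (cj S T X : Fin r → ι → ι → 𝕜) = fun i => S * X i * T := by
  funext i p q
  refine (cj_apply S T X i p q).trans ?_
  rw [Matrix.mul_apply, Finset.sum_comm]
  refine Finset.sum_congr rfl fun v _ => ?_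
  rw [Matrix.mul_apply, Finset.sum_mul]
  refine Finset.sum_congr rfl fun u _ => ?_
  ring

theorem cj_eu (S : Matrix ι κ 𝕜) (T : Matrix κ ι 𝕜) (j : Fin r) (u v : κ) (i : Fin r) (p q : ι) :
    cj S T (eu j u v) i p q = if i = j then S p u * T v q else 0 := by
  rw [cj_apply, Finset.sum_eq_single u, Finset.sum_eq_single v]
  · simp [eu]
  · intro w _ hw; simp [eu, hw]
  · simp
  · intro w _ hw; simp [eu, hw]
  · simp

/-- `V ↦ V ⊕ 0` -/
noncomputable def inlM (ι κ : Type) [Fintype ι] [DecidableEq ι] [Fintype κ] [DecidableEq κ] :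
    (Fin r → ι → ι → 𝕜) →L[𝕜] (Fin r → (ι ⊕ κ) → (ι ⊕ κ) → 𝕜) :=
  cj (fromRows 1 0 : Matrix (ι ⊕ κ) ι 𝕜) (fromCols 1 0)

/-- `V ↦ 0 ⊕ V` -/
noncomputable def inrM (ι κ : Type) [Fintype ι] [DecidableEq ι] [Fintype κ] [DecidableEq κ] :
    (Fin r → κ → κ → 𝕜) →L[𝕜] (Fin r → (ι ⊕ κ) → (ι ⊕ κ) → 𝕜) :=
  cj (fromRows 0 1 : Matrix (ι ⊕ κ) κ 𝕜) (fromCols 0 1)

theorem inlM_eu (j : Fin r) (u v : ι) :
    inlM ι κ (eu j u v : Fin r → ι → ι → 𝕜) = eu j (Sum.inl u) (Sum.inl v) := by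
  funext i p q
  unfold inlM
  rw [cj_eu]
  rcases p with p | p <;> rcases q with q | q
  · by_cases h : i = j
    · by_cases h1 : p = u
      · by_cases h2 : v = q
        · simp [h, eu, h1, h2]
        · have h3 : ¬ q = v := fun e => h2 e.symm
          simp [eu, Matrix.one_apply, h2, h3]
      · simp [eu, Matrix.one_apply, h1]
    · simp [h, eu]
  · simp [eu]
  · simp [eu]
  · simp [eu]

theorem inrM_eu (j : Fin r) (u v : κ) :
    inrM ι κ (eu j u v : Fin r → κ → κ → 𝕜) = eu j (Sum.inr u) (Sum.inr v) := by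
  funext i p q
  unfold inrM
  rw [cj_eu]
  rcases p with p | p <;> rcases q with q | q
  · simp [eu]
  · simp [eu]
  · simp [eu]
  · by_cases h : i = j
    · by_cases h1 : p = u
      · by_cases h2 : v = q
        · simp [h, eu, h1, h2]
        · have h3 : ¬ q = v := fun e => h2 e.symm
          simp [eu, Matrix.one_apply, h2, h3]
      · simp [eu, Matrix.one_apply, h1]
    · simp [h, eu]

theorem sum_eq (X : Fin r → Matrix ι ι 𝕜) (Y : Fin r → Matrix κ κ 𝕜) :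
    (fun i => fromBlocks (X i) 0 0 (Y i)) =
      ((inlM ι κ X : Fin r → (ι ⊕ κ) → (ι ⊕ κ) → 𝕜) + inrM ι κ Y) := by
  funext i p q
  have e1 := cj_apply (fromRows 1 0 : Matrix (ι ⊕ κ) ι 𝕜) (fromCols 1 0) X i p q
  have e2 := cj_apply (fromRows 0 1 : Matrix (ι ⊕ κ) κ 𝕜) (fromCols 0 1) Y i p q
  change fromBlocks (X i) 0 0 (Y i) p q =
    cj (fromRows 1 0 : Matrix (ι ⊕ κ) ι 𝕜) (fromCols 1 0) X i p q +
      cj (fromRows 0 1 : Matrix (ι ⊕ κ) κ 𝕜) (fromCols 0 1) Y i p q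
  refine Eq.trans ?_ (congrArg₂ (· + ·) e1 e2).symm
  rcases p with p | p <;> rcases q with q | q <;> simp [Matrix.one_apply]

end units

section grad

variable (φ : NCInv 𝕜 r)
variable {ι κ ν : Type} [Fintype ι] [DecidableEq ι] [Fintype κ] [DecidableEq κ]
  [Fintype ν] [DecidableEq ν]

/-- the function on tuples of arrays -/
def NCInv.fn (ι : Type) [Fintype ι] [DecidableEq ι] (X : Fin r → ι → ι → 𝕜) : 𝕜 := φ.val ι X

/-- the derivative -/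
noncomputable def NCInv.d (X : Fin r → ι → ι → 𝕜) : (Fin r → ι → ι → 𝕜) →L[𝕜] 𝕜 :=
  fderiv 𝕜 (φ.fn ι) X

/-- the gradient with respect to the `j`-th matrix -/
noncomputable def NCInv.gr (j : Fin r) (X : Fin r → Matrix ι ι 𝕜) : Matrix ι ι 𝕜 :=
  Matrix.of fun p q => φ.d X (eu j q p)

theorem NCInv.fn_diff {X : Fin r → ι → ι → 𝕜} (hX : X ∈ φ.dom ι) :
    DifferentiableAt 𝕜 (φ.fn ι) X := φ.differentiable ι X hX

theorem NCInv.ev_dom {X : Fin r → ι → ι → 𝕜} (hX : X ∈ φ.dom ι) :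
    ∀ᶠ Y : Fin r → ι → ι → 𝕜 in 𝓝 X, Y ∈ φ.dom ι := (φ.isOpen_dom ι).mem_nhds hX

theorem NCInv.d_apply (X : Fin r → ι → ι → 𝕜) (V : Fin r → ι → ι → 𝕜) :
    φ.d X V = ∑ j, ∑ p, ∑ q, φ.gr j X p q * V j q p := by
  rw [lin_expand (φ.d X) V]
  refine Finset.sum_congr rfl fun j _ => ?_
  rw [Finset.sum_comm]
  refine Finset.sum_congr rfl fun p _ => Finset.sum_congr rfl fun q _ => ?_
  change V j q p * φ.d X (eu j q p) = φ.d X (eu j q p) * V j q p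
  rw [mul_comm]

theorem NCInv.d_cj (S : Matrix ι κ 𝕜) (T : Matrix κ ι 𝕜) (hST : S * T = 1) (hTS : T * S = 1)
    {X : Fin r → κ → κ → 𝕜} (hX : X ∈ φ.dom κ) (V : Fin r → κ → κ → 𝕜) :
    φ.d X V = φ.d (cj S T X) (cj S T V) := by
  have h0 : (cj S T X : Fin r → ι → ι → 𝕜) ∈ φ.dom ι := by
    have := φ.sim_dom ι κ S T X hST hTS hX
    rwa [← cj_eq S T X] at this
  have h2 := (fderiv_comp_lin (f := φ.fn ι) (cj S T) (φ.fn_diff h0) V).2
  have h3 : (fun Z : Fin r → κ → κ → 𝕜 => φ.fn ι (cj S T Z)) =ᶠ[𝓝 X] φ.fn κ := by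
    filter_upwards [φ.ev_dom hX] with Z hZ
    have := φ.sim_val ι κ S T Z hST hTS hZ
    rwa [← cj_eq S T Z] at this
  rw [h3.fderiv_eq] at h2
  exact h2

theorem NCInv.gr_sim (S : Matrix ι κ 𝕜) (T : Matrix κ ι 𝕜) (hST : S * T = 1) (hTS : T * S = 1)
    {X : Fin r → Matrix κ κ 𝕜} (hX : X ∈ φ.dom κ) (j : Fin r) :
    φ.gr j (fun i => S * X i * T) = S * φ.gr j X * T := by
  have h1 : φ.gr j X = T * φ.gr j (fun i => S * X i * T) * S := by
    ext p q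
    have e := cj_eq S T X
    rw [NCInv.gr, Matrix.of_apply, φ.d_cj S T hST hTS hX, NCInv.d_apply, e,
      Finset.sum_eq_single j]
    · rw [Matrix.mul_apply, Finset.sum_comm]
      refine Finset.sum_congr rfl fun v _ => ?_
      rw [Matrix.mul_apply, Finset.sum_mul]
      refine Finset.sum_congr rfl fun u _ => ?_
      rw [cj_eu, if_pos rfl]
      ring
    · intro i _ hi
      refine Finset.sum_eq_zero fun p _ => Finset.sum_eq_zero fun q _ => ?_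
      rw [cj_eu, if_neg hi, mul_zero]
    · simp
  rw [h1]
  calc φ.gr j (fun i => S * X i * T)
      = (S * T) * φ.gr j (fun i => S * X i * T) * (S * T) := by rw [hST]; simp
    _ = S * (T * φ.gr j (fun i => S * X i * T) * S) * T := by simp only [Matrix.mul_assoc]

theorem NCInv.gr_inl {X : Fin r → ι → ι → 𝕜} {Y : Fin r → κ → κ → 𝕜} (hX : X ∈ φ.dom ι)
    (hY : Y ∈ φ.dom κ) (j : Fin r) (p q : ι) :
    φ.gr j (fun i => fromBlocks (X i) 0 0 (Y i)) (Sum.inl p) (Sum.inl q) = φ.gr j X p q := by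
  have e0 : ∀ Z : Fin r → ι → ι → 𝕜, (fun i => fromBlocks (Z i) 0 0 (Y i)) =
      ((inlM ι κ Z : Fin r → (ι ⊕ κ) → (ι ⊕ κ) → 𝕜) + inrM ι κ Y) := fun Z => sum_eq Z Y
  have hm : ((inlM ι κ X : Fin r → (ι ⊕ κ) → (ι ⊕ κ) → 𝕜) + inrM ι κ Y) ∈ φ.dom (ι ⊕ κ) := by
    rw [← e0]
    exact φ.sum_dom ι κ X Y hX hY
  have h1 : HasFDerivAt (fun Z : Fin r → ι → ι → 𝕜 =>
      (inlM ι κ Z : Fin r → (ι ⊕ κ) → (ι ⊕ κ) → 𝕜) + inrM ι κ Y) (inlM ι κ) X :=
    ((inlM ι κ).hasFDerivAt (x := X)).add_const (inrM ι κ Y)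
  have h2 := (φ.fn_diff hm).hasFDerivAt.comp X h1
  have h3 : (fun Z : Fin r → ι → ι → 𝕜 => φ.fn (ι ⊕ κ)
      ((inlM ι κ Z : Fin r → (ι ⊕ κ) → (ι ⊕ κ) → 𝕜) + inrM ι κ Y)) =ᶠ[𝓝 X]
      fun Z : Fin r → ι → ι → 𝕜 => φ.fn ι Z + φ.fn κ Y := by
    filter_upwards [φ.ev_dom hX] with Z hZ
    rw [← e0]
    exact φ.sum_val ι κ Z Y hZ hY
  have h4 : fderiv 𝕜 (fun Z : Fin r → ι → ι → 𝕜 => φ.fn ι Z + φ.fn κ Y) X =
      (fderiv 𝕜 (φ.fn (ι ⊕ κ))
        ((inlM ι κ X : Fin r → (ι ⊕ κ) → (ι ⊕ κ) → 𝕜) + inrM ι κ Y)).comp (inlM ι κ) := by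
    rw [← h3.fderiv_eq]
    exact h2.fderiv
  rw [fderiv_add_const] at h4
  have h5 := congrArg (fun f => f (eu j q p)) h4
  simp only [ContinuousLinearMap.comp_apply, inlM_eu] at h5
  simp only [NCInv.gr, Matrix.of_apply, NCInv.d]
  rw [h5, e0]

theorem NCInv.gr_inr {X : Fin r → ι → ι → 𝕜} {Y : Fin r → κ → κ → 𝕜} (hX : X ∈ φ.dom ι)
    (hY : Y ∈ φ.dom κ) (j : Fin r) (p q : κ) :
    φ.gr j (fun i => fromBlocks (X i) 0 0 (Y i)) (Sum.inr p) (Sum.inr q) = φ.gr j Y p q := by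
  have e0 : ∀ Z : Fin r → κ → κ → 𝕜, (fun i => fromBlocks (X i) 0 0 (Z i)) =
      ((inlM ι κ X : Fin r → (ι ⊕ κ) → (ι ⊕ κ) → 𝕜) + inrM ι κ Z) := fun Z => sum_eq X Z
  have hm : ((inlM ι κ X : Fin r → (ι ⊕ κ) → (ι ⊕ κ) → 𝕜) + inrM ι κ Y) ∈ φ.dom (ι ⊕ κ) := by
    rw [← e0]
    exact φ.sum_dom ι κ X Y hX hY
  have h1 : HasFDerivAt (fun Z : Fin r → κ → κ → 𝕜 =>
      (inlM ι κ X : Fin r → (ι ⊕ κ) → (ι ⊕ κ) → 𝕜) + inrM ι κ Z) (inrM ι κ) Y :=
    ((inrM ι κ).hasFDerivAt (x := Y)).const_add (inlM ι κ X)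
  have h2 := (φ.fn_diff hm).hasFDerivAt.comp Y h1
  have h3 : (fun Z : Fin r → κ → κ → 𝕜 => φ.fn (ι ⊕ κ)
      ((inlM ι κ X : Fin r → (ι ⊕ κ) → (ι ⊕ κ) → 𝕜) + inrM ι κ Z)) =ᶠ[𝓝 Y]
      fun Z : Fin r → κ → κ → 𝕜 => φ.fn ι X + φ.fn κ Z := by
    filter_upwards [φ.ev_dom hY] with Z hZ
    rw [← e0]
    exact φ.sum_val ι κ X Z hX hZ
  have h4 : fderiv 𝕜 (fun Z : Fin r → κ → κ → 𝕜 => φ.fn ι X + φ.fn κ Z) Y =
      (fderiv 𝕜 (φ.fn (ι ⊕ κ))
        ((inlM ι κ X : Fin r → (ι ⊕ κ) → (ι ⊕ κ) → 𝕜) + inrM ι κ Y)).comp (inrM ι κ) := by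
    rw [← h3.fderiv_eq]
    exact h2.fderiv
  rw [fderiv_const_add] at h4
  have h5 := congrArg (fun f => f (eu j q p)) h4
  simp only [ContinuousLinearMap.comp_apply, inrM_eu] at h5
  simp only [NCInv.gr, Matrix.of_apply, NCInv.d]
  rw [h5, e0]

theorem NCInv.gr_sum {X : Fin r → Matrix ι ι 𝕜} {Y : Fin r → Matrix κ κ 𝕜} (hX : X ∈ φ.dom ι)
    (hY : Y ∈ φ.dom κ) (j : Fin r) :
    φ.gr j (fun i => fromBlocks (X i) 0 0 (Y i)) = fromBlocks (φ.gr j X) 0 0 (φ.gr j Y) := by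
  have : Infinite 𝕜 := NontriviallyNormedField.infinite 𝕜
  classical
  obtain ⟨c, hc⟩ := Infinite.exists_notMem_finset ({0, 1} : Finset 𝕜)
  simp only [Finset.mem_insert, Finset.mem_singleton, not_or] at hc
  obtain ⟨hc0, hc1⟩ := hc
  have h1 := φ.gr_sim (fromBlocks (c • 1) 0 0 1 : Matrix (ι ⊕ κ) (ι ⊕ κ) 𝕜)
    (fromBlocks (c⁻¹ • 1) 0 0 1)
    (by simp [fromBlocks_multiply, ← fromBlocks_one, smul_smul, hc0])
    (by simp [fromBlocks_multiply, ← fromBlocks_one, smul_smul, hc0])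
    (φ.sum_dom ι κ X Y hX hY) j
  have h2 : (fun i => (fromBlocks (c • 1) 0 0 1 : Matrix (ι ⊕ κ) (ι ⊕ κ) 𝕜) *
      fromBlocks (X i) 0 0 (Y i) * fromBlocks (c⁻¹ • 1) 0 0 1) =
      fun i => fromBlocks (X i) 0 0 (Y i) := by
    funext i
    simp [fromBlocks_multiply, smul_smul, hc0]
  rw [h2] at h1
  set G := φ.gr j (fun i => fromBlocks (X i) 0 0 (Y i)) with hG
  have h3 : G = fromBlocks G.toBlocks₁₁ (c • G.toBlocks₁₂) (c⁻¹ • G.toBlocks₂₁) G.toBlocks₂₂ := by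
    conv_lhs => rw [h1, ← fromBlocks_toBlocks G]
    simp [fromBlocks_multiply, smul_smul, hc0]
  ext (p | p) (q | q)
  · rw [fromBlocks_apply₁₁]
    exact φ.gr_inl hX hY j p q
  · rw [fromBlocks_apply₁₂, Matrix.zero_apply]
    have h4 := congrFun (congrFun h3 (Sum.inl p)) (Sum.inr q)
    rw [fromBlocks_apply₁₂, Matrix.smul_apply, smul_eq_mul] at h4
    have h5 : (1 - c) * G (Sum.inl p) (Sum.inr q) = 0 := by
      have h6 : G.toBlocks₁₂ p q = G (Sum.inl p) (Sum.inr q) := rfl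
      rw [h6] at h4
      linear_combination h4
    rcases mul_eq_zero.mp h5 with h6 | h6
    · exact absurd (sub_eq_zero.mp h6).symm hc1
    · exact h6
  · rw [fromBlocks_apply₂₁, Matrix.zero_apply]
    have h4 := congrFun (congrFun h3 (Sum.inr p)) (Sum.inl q)
    rw [fromBlocks_apply₂₁, Matrix.smul_apply, smul_eq_mul] at h4
    have h5 : (1 - c⁻¹) * G (Sum.inr p) (Sum.inl q) = 0 := by
      have h6 : G.toBlocks₂₁ p q = G (Sum.inr p) (Sum.inl q) := rfl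
      rw [h6] at h4
      linear_combination h4
    rcases mul_eq_zero.mp h5 with h6 | h6
    · exact absurd (inv_eq_one.mp (sub_eq_zero.mp h6).symm) hc1
    · exact h6
  · rw [fromBlocks_apply₂₂]
    exact φ.gr_inr hX hY j p q

/-- the gradient as a noncommutative function -/
noncomputable def NCInv.grad (j : Fin r) : NCFun 𝕜 r where
  dom := φ.dom
  val := fun _ _ _ X => φ.gr j X
  isOpen_dom := φ.isOpen_dom
  sum_dom := φ.sum_dom
  sum_val := fun _ _ _ _ _ _ _ _ hX hY => φ.gr_sum hX hY j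
  sim_dom := φ.sim_dom
  sim_val := fun _ _ _ _ _ _ S T _ hST hTS hX => φ.gr_sim S T hST hTS hX j

end grad

end Pool.Agent.Helper51K9.NC
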