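import Pool.Agent.Helper51K9.NC.Defs

/-!
# Third derivatives of the functions computed by a network
-/

set_option autoImplicit false
set_option linter.unusedSectionVars false

namespace Pool.Agent.Helper51K9.NC

open Topology Filter Pool.Agent.Y538.Net

variable {𝕜 : Type} [NontriviallyNormedField 𝕜] {E : Type} [NormedAddCommGroup E]
  [NormedSpace 𝕜 E]

/-- Third derivative. -/
noncomputable def H3 (f : E → 𝕜) (x : E) : E →L[𝕜] E →L[𝕜] E →L[𝕜] 𝕜 := fderiv 𝕜 (H2 f) x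

lemma cd2 {F : Type} [NormedAddCommGroup F] [NormedSpace 𝕜 F] {f : E → F} {x : E}
    (h : ContDiffAt 𝕜 3 f x) : ContDiffAt 𝕜 2 f x := h.of_le (by norm_num)

lemma cdf {F : Type} [NormedAddCommGroup F] [NormedSpace 𝕜 F] {f : E → F} {x : E}
    (h : ContDiffAt 𝕜 3 f x) : ContDiffAt 𝕜 2 (fderiv 𝕜 f) x := h.fderiv_right (by norm_num)

lemma ev3 {F : Type} [NormedAddCommGroup F] [NormedSpace 𝕜 F] {f : E → F} {x : E}
    (h : ContDiffAt 𝕜 3 f x) : ∀ᶠ y in 𝓝 x, ContDiffAt 𝕜 3 f y :=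
  h.eventually (by norm_num)

lemma diffH2 {f : E → 𝕜} {x : E} (h : ContDiffAt 𝕜 3 f x) : DifferentiableAt 𝕜 (H2 f) x :=
  diff2 (cdf h)

lemma H3_apply {f : E → 𝕜} {x : E} (h : ContDiffAt 𝕜 3 f x) (h1 h2 h3 : E) :
    H3 f x h1 h2 h3 = fderiv 𝕜 (fun y => H2 f y h2 h3) x h1 := by
  have h4 := (diffH2 h).hasFDerivAt
  have h5 : HasFDerivAt (fun y => H2 f y h2 h3) _ x :=
    (h4.clm_apply (hasFDerivAt_const h2 x)).clm_apply (hasFDerivAt_const h3 x)
  rw [h5.fderiv]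
  simp [H3]

lemma dH2 {f : E → 𝕜} {x : E} (h : ContDiffAt 𝕜 3 f x) (h2 h3 : E) :
    DifferentiableAt 𝕜 (fun y => H2 f y h2 h3) x :=
  ((diffH2 h).clm_apply (differentiableAt_const h2)).clm_apply (differentiableAt_const h3)

lemma H3_add {f g : E → 𝕜} {x : E} (hf : ContDiffAt 𝕜 3 f x) (hg : ContDiffAt 𝕜 3 g x)
    (h1 h2 h3 : E) : H3 (f + g) x h1 h2 h3 = H3 f x h1 h2 h3 + H3 g x h1 h2 h3 := by
  rw [H3_apply (show ContDiffAt 𝕜 3 (f + g) x from hf.add hg), H3_apply hf, H3_apply hg]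
  have e : (fun y => H2 (f + g) y h2 h3) =ᶠ[𝓝 x] fun y => H2 f y h2 h3 + H2 g y h2 h3 := by
    filter_upwards [ev3 hf, ev3 hg] with y g1 g2
    rw [H2_add (cd2 g1) (cd2 g2)]; rfl
  rw [e.fderiv_eq, fderiv_fun_add (dH2 hf h2 h3) (dH2 hg h2 h3)]
  rfl

lemma H3_smul {f : E → 𝕜} {x : E} (c : 𝕜) (hf : ContDiffAt 𝕜 3 f x) (h1 h2 h3 : E) :
    H3 (c • f) x h1 h2 h3 = c * H3 f x h1 h2 h3 := by
  rw [H3_apply (show ContDiffAt 𝕜 3 (c • f) x from hf.const_smul c), H3_apply hf]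
  have e : (fun y => H2 (c • f) y h2 h3) =ᶠ[𝓝 x] fun y => c * H2 f y h2 h3 := by
    filter_upwards [ev3 hf] with y g1
    rw [H2_smul c (cd2 g1)]; rfl
  rw [e.fderiv_eq, fderiv_const_mul (dH2 hf h2 h3)]
  rfl

lemma H3_affine (ℓ : E →L[𝕜] 𝕜) (c : 𝕜) (x : E) : H3 (fun x => ℓ x + c) x = 0 := by
  unfold H3
  have h1 : H2 (fun x => ℓ x + c) = fun _ => 0 := by
    funext y
    exact H2_affine ℓ c y
  rw [h1, fderiv_const_apply]

lemma H3_congr {f g : E → 𝕜} {x : E} (h : f =ᶠ[𝓝 x] g) : H3 f x = H3 g x := by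
  unfold H3
  refine Filter.EventuallyEq.fderiv_eq ?_
  have := h.eventuallyEq_nhds
  filter_upwards [this] with y hy
  exact H2_congr hy

/-- partial derivative -/
noncomputable def pd {a : ℕ} (φ : (Fin a → 𝕜) → 𝕜) (i : Fin a) (y : Fin a → 𝕜) : 𝕜 :=
  fderiv 𝕜 φ y (Pi.single i 1)

lemma fderiv_comp_pi {a : ℕ} {φ : (Fin a → 𝕜) → 𝕜} {u : Fin a → E → 𝕜} {x : E}
    (hu : ∀ i, DifferentiableAt 𝕜 (u i) x) (hφ : DifferentiableAt 𝕜 φ (fun i => u i x)) (h : E) :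
    DifferentiableAt 𝕜 (fun y => φ (fun i => u i y)) x ∧
    fderiv 𝕜 (fun y => φ (fun i => u i y)) x h =
      ∑ i, pd φ i (fun i => u i x) * fderiv 𝕜 (u i) x h := by
  have g3 : HasFDerivAt (fun y => fun i => u i y)
      (ContinuousLinearMap.pi fun i => fderiv 𝕜 (u i) x) x :=
    hasFDerivAt_pi.mpr fun i => (hu i).hasFDerivAt
  have g4 := hφ.hasFDerivAt.comp x g3
  refine ⟨g4.differentiableAt, ?_⟩
  have g5 : fderiv 𝕜 (fun y => φ (fun i => u i y)) x = fderiv 𝕜 (φ ∘ fun y => fun i => u i y) x :=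
    rfl
  rw [g5, g4.fderiv, ContinuousLinearMap.comp_apply]
  have g6 : (ContinuousLinearMap.pi fun i => fderiv 𝕜 (u i) x) h =
      ∑ i, (fderiv 𝕜 (u i) x h) • (Pi.single i (1 : 𝕜) : Fin a → 𝕜) := by
    funext j
    rw [Finset.sum_apply]
    simp [Pi.single_apply]
  rw [g6, map_sum]
  refine Finset.sum_congr rfl fun i _ => ?_
  rw [map_smul, smul_eq_mul, mul_comm, pd]

lemma pd_diff {a : ℕ} {φ : (Fin a → 𝕜) → 𝕜} {y : Fin a → 𝕜} (h : ContDiffAt 𝕜 2 φ y)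
    (i : Fin a) : DifferentiableAt 𝕜 (pd φ i) y :=
  (diff2 h).clm_apply (differentiableAt_const _)

lemma pd_cd {a : ℕ} {φ : (Fin a → 𝕜) → 𝕜} {y : Fin a → 𝕜} (h : ContDiffAt 𝕜 3 φ y)
    (i : Fin a) : ContDiffAt 𝕜 2 (pd φ i) y :=
  (cdf h).clm_apply contDiffAt_const

/-- Second derivative of a composition, with explicit coefficients. -/
lemma H2_comp' {a : ℕ} {φ : (Fin a → 𝕜) → 𝕜} {u : Fin a → E → 𝕜} {x : E}
    (hu : ∀ i, ContDiffAt 𝕜 2 (u i) x) (hφ : ContDiffAt 𝕜 2 φ (fun i => u i x)) (h1 h2 : E) :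
    H2 (fun y => φ (fun i => u i y)) x h1 h2 =
      ∑ i, pd φ i (fun i => u i x) * H2 (u i) x h1 h2 +
        ∑ i, ∑ j, pd (pd φ i) j (fun i => u i x) * (fderiv 𝕜 (u j) x h1 * fderiv 𝕜 (u i) x h2) := by
  have hUc : ContDiffAt 𝕜 2 (fun y => fun i => u i y) x := contDiffAt_pi.mpr hu
  have hcomp : ContDiffAt 𝕜 2 (fun y => φ (fun i => u i y)) x := hφ.comp x hUc
  have e1 : H2 (fun y => φ (fun i => u i y)) x h1 h2 =
      fderiv 𝕜 (fun y => fderiv 𝕜 (fun y => φ (fun i => u i y)) y h2) x h1 := by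
    have h3 := (diff2 hcomp).hasFDerivAt.clm_apply (hasFDerivAt_const h2 x)
    rw [h3.fderiv]
    simp [H2]
  have hev : (fun y => fderiv 𝕜 (fun y => φ (fun i => u i y)) y h2) =ᶠ[𝓝 x]
      fun y => ∑ i, pd φ i (fun i => u i y) * fderiv 𝕜 (u i) y h2 := by
    have g1 : ∀ᶠ y in 𝓝 x, DifferentiableAt 𝕜 φ (fun i => u i y) :=
      hUc.continuousAt.eventually (ev1 hφ)
    have g2 : ∀ᶠ y in 𝓝 x, ∀ i, DifferentiableAt 𝕜 (u i) y :=
      eventually_all.mpr fun i => ev1 (hu i)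
    filter_upwards [g1, g2] with y g1 g2
    exact (fderiv_comp_pi g2 g1 h2).2
  rw [e1, hev.fderiv_eq]
  have hd : ∀ i, HasFDerivAt (fun y => pd φ i (fun i => u i y) * fderiv 𝕜 (u i) y h2)
      (pd φ i (fun i => u i x) • (fderiv 𝕜 (fun y => fderiv 𝕜 (u i) y h2) x) +
        (fderiv 𝕜 (u i) x h2) • fderiv 𝕜 (fun y => pd φ i (fun i => u i y)) x) x := by
    intro i
    have g1 : DifferentiableAt 𝕜 (fun y => pd φ i (fun i => u i y)) x :=
      (fderiv_comp_pi (fun j => diff1 (hu j)) (pd_diff hφ i) 0).1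
    have g2 : DifferentiableAt 𝕜 (fun y => fderiv 𝕜 (u i) y h2) x :=
      (diff2 (hu i)).clm_apply (differentiableAt_const _)
    exact g1.hasFDerivAt.mul g2.hasFDerivAt
  have hd2 := HasFDerivAt.fun_sum fun i (_ : i ∈ Finset.univ) => hd i
  rw [hd2.fderiv, _root_.sum_apply, ← Finset.sum_add_distrib]
  refine Finset.sum_congr rfl fun i _ => ?_
  rw [_root_.add_apply, _root_.smul_apply, _root_.smul_apply, smul_eq_mul, smul_eq_mul,
    (fderiv_comp_pi (fun j => diff1 (hu j)) (pd_diff hφ i) h1).2]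
  congr 1
  · congr 1
    have h3 := (diff2 (hu i)).hasFDerivAt.clm_apply (hasFDerivAt_const h2 x)
    rw [h3.fderiv]
    simp [H2]
  · rw [Finset.mul_sum]
    refine Finset.sum_congr rfl fun j _ => ?_
    ring

/-- Third derivative of a composition. -/
lemma H3_comp {a : ℕ} {φ : (Fin a → 𝕜) → 𝕜} {u : Fin a → E → 𝕜} {x : E}
    (hu : ∀ i, ContDiffAt 𝕜 3 (u i) x) (hφ : ContDiffAt 𝕜 3 φ (fun i => u i x)) :
    ∃ (c : Fin a → 𝕜) (β : Fin a → Fin a → 𝕜) (γ : Fin a → Fin a → Fin a → 𝕜), ∀ h1 h2 h3 : E,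
      H3 (fun y => φ (fun i => u i y)) x h1 h2 h3 = ∑ i, c i * H3 (u i) x h1 h2 h3 +
        ∑ i, ∑ j, β i j * (fderiv 𝕜 (u j) x h1 * H2 (u i) x h2 h3 +
          H2 (u j) x h1 h2 * fderiv 𝕜 (u i) x h3 + fderiv 𝕜 (u j) x h2 * H2 (u i) x h1 h3) +
        ∑ i, ∑ j, ∑ k, γ i j k * (fderiv 𝕜 (u k) x h1 * fderiv 𝕜 (u j) x h2 *
          fderiv 𝕜 (u i) x h3) := by
  have hUc : ContDiffAt 𝕜 3 (fun y => fun i => u i y) x := contDiffAt_pi.mpr hu
  have hcomp : ContDiffAt 𝕜 3 (fun y => φ (fun i => u i y)) x := hφ.comp x hUc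
  have hudiff : ∀ j, DifferentiableAt 𝕜 (u j) x := fun j => diff1 (cd2 (hu j))
  refine ⟨fun i => pd φ i (fun i => u i x), fun i j => pd (pd φ i) j (fun i => u i x),
    fun i j k => pd (pd (pd φ i) j) k (fun i => u i x), fun h1 h2 h3 => ?_⟩
  rw [H3_apply hcomp]
  have hev : (fun y => H2 (fun y => φ (fun i => u i y)) y h2 h3) =ᶠ[𝓝 x] fun y =>
      ∑ i, (pd φ i (fun i => u i y) * H2 (u i) y h2 h3 +
        ∑ j, pd (pd φ i) j (fun i => u i y) * (fderiv 𝕜 (u j) y h2 * fderiv 𝕜 (u i) y h3)) := by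
    have g1 : ∀ᶠ y in 𝓝 x, ContDiffAt 𝕜 3 φ (fun i => u i y) :=
      hUc.continuousAt.eventually (ev3 hφ)
    have g2 : ∀ᶠ y in 𝓝 x, ∀ i, ContDiffAt 𝕜 3 (u i) y :=
      eventually_all.mpr fun i => ev3 (hu i)
    filter_upwards [g1, g2] with y g1 g2
    rw [H2_comp' (fun i => cd2 (g2 i)) (cd2 g1), ← Finset.sum_add_distrib]
  rw [hev.fderiv_eq]
  have dp : ∀ i, DifferentiableAt 𝕜 (pd φ i) (fun i => u i x) := fun i => pd_diff (cd2 hφ) i
  have dpp : ∀ i j, DifferentiableAt 𝕜 (pd (pd φ i) j) (fun i => u i x) := fun i j =>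
    pd_diff (pd_cd hφ i) j
  have dH : ∀ i (k l : E), DifferentiableAt 𝕜 (fun y => H2 (u i) y k l) x ∧
      ∀ h, fderiv 𝕜 (fun y => H2 (u i) y k l) x h = H3 (u i) x h k l := fun i k l =>
    ⟨((diffH2 (hu i)).clm_apply (differentiableAt_const k)).clm_apply (differentiableAt_const l),
      fun h => (H3_apply (hu i) h k l).symm⟩
  have dF : ∀ i (k : E), DifferentiableAt 𝕜 (fun y => fderiv 𝕜 (u i) y k) x ∧
      ∀ h, fderiv 𝕜 (fun y => fderiv 𝕜 (u i) y k) x h = H2 (u i) x h k := fun i k => by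
    refine ⟨(diff2 (cd2 (hu i))).clm_apply (differentiableAt_const k), fun h => ?_⟩
    have h3 := (diff2 (cd2 (hu i))).hasFDerivAt.clm_apply (hasFDerivAt_const k x)
    rw [h3.fderiv]
    simp [H2]
  have hd : ∀ i, HasFDerivAt (fun y => pd φ i (fun i => u i y) * H2 (u i) y h2 h3 +
        ∑ j, pd (pd φ i) j (fun i => u i y) * (fderiv 𝕜 (u j) y h2 * fderiv 𝕜 (u i) y h3))
      ((pd φ i (fun i => u i x) • fderiv 𝕜 (fun y => H2 (u i) y h2 h3) x +
        H2 (u i) x h2 h3 • fderiv 𝕜 (fun y => pd φ i (fun i => u i y)) x) +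
        ∑ j, (pd (pd φ i) j (fun i => u i x) •
          (fderiv 𝕜 (u j) x h2 • fderiv 𝕜 (fun y => fderiv 𝕜 (u i) y h3) x +
            fderiv 𝕜 (u i) x h3 • fderiv 𝕜 (fun y => fderiv 𝕜 (u j) y h2) x) +
          (fderiv 𝕜 (u j) x h2 * fderiv 𝕜 (u i) x h3) •
            fderiv 𝕜 (fun y => pd (pd φ i) j (fun i => u i y)) x)) x := by
    intro i
    refine HasFDerivAt.add ?_ (HasFDerivAt.fun_sum fun j _ => ?_)
    · exact (fderiv_comp_pi hudiff (dp i) 0).1.hasFDerivAt.mul (dH i h2 h3).1.hasFDerivAt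
    · exact (fderiv_comp_pi hudiff (dpp i j) 0).1.hasFDerivAt.mul
        ((dF j h2).1.hasFDerivAt.mul (dF i h3).1.hasFDerivAt)
  rw [(HasFDerivAt.fun_sum fun i (_ : i ∈ Finset.univ) => hd i).fderiv]
  simp only [_root_.sum_apply, _root_.add_apply, _root_.smul_apply, smul_eq_mul,
    (dH _ _ _).2, (dF _ _).2, (fderiv_comp_pi hudiff (dp _) h1).2,
    (fderiv_comp_pi hudiff (dpp _ _) h1).2]
  simp only [Finset.sum_add_distrib, mul_add, Finset.mul_sum]
  have e1 : ∀ i, ∑ j, H2 (u i) x h2 h3 * (pd (pd φ i) j (fun i => u i x) * fderiv 𝕜 (u j) x h1) =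
      ∑ j, pd (pd φ i) j (fun i => u i x) * (fderiv 𝕜 (u j) x h1 * H2 (u i) x h2 h3) :=
    fun i => Finset.sum_congr rfl fun j _ => by ring
  have e2 : ∀ i, ∑ j, pd (pd φ i) j (fun i => u i x) * (fderiv 𝕜 (u i) x h3 * H2 (u j) x h1 h2) =
      ∑ j, pd (pd φ i) j (fun i => u i x) * (H2 (u j) x h1 h2 * fderiv 𝕜 (u i) x h3) :=
    fun i => Finset.sum_congr rfl fun j _ => by ring
  have e3 : ∀ i j, ∑ k, fderiv 𝕜 (u j) x h2 * fderiv 𝕜 (u i) x h3 *
        (pd (pd (pd φ i) j) k (fun i => u i x) * fderiv 𝕜 (u k) x h1) =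
      ∑ k, pd (pd (pd φ i) j) k (fun i => u i x) * (fderiv 𝕜 (u k) x h1 * fderiv 𝕜 (u j) x h2 *
        fderiv 𝕜 (u i) x h3) := fun i j => Finset.sum_congr rfl fun k _ => by ring
  simp only [e1, e2, e3]
  ring

/-! ### Networks -/

variable {a b L : ℕ}

lemma aff_cd {k : WithTop ℕ∞} {g : ℕ → Fin b → E → 𝕜} {x : E} {l : ℕ}
    (hg : ∀ s < l, ∀ o, ContDiffAt 𝕜 k (g s o) x) : ∀ f ∈ Aff g l, ContDiffAt 𝕜 k f x := by
  intro f hf
  unfold Aff at hf
  induction hf using Submodule.span_induction with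
  | mem f hf =>
    rcases hf with ⟨ℓ, c, rfl⟩ | ⟨s, hs, o, rfl⟩
    · exact ℓ.contDiff.contDiffAt.add contDiffAt_const
    · exact hg s hs o
  | zero => exact contDiffAt_const (c := (0 : 𝕜))
  | add f f' _ _ h h' => exact h.add h'
  | smul c f _ h => exact h.const_smul c

lemma gates_cd {k : WithTop ℕ∞} {D : Set E} {g : ℕ → Fin b → E → 𝕜} (hnet : IsNetK k a b L D g)
    {x : E} (hx : x ∈ D) : ∀ s < L, ∀ o, ContDiffAt 𝕜 k (g s o) x := by
  intro s
  induction s using Nat.strong_induction_on with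
  | _ s ih =>
    intro hs o
    obtain ⟨u, φ, hu, hφ⟩ := hnet.2 s hs
    have h1 : ∀ i, ContDiffAt 𝕜 k (u i) x := fun i =>
      aff_cd (fun s' hs' o' => ih s' hs' (hs'.trans hs) o') _ (hu i)
    have h2 : ContDiffAt 𝕜 k (fun y => φ (fun i => u i y) o) x := by
      have h3 : ContDiffAt 𝕜 k (fun y => (fun i => u i y)) x := contDiffAt_pi.mpr h1
      have h4 := (hφ x hx).1.comp x h3
      exact (contDiffAt_pi.mp h4) o
    refine h2.congr_of_eventuallyEq ?_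
    filter_upwards [hnet.1.mem_nhds hx] with y hy
    exact (hφ y hy).2 o

/-- bilinear forms which are sums of products of the functionals `U s i` -/
def Rep2 (U : ℕ → Fin a → (E →L[𝕜] 𝕜)) (l : ℕ) (Q : E → E → 𝕜) : Prop :=
  ∃ c : ℕ → Fin a → Fin a → 𝕜, ∀ h k, Q h k =
    ∑ s ∈ Finset.range l, ∑ i, ∑ j, c s i j * (U s j h * U s i k)

/-- trilinear forms which are sums of products of an arbitrary functional and of two of the
functionals `U s i` -/
def Rep3 (U : ℕ → Fin a → (E →L[𝕜] 𝕜)) (l : ℕ) (T : E → E → E → 𝕜) : Prop :=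
  ∃ μ₁ μ₂ μ₃ : ℕ → Fin a → Fin a → (E →L[𝕜] 𝕜), ∀ h1 h2 h3, T h1 h2 h3 =
    ∑ s ∈ Finset.range l, ∑ i, ∑ j, (μ₁ s i j h1 * (U s j h2 * U s i h3) +
      μ₂ s i j h3 * (U s j h1 * U s i h2) + μ₃ s i j h2 * (U s j h1 * U s i h3))

section reps

variable {U : ℕ → Fin a → (E →L[𝕜] 𝕜)} {l l' : ℕ}

lemma Rep2.zero : Rep2 U l (0 : E → E → 𝕜) := ⟨fun _ _ _ => 0, by simp⟩

lemma Rep2.add {Q Q' : E → E → 𝕜} (h : Rep2 U l Q) (h' : Rep2 U l Q') :
    Rep2 U l (fun x y => Q x y + Q' x y) := by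
  obtain ⟨c, hc⟩ := h
  obtain ⟨c', hc'⟩ := h'
  refine ⟨fun s i j => c s i j + c' s i j, fun h k => ?_⟩
  beta_reduce
  rw [hc, hc']
  simp only [← Finset.sum_add_distrib, add_mul]

lemma Rep2.smul {Q : E → E → 𝕜} (t : 𝕜) (h : Rep2 U l Q) :
    Rep2 U l (fun x y => t * Q x y) := by
  obtain ⟨c, hc⟩ := h
  refine ⟨fun s i j => t * c s i j, fun h k => ?_⟩
  beta_reduce
  rw [hc]
  simp only [Finset.mul_sum, mul_assoc]

lemma Rep2.congr {Q Q' : E → E → 𝕜} (h : Rep2 U l Q) (e : ∀ x y, Q' x y = Q x y) :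
    Rep2 U l Q' := by
  obtain ⟨c, hc⟩ := h
  exact ⟨c, fun h k => by rw [e, hc]⟩

lemma Rep2.sum {ι : Type} (t : Finset ι) {Q : ι → E → E → 𝕜} (h : ∀ i, Rep2 U l (Q i)) :
    Rep2 U l (fun x y => ∑ i ∈ t, Q i x y) := by
  classical
  induction t using Finset.induction_on with
  | empty => exact Rep2.zero.congr (by simp)
  | insert i t hi ih =>
    refine ((h i).add ih).congr fun x y => ?_
    rw [Finset.sum_insert hi]

lemma Rep2.mono {Q : E → E → 𝕜} (h : Rep2 U l Q) (hl : l ≤ l') : Rep2 U l' Q := by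
  obtain ⟨c, hc⟩ := h
  refine ⟨fun s i j => if s < l then c s i j else 0, fun h k => ?_⟩
  beta_reduce
  rw [hc]
  refine Finset.sum_subset_zero_on_sdiff (Finset.range_mono hl) ?_ ?_
  · intro s hs
    rw [Finset.mem_sdiff, Finset.mem_range, Finset.mem_range] at hs
    simp [hs.2]
  · intro s hs
    rw [Finset.mem_range] at hs
    simp [hs]

lemma Rep2.single {s : ℕ} (hs : s < l) (c : Fin a → Fin a → 𝕜) :
    Rep2 U l (fun h k => ∑ i, ∑ j, c i j * (U s j h * U s i k)) := by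
  refine ⟨fun s' i j => if s' = s then c i j else 0, fun h k => ?_⟩
  rw [Finset.sum_eq_single s]
  · simp
  · intro s' _ h; simp [h]
  · intro h; exact absurd (Finset.mem_range.mpr hs) h

lemma Rep3.zero : Rep3 U l (0 : E → E → E → 𝕜) := ⟨fun _ _ _ => 0, fun _ _ _ => 0,
  fun _ _ _ => 0, by simp⟩

lemma Rep3.add {Q Q' : E → E → E → 𝕜} (h : Rep3 U l Q) (h' : Rep3 U l Q') :
    Rep3 U l (fun x y z => Q x y z + Q' x y z) := by
  obtain ⟨c, d, e, hc⟩ := h
  obtain ⟨c', d', e', hc'⟩ := h'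
  refine ⟨fun s i j => c s i j + c' s i j, fun s i j => d s i j + d' s i j,
    fun s i j => e s i j + e' s i j, fun h k m => ?_⟩
  beta_reduce
  rw [hc, hc']
  simp only [← Finset.sum_add_distrib, _root_.add_apply]
  refine Finset.sum_congr rfl fun s _ => Finset.sum_congr rfl fun i _ =>
    Finset.sum_congr rfl fun j _ => ?_
  ring

lemma Rep3.smul {Q : E → E → E → 𝕜} (t : 𝕜) (h : Rep3 U l Q) :
    Rep3 U l (fun x y z => t * Q x y z) := by
  obtain ⟨c, d, e, hc⟩ := h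
  refine ⟨fun s i j => t • c s i j, fun s i j => t • d s i j, fun s i j => t • e s i j,
    fun h k m => ?_⟩
  beta_reduce
  rw [hc]
  simp only [Finset.mul_sum, _root_.smul_apply, smul_eq_mul]
  refine Finset.sum_congr rfl fun s _ => Finset.sum_congr rfl fun i _ =>
    Finset.sum_congr rfl fun j _ => ?_
  ring

lemma Rep3.congr {Q Q' : E → E → E → 𝕜} (h : Rep3 U l Q) (e : ∀ x y z, Q' x y z = Q x y z) :
    Rep3 U l Q' := by
  obtain ⟨c, d, f, hc⟩ := h
  exact ⟨c, d, f, fun h k m => by rw [e, hc]⟩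

lemma Rep3.sum {ι : Type} (t : Finset ι) {Q : ι → E → E → E → 𝕜} (h : ∀ i, Rep3 U l (Q i)) :
    Rep3 U l (fun x y z => ∑ i ∈ t, Q i x y z) := by
  classical
  induction t using Finset.induction_on with
  | empty => exact Rep3.zero.congr (by simp)
  | insert i t hi ih =>
    refine ((h i).add ih).congr fun x y z => ?_
    rw [Finset.sum_insert hi]

lemma Rep3.mono {Q : E → E → E → 𝕜} (h : Rep3 U l Q) (hl : l ≤ l') : Rep3 U l' Q := by
  obtain ⟨c, d, e, hc⟩ := h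
  refine ⟨fun s i j => if s < l then c s i j else 0, fun s i j => if s < l then d s i j else 0,
    fun s i j => if s < l then e s i j else 0, fun h k m => ?_⟩
  beta_reduce
  rw [hc]
  refine Finset.sum_subset_zero_on_sdiff (Finset.range_mono hl) ?_ ?_
  · intro s hs
    rw [Finset.mem_sdiff, Finset.mem_range, Finset.mem_range] at hs
    simp [hs.2]
  · intro s hs
    rw [Finset.mem_range] at hs
    simp [hs]

/-- a functional of the first argument times a bilinear form of the two others -/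
lemma Rep3.left {Q : E → E → 𝕜} (h : Rep2 U l Q) (ℓ : E →L[𝕜] 𝕜) :
    Rep3 U l (fun x y z => ℓ x * Q y z) := by
  obtain ⟨c, hc⟩ := h
  refine ⟨fun s i j => c s i j • ℓ, fun _ _ _ => 0, fun _ _ _ => 0, fun h k m => ?_⟩
  beta_reduce
  rw [hc]
  simp only [Finset.mul_sum, _root_.smul_apply, smul_eq_mul, _root_.zero_apply, zero_mul, add_zero]
  refine Finset.sum_congr rfl fun s _ => Finset.sum_congr rfl fun i _ =>
    Finset.sum_congr rfl fun j _ => ?_
  ring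

lemma Rep3.right {Q : E → E → 𝕜} (h : Rep2 U l Q) (ℓ : E →L[𝕜] 𝕜) :
    Rep3 U l (fun x y z => Q x y * ℓ z) := by
  obtain ⟨c, hc⟩ := h
  refine ⟨fun _ _ _ => 0, fun s i j => c s i j • ℓ, fun _ _ _ => 0, fun h k m => ?_⟩
  beta_reduce
  rw [hc]
  simp only [Finset.sum_mul, _root_.smul_apply, smul_eq_mul, _root_.zero_apply, zero_mul, add_zero,
    zero_add]
  refine Finset.sum_congr rfl fun s _ => Finset.sum_congr rfl fun i _ =>
    Finset.sum_congr rfl fun j _ => ?_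
  ring

lemma Rep3.mid {Q : E → E → 𝕜} (h : Rep2 U l Q) (ℓ : E →L[𝕜] 𝕜) :
    Rep3 U l (fun x y z => ℓ y * Q x z) := by
  obtain ⟨c, hc⟩ := h
  refine ⟨fun _ _ _ => 0, fun _ _ _ => 0, fun s i j => c s i j • ℓ, fun h k m => ?_⟩
  beta_reduce
  rw [hc]
  simp only [Finset.mul_sum, _root_.smul_apply, smul_eq_mul, _root_.zero_apply, zero_mul,
    zero_add]
  refine Finset.sum_congr rfl fun s _ => Finset.sum_congr rfl fun i _ =>
    Finset.sum_congr rfl fun j _ => ?_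
  ring

end reps

/-- The cubic terms contributed by the gates. -/
lemma net_third {D : Set E} {g : ℕ → Fin b → E → 𝕜} (hnet : IsNetK 3 a b L D g) {x : E}
    (hx : x ∈ D) : ∃ (U : ℕ → Fin a → (E →L[𝕜] 𝕜)),
      ∀ f ∈ Aff g L, Rep2 U L (fun h k => H2 f x h k) ∧ Rep3 U L (fun h k m => H3 f x h k m) := by
  classical
  have hgd := gates_cd hnet hx
  have hdata : ∀ s, ∃ (u : Fin a → E → 𝕜), s < L → (∀ i, u i ∈ Aff g s) ∧
      ∀ o, ∃ (φ : (Fin a → 𝕜) → 𝕜), ContDiffAt 𝕜 3 φ (fun i => u i x) ∧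
        g s o =ᶠ[𝓝 x] fun y => φ (fun i => u i y) := by
    intro s
    by_cases hs : s < L
    swap
    · exact ⟨fun _ _ => 0, fun h => absurd h hs⟩
    obtain ⟨u, φ, hu, hφ⟩ := hnet.2 s hs
    refine ⟨u, fun _ => ⟨hu, fun o => ⟨fun y => φ y o, (contDiffAt_pi.mp (hφ x hx).1) o, ?_⟩⟩⟩
    filter_upwards [hnet.1.mem_nhds hx] with y hy
    exact (hφ y hy).2 o
  choose u hu using hdata
  set U : ℕ → Fin a → (E →L[𝕜] 𝕜) := fun s i => fderiv 𝕜 (u s i) x with hU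
  refine ⟨U, ?_⟩
  have hstep : ∀ l ≤ L, (∀ s < l, ∀ o, Rep2 U l (fun h k => H2 (g s o) x h k) ∧
      Rep3 U l (fun h k m => H3 (g s o) x h k m)) →
      ∀ f ∈ Aff g l, Rep2 U l (fun h k => H2 f x h k) ∧
        Rep3 U l (fun h k m => H3 f x h k m) := by
    intro l hl hgates f hf
    have hcd := aff_cd (k := 3) (x := x) (l := l) (g := g)
      (fun s hs o => hgd s (by omega) o)
    unfold Aff at hf
    induction hf using Submodule.span_induction with
    | mem f hf =>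
      rcases hf with ⟨ℓ, c, rfl⟩ | ⟨s, hs, o, rfl⟩
      · rw [H2_affine, H3_affine]
        exact ⟨Rep2.zero, Rep3.zero⟩
      · exact hgates s hs o
    | zero =>
      have e : (fun y : E => (0 : E →L[𝕜] 𝕜) y + 0) = (0 : E → 𝕜) := by
        funext y; simp
      have h2 := H2_affine (E := E) (0 : E →L[𝕜] 𝕜) 0 x
      have h3 := H3_affine (E := E) (0 : E →L[𝕜] 𝕜) 0 x
      rw [e] at h2 h3
      rw [h2, h3]
      exact ⟨Rep2.zero, Rep3.zero⟩
    | add f f' h1 h2 h h' =>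
      refine ⟨(h.1.add h'.1).congr fun x y => ?_, (h.2.add h'.2).congr fun x y z => ?_⟩
      · rw [H2_add (cd2 (hcd f h1)) (cd2 (hcd f' h2))]; rfl
      · rw [H3_add (hcd f h1) (hcd f' h2)]
    | smul c f h1 h =>
      refine ⟨(h.1.smul c).congr fun x y => ?_, (h.2.smul c).congr fun x y z => ?_⟩
      · rw [H2_smul c (cd2 (hcd f h1))]; rfl
      · rw [H3_smul c (hcd f h1)]
  have hgates : ∀ s < L, ∀ o, Rep2 U (s + 1) (fun h k => H2 (g s o) x h k) ∧
      Rep3 U (s + 1) (fun h k m => H3 (g s o) x h k m) := by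
    intro s
    induction s using Nat.strong_induction_on with
    | _ s ih =>
      intro hs o
      have h1 : ∀ i, Rep2 U s (fun h k => H2 (u s i) x h k) ∧
          Rep3 U s (fun h k m => H3 (u s i) x h k m) := by
        intro i
        refine hstep s hs.le (fun s' hs' o' => ?_) _ ((hu s hs).1 i)
        obtain ⟨g1, g2⟩ := ih s' hs' (by omega) o'
        exact ⟨g1.mono (by omega), g2.mono (by omega)⟩
      have hss : s ≤ s + 1 := Nat.le_succ s
      obtain ⟨φ, hφ, he⟩ := (hu s hs).2 o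
      have hcu : ∀ i, ContDiffAt 𝕜 3 (u s i) x := fun i =>
        aff_cd (fun s' hs' o' => hgd s' (hs'.trans hs) o') _ ((hu s hs).1 i)
      constructor
      · have e : ∀ h k, H2 (g s o) x h k = ∑ i, pd φ i (fun i => u s i x) * H2 (u s i) x h k +
            ∑ i, ∑ j, pd (pd φ i) j (fun i => u s i x) * (U s j h * U s i k) := fun h k => by
          rw [H2_congr he, H2_comp' (fun i => cd2 (hcu i)) (cd2 hφ)]
        refine Rep2.congr (Rep2.add (Rep2.sum _ fun i => ((h1 i).1.mono hss).smul _)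
          (Rep2.single (Nat.lt_succ_self s) _)) e
      · obtain ⟨c, β, γ, hc⟩ := H3_comp hcu hφ
        have r1 : Rep3 U (s + 1) (fun h1 h2 h3 => ∑ i, c i * H3 (u s i) x h1 h2 h3) :=
          Rep3.sum _ fun i => ((h1 i).2.mono hss).smul _
        have r2 : Rep3 U (s + 1) (fun h1 h2 h3 => ∑ i, ∑ j, β i j *
            (fderiv 𝕜 (u s j) x h1 * H2 (u s i) x h2 h3 +
          H2 (u s j) x h1 h2 * fderiv 𝕜 (u s i) x h3 +
            fderiv 𝕜 (u s j) x h2 * H2 (u s i) x h1 h3)) :=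
          Rep3.sum _ fun i => Rep3.sum _ fun j => Rep3.smul _
            (((Rep3.left ((h1 i).1.mono hss) (fderiv 𝕜 (u s j) x)).add
              (Rep3.right ((h1 j).1.mono hss) (fderiv 𝕜 (u s i) x))).add
              (Rep3.mid ((h1 i).1.mono hss) (fderiv 𝕜 (u s j) x)))
        have r3 : Rep3 U (s + 1) (fun h1 h2 h3 => ∑ i, ∑ j, ∑ k, γ i j k *
            (fderiv 𝕜 (u s k) x h1 * fderiv 𝕜 (u s j) x h2 * fderiv 𝕜 (u s i) x h3)) := by
          refine (Rep3.sum Finset.univ fun k => Rep3.left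
            (Rep2.single (U := U) (Nat.lt_succ_self s) fun i j => γ i j k)
              (fderiv 𝕜 (u s k) x)).congr fun x1 x2 x3 => ?_
          simp only [Finset.mul_sum]
          have e1 : ∀ i, ∑ j, ∑ k, γ i j k * (fderiv 𝕜 (u s k) x x1 * fderiv 𝕜 (u s j) x x2 *
              fderiv 𝕜 (u s i) x x3) = ∑ k, ∑ j, γ i j k * (fderiv 𝕜 (u s k) x x1 *
                fderiv 𝕜 (u s j) x x2 * fderiv 𝕜 (u s i) x x3) := fun i => Finset.sum_comm
          rw [Finset.sum_congr rfl fun i _ => e1 i, Finset.sum_comm]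
          refine Finset.sum_congr rfl fun k _ => Finset.sum_congr rfl fun i _ =>
            Finset.sum_congr rfl fun j _ => ?_
          simp only [hU]
          ring
        refine ((r1.add r2).add r3).congr fun x1 x2 x3 => ?_
        rw [H3_congr he, hc]
  intro f hf
  exact hstep L le_rfl (fun s hs o => ⟨((hgates s hs o).1).mono (by omega),
    ((hgates s hs o).2).mono (by omega)⟩) f hf

end Pool.Agent.Helper51K9.NC
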