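import Pool.Agent.Helper51K9.NC.Affine
import Pool.Agent.Helper51K9.NC.Third

/-!
# Noncommutative functions which are not affine are hard
-/

set_option autoImplicit false

namespace Pool.Agent.Helper51K9.NC

open Matrix Topology Filter Pool.Agent.Y538.Net Pool.Agent.W956.KF

variable {𝕜 : Type} [NontriviallyNormedField 𝕜] {r : ℕ}

/-! ### Restriction of networks -/

section comp

variable {E E' : Type} [NormedAddCommGroup E] [NormedSpace 𝕜 E] [NormedAddCommGroup E']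
  [NormedSpace 𝕜 E'] {k : WithTop ℕ∞} {a b L : ℕ}

theorem aff_comp {g : ℕ → Fin b → E → 𝕜} {ψ : E' → E} (ℓ : E' →L[𝕜] E) (c : E)
    (hψ : ∀ y, ψ y = ℓ y + c) (l : ℕ) : ∀ f ∈ Aff g l,
      (fun y => f (ψ y)) ∈ Aff (fun l o y => g l o (ψ y)) l := by
  intro f hf
  unfold Aff at hf
  induction hf using Submodule.span_induction with
  | mem f hf =>
    rcases hf with ⟨m, d, rfl⟩ | ⟨s, hs, o, rfl⟩
    · refine Submodule.subset_span (Or.inl ⟨m.comp ℓ, m c + d, ?_⟩)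
      funext y
      change m (ψ y) + d = _
      rw [hψ, map_add]
      simp [add_assoc]
    · exact Submodule.subset_span (Or.inr ⟨s, hs, o, rfl⟩)
  | zero => exact Submodule.zero_mem _
  | add f f' _ _ h h' => exact Submodule.add_mem _ h h'
  | smul c f _ h => exact Submodule.smul_mem _ c h

theorem Gives.comp {κ : Type} {F : E → κ → 𝕜} {ψ : E' → E} (ℓ : E' →L[𝕜] E) (c : E)
    (hψ : ∀ y, ψ y = ℓ y + c) {x : E'} (h : Gives k a b L F (ψ x)) :
    Gives k a b L (fun y o => F (ψ y) o) x := by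
  obtain ⟨D, g, ⟨hD, hg⟩, hx, hF⟩ := h
  have hcont : Continuous ψ := by
    have : ψ = fun y => ℓ y + c := funext hψ
    rw [this]
    exact ℓ.continuous.add continuous_const
  refine ⟨ψ ⁻¹' D, fun l o y => g l o (ψ y), ⟨hD.preimage hcont, fun l hl => ?_⟩, hx, fun o => ?_⟩
  · obtain ⟨u, φ, hu, hφ⟩ := hg l hl
    exact ⟨fun i y => u i (ψ y), φ, fun i => aff_comp ℓ c hψ l _ (hu i), fun y hy => hφ _ hy⟩
  · obtain ⟨f, hf, he⟩ := hF o
    exact ⟨_, aff_comp ℓ c hψ L _ hf, hcont.continuousAt.eventually he⟩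

theorem Gives.congr {κ κ' : Type} {F : E → κ → 𝕜} {F' : E → κ' → 𝕜} {x : E}
    (h : Gives k a b L F x) (e : κ' → κ) (h' : ∀ᶠ y in 𝓝 x, ∀ o, F' y o = F y (e o)) :
    Gives k a b L F' x := by
  obtain ⟨D, g, hg, hx, hF⟩ := h
  refine ⟨D, g, hg, hx, fun o => ?_⟩
  obtain ⟨f, hf, he⟩ := hF (e o)
  refine ⟨f, hf, ?_⟩
  filter_upwards [he, h'] with y h1 h2
  rw [h1, h2 o]

end comp

/-! ### Rank -/

theorem trank_le_card {T : Type} [Fintype T] {m n p : ℕ} (U : T → Matrix (Fin m) (Fin n) 𝕜)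
    (V : T → Matrix (Fin n) (Fin p) 𝕜) (W : T → Matrix (Fin m) (Fin p) 𝕜)
    (h : ∀ (i i' : Fin m) (j j' : Fin n) (k k' : Fin p),
      ∑ l, U l i j * V l j' k * W l i' k' = if i = i' ∧ j = j' ∧ k = k' then 1 else 0) :
    trank 𝕜 m n p ≤ Fintype.card T := by
  refine Nat.sInf_le ⟨fun l => U ((Fintype.equivFin T).symm l),
    fun l => V ((Fintype.equivFin T).symm l), fun l => W ((Fintype.equivFin T).symm l), ?_⟩
  intro i i' j j' k k'
  rw [← h i i' j j' k k']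
  exact (Fintype.equivFin T).symm.sum_comp (fun l => U l i j * V l j' k * W l i' k')

theorem rank_of_gives {a b L m : ℕ} {γ : 𝕜} (hγ : γ ≠ 0) {x : Pairs 𝕜 m}
    (h : Gives 2 a b L (fun (y : Pairs 𝕜 m) (o : Fin m × Fin m) =>
      γ * ∑ k, y.1 o.1 k * y.2 k o.2) x) : trank 𝕜 m m m ≤ a * min a b * L := by
  obtain ⟨D, g, hnet, hx, hF⟩ := h
  obtain ⟨U, β, -, hU⟩ := net_hess (a := a) (b := b) (L := L) (D := D) (g := g) hnet hx
  choose f hf he using hF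
  have h1 := fun z : Fin m × Fin m => hU (f z) (hf z)
  choose C hC using h1
  have key : ∀ (i i' j j' k k' : Fin m),
      ∑ s ∈ Finset.range L, ∑ o, (γ⁻¹ * C (i', k') s o) * ∑ p, ∑ q, β s o p q *
        (U s q (mu i j, 0) * U s p (0, mu j' k)) =
        if i = i' ∧ j = j' ∧ k = k' then 1 else 0 := by
    intro i i' j j' k k'
    have h2 := hC (i', k') (mu i j, 0) (0, mu j' k)
    rw [H2_congr (he (i', k'))] at h2
    have h3 : H2 (fun y : Pairs 𝕜 m => γ * ∑ l, y.1 i' l * y.2 l k') x (mu i j, 0) (0, mu j' k) =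
        γ * if i = i' ∧ j = j' ∧ k = k' then 1 else 0 := by
      have h4 := H2_smul (x := x) γ (H2_sum_mul (E := Pairs 𝕜 m) Finset.univ (fun l => pA i' l)
        (fun l => pB l k') x (mu i j, 0) (0, mu j' k)).1
      simp only [pA_apply, pB_apply] at h4
      have h5 : (γ • fun y : Pairs 𝕜 m => ∑ l, y.1 i' l * y.2 l k') =
        fun y : Pairs 𝕜 m => γ * ∑ l, y.1 i' l * y.2 l k' := rfl
      rw [← h5, h4, _root_.smul_apply, _root_.smul_apply, H2_entry, smul_eq_mul]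
    rw [h3] at h2
    have h6 : ∑ s ∈ Finset.range L, ∑ o, (γ⁻¹ * C (i', k') s o) * ∑ p, ∑ q, β s o p q *
        (U s q (mu i j, 0) * U s p (0, mu j' k)) = γ⁻¹ * ∑ s ∈ Finset.range L, ∑ o,
          C (i', k') s o * ∑ p, ∑ q, β s o p q * (U s q (mu i j, 0) * U s p (0, mu j' k)) := by
      simp only [Finset.mul_sum, mul_assoc]
    rw [h6, ← h2, ← mul_assoc, inv_mul_cancel₀ hγ, one_mul]
  rw [mul_comm (a * min a b) L, ← mul_assoc]
  rcases le_total a b with hab | hab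
  · rw [min_eq_left hab]
    have := trank_le_card (𝕜 := 𝕜) (T := Fin L × Fin a × Fin a)
      (fun t => Matrix.of fun i j : Fin m => U t.1 t.2.2 (mu i j, 0))
      (fun t => Matrix.of fun j' k : Fin m => U t.1 t.2.1 (0, mu j' k))
      (fun t => Matrix.of fun i' k' : Fin m => ∑ o, (γ⁻¹ * C (i', k') t.1 o) *
        β t.1 o t.2.1 t.2.2) (fun i i' j j' k k' => by
        rw [← key i i' j j' k k', Finset.sum_range, Fintype.sum_prod_type]
        refine Finset.sum_congr rfl fun s _ => ?_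
        rw [Fintype.sum_prod_type]
        simp only [Matrix.of_apply, Finset.mul_sum]
        have e1 : ∀ o, ∑ p, ∑ q, γ⁻¹ * C (i', k') s o * (β s o p q *
            (U s q (mu i j, 0) * U s p (0, mu j' k))) = ∑ p, ∑ q, U s q (mu i j, 0) *
              U s p (0, mu j' k) * (γ⁻¹ * C (i', k') s o * β s o p q) := fun o =>
          Finset.sum_congr rfl fun p _ => Finset.sum_congr rfl fun q _ => by ring
        simp only [e1]
        rw [Finset.sum_comm (s := (Finset.univ : Finset (Fin b)))]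
        refine Finset.sum_congr rfl fun p _ => ?_
        rw [Finset.sum_comm (s := (Finset.univ : Finset (Fin b)))])
    simpa [mul_assoc] using this
  · rw [min_eq_right hab]
    have := trank_le_card (𝕜 := 𝕜) (T := Fin L × Fin a × Fin b)
      (fun t => Matrix.of fun i j : Fin m => U t.1 t.2.1 (mu i j, 0))
      (fun t => Matrix.of fun j' k : Fin m => ∑ p, β t.1 t.2.2 p t.2.1 * U t.1 p (0, mu j' k))
      (fun t => Matrix.of fun i' k' : Fin m => γ⁻¹ * C (i', k') t.1 t.2.2)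
      (fun i i' j j' k k' => by
        rw [← key i i' j j' k k', Finset.sum_range, Fintype.sum_prod_type]
        refine Finset.sum_congr rfl fun s _ => ?_
        rw [Fintype.sum_prod_type]
        simp only [Matrix.of_apply, Finset.mul_sum, Finset.sum_mul]
        rw [Finset.sum_comm]
        refine Finset.sum_congr rfl fun o _ => ?_
        rw [Finset.sum_comm]
        refine Finset.sum_congr rfl fun p _ => Finset.sum_congr rfl fun q _ => ?_
        ring)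
    simpa [mul_assoc] using this

/-! ### Copies -/

section copies

variable (Φ : NCFun 𝕜 r)
variable {ι κ ν σ : Type} [Fintype ι] [DecidableEq ι] [Fintype κ] [DecidableEq κ]
  [Fintype ν] [DecidableEq ν] [Fintype σ] [DecidableEq σ]

theorem NCFun.reindex_mem (e : ι ≃ κ) {X : Fin r → Matrix κ κ 𝕜} (hX : X ∈ Φ.dom κ) :
    (fun i => (X i).submatrix e e) ∈ Φ.dom ι := by
  have h := Φ.sim_dom ι κ ((1 : Matrix κ κ 𝕜).submatrix e (Equiv.refl κ))
    ((1 : Matrix κ κ 𝕜).submatrix (Equiv.refl κ) e) X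
    (by rw [Matrix.submatrix_mul_equiv, Matrix.mul_one, Matrix.submatrix_one_equiv])
    (by rw [Matrix.submatrix_mul_equiv, Matrix.mul_one, Matrix.submatrix_one_equiv]) hX
  have e1 : (fun i => (1 : Matrix κ κ 𝕜).submatrix e (Equiv.refl κ) * X i *
      (1 : Matrix κ κ 𝕜).submatrix (Equiv.refl κ) e) = fun i => (X i).submatrix e e := by
    funext i
    have h1 : X i = (X i).submatrix (Equiv.refl κ) (Equiv.refl κ) := rfl
    conv_lhs => rw [h1]
    rw [Matrix.submatrix_mul_equiv, Matrix.submatrix_mul_equiv, Matrix.one_mul, Matrix.mul_one]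
  rwa [e1] at h

/-- splitting off the first copy -/
def splitFirst (m : ℕ) (σ : Type) : Fin (m + 1) × σ ≃ σ ⊕ (Fin m × σ) where
  toFun p := Fin.cases (Sum.inl p.2) (fun k => Sum.inr (k, p.2)) p.1
  invFun := Sum.elim (fun s => (0, s)) fun q => (q.1.succ, q.2)
  left_inv := by
    rintro ⟨p, s⟩
    refine Fin.cases ?_ (fun k => ?_) p <;> simp
  right_inv := by
    rintro (s | ⟨k, s⟩) <;> simp

theorem NCFun.copies_mem {W : Fin r → Matrix σ σ 𝕜} (hW : W ∈ Φ.dom σ) (m : ℕ) :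
    copies (m + 1) W ∈ Φ.dom (Fin (m + 1) × σ) := by
  induction m with
  | zero =>
    have h := Φ.reindex_mem (Equiv.uniqueProd σ (Fin 1)) hW
    convert h using 1
    funext i
    ext ⟨p, s⟩ ⟨q, t⟩
    fin_cases p
    fin_cases q
    simp [copies]
  | succ m ih =>
    have h := Φ.reindex_mem (splitFirst (m + 1) σ) (Φ.sum_dom _ _ _ _ hW ih)
    convert h using 1
    funext i
    ext ⟨p, s⟩ ⟨q, t⟩
    refine Fin.cases ?_ (fun k => ?_) p <;> refine Fin.cases ?_ (fun l => ?_) q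
    · simp [copies, splitFirst]
    · simp [copies, splitFirst, (Fin.succ_ne_zero l).symm]
    · simp [copies, splitFirst, Fin.succ_ne_zero]
    · simp [copies, splitFirst, Matrix.one_apply]

/-- The tuple `1 ⊗ (X ⊕ Y ⊕ Z) + A ⊗ H + B ⊗ K`. -/
def big (m : ℕ) (X : Fin r → Matrix ι ι 𝕜) (H : Fin r → Matrix ι κ 𝕜) (Y : Fin r → Matrix κ κ 𝕜)
    (K : Fin r → Matrix κ ν 𝕜) (Z : Fin r → Matrix ν ν 𝕜) (A B : Matrix (Fin m) (Fin m) 𝕜) :
    Fin r → Matrix (Fin m × ((ι ⊕ κ) ⊕ ν)) (Fin m × ((ι ⊕ κ) ⊕ ν)) 𝕜 := fun i =>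
  kroneckerMap (· * ·) (1 : Matrix (Fin m) (Fin m) 𝕜) (tri3 X 0 Y 0 Z i) +
    kroneckerMap (· * ·) A (fromBlocks (fromBlocks 0 (H i) 0 0) 0 0 0) +
    kroneckerMap (· * ·) B (fromBlocks 0 (fromRows 0 (K i)) 0 0)

/-- the intertwiner -/
def itw (ι κ ν : Type) [DecidableEq ι] [DecidableEq κ] [DecidableEq ν] {m : ℕ}
    (A B : Matrix (Fin m) (Fin m) 𝕜) (v : Fin m → 𝕜) :
    Matrix (Fin m × ((ι ⊕ κ) ⊕ ν)) ((ι ⊕ κ) ⊕ ν) 𝕜 := Matrix.of fun p s =>
  if p.2 = s then (Sum.elim (Sum.elim (fun _ => A *ᵥ (B *ᵥ v)) (fun _ => B *ᵥ v)) (fun _ => v) :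
    (ι ⊕ κ) ⊕ ν → Fin m → 𝕜) p.2 p.1 else 0

theorem big_itw {m : ℕ} (X : Fin r → Matrix ι ι 𝕜) (H : Fin r → Matrix ι κ 𝕜)
    (Y : Fin r → Matrix κ κ 𝕜) (K : Fin r → Matrix κ ν 𝕜) (Z : Fin r → Matrix ν ν 𝕜)
    (A B : Matrix (Fin m) (Fin m) 𝕜) (v : Fin m → 𝕜) (i : Fin r) :
    big m X H Y K Z A B i * itw ι κ ν A B v = itw ι κ ν A B v * tri3 X H Y K Z i := by
  ext ⟨p, s⟩ t
  rw [Matrix.mul_apply, Matrix.mul_apply, Fintype.sum_prod_type]
  have e1 : ∀ q : Fin m, ∑ u, big m X H Y K Z A B i (p, s) (q, u) * itw ι κ ν A B v (q, u) t =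
      big m X H Y K Z A B i (p, s) (q, t) * (Sum.elim (Sum.elim (fun _ => A *ᵥ (B *ᵥ v))
        (fun _ => B *ᵥ v)) (fun _ => v) : (ι ⊕ κ) ⊕ ν → Fin m → 𝕜) t q := by
    intro q
    rw [Finset.sum_eq_single t]
    · simp [itw]
    · intro u _ hu
      simp [itw, hu]
    · simp
  have e2 : ∑ u, itw ι κ ν A B v (p, s) u * tri3 X H Y K Z i u t =
      (Sum.elim (Sum.elim (fun _ => A *ᵥ (B *ᵥ v))
        (fun _ => B *ᵥ v)) (fun _ => v) : (ι ⊕ κ) ⊕ ν → Fin m → 𝕜) s p *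
        tri3 X H Y K Z i s t := by
    rw [Finset.sum_eq_single s]
    · simp [itw]
    · intro u _ hu
      simp [itw, hu.symm]
    · simp
  rw [Finset.sum_congr rfl fun q _ => e1 q, e2]
  have e3 : ∀ (C : Matrix (Fin m) (Fin m) 𝕜) (w : Fin m → 𝕜) (x : 𝕜),
      ∑ q, C p q * x * w q = (C *ᵥ w) p * x := by
    intro C w x
    simp only [Matrix.mulVec, dotProduct, Finset.sum_mul]
    exact Finset.sum_congr rfl fun q _ => by ring
  rcases s with (s | s) | s <;> rcases t with (t | t) | t <;>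
    simp [big, tri3, tri, kroneckerMap_apply, e3]

theorem NCFun.val_big {m : ℕ} {X : Fin r → Matrix ι ι 𝕜} (hX : X ∈ Φ.dom ι)
    (H : Fin r → Matrix ι κ 𝕜)
    {Y : Fin r → Matrix κ κ 𝕜} (hY : Y ∈ Φ.dom κ) (K : Fin r → Matrix κ ν 𝕜)
    {Z : Fin r → Matrix ν ν 𝕜} (hZ : Z ∈ Φ.dom ν)
    (A B : Matrix (Fin m) (Fin m) 𝕜) (hM : big m X H Y K Z A B ∈ Φ.dom (Fin m × ((ι ⊕ κ) ⊕ ν)))
    (p q : Fin m) (x : ι) (z : ν) :
    Φ.val (Fin m × ((ι ⊕ κ) ⊕ ν)) (big m X H Y K Z A B) (p, Sum.inl (Sum.inl x)) (q, Sum.inr z) =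
      Φ.val ((ι ⊕ κ) ⊕ ν) (tri3 X H Y K Z) (Sum.inl (Sum.inl x)) (Sum.inr z) *
        ∑ k, A p k * B k q := by
  have h1 := Φ.inter hM (Φ.tri3_mem hX hY hZ H K) (itw ι κ ν A B (Pi.single q 1))
    (big_itw X H Y K Z A B _)
  have h2 := congrFun (congrFun h1 (p, Sum.inl (Sum.inl x))) (Sum.inr z)
  rw [Matrix.mul_apply, Matrix.mul_apply, Fintype.sum_prod_type] at h2
  have e1 : ∀ q' : Fin m, ∑ u, Φ.val (Fin m × ((ι ⊕ κ) ⊕ ν)) (big m X H Y K Z A B)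
      (p, Sum.inl (Sum.inl x)) (q', u) * itw ι κ ν A B (Pi.single q 1) (q', u) (Sum.inr z) =
      Φ.val (Fin m × ((ι ⊕ κ) ⊕ ν)) (big m X H Y K Z A B)
        (p, Sum.inl (Sum.inl x)) (q', Sum.inr z) * (Pi.single q 1 : Fin m → 𝕜) q' := by
    intro q'
    rw [Finset.sum_eq_single (Sum.inr z)]
    · simp [itw]
    · intro u _ hu
      simp [itw, hu]
    · simp
  have e2 : ∑ u, itw ι κ ν A B (Pi.single q 1) (p, Sum.inl (Sum.inl x)) u *
      Φ.val ((ι ⊕ κ) ⊕ ν) (tri3 X H Y K Z) u (Sum.inr z) =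
      (A *ᵥ (B *ᵥ Pi.single q 1)) p *
        Φ.val ((ι ⊕ κ) ⊕ ν) (tri3 X H Y K Z) (Sum.inl (Sum.inl x)) (Sum.inr z) := by
    rw [Finset.sum_eq_single (Sum.inl (Sum.inl x))]
    · simp [itw]
    · intro u _ hu
      simp [itw, hu.symm]
    · simp
  rw [Finset.sum_congr rfl fun q' _ => e1 q', e2] at h2
  have e3 : (A *ᵥ (B *ᵥ Pi.single q 1)) p = ∑ k, A p k * B k q := by
    rw [Matrix.mulVec_mulVec, Matrix.mulVec_single_one]
    rfl
  rw [e3] at h2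
  have e4 : ∑ q', Φ.val (Fin m × ((ι ⊕ κ) ⊕ ν)) (big m X H Y K Z A B)
        (p, Sum.inl (Sum.inl x)) (q', Sum.inr z) * (Pi.single q 1 : Fin m → 𝕜) q' =
      Φ.val (Fin m × ((ι ⊕ κ) ⊕ ν)) (big m X H Y K Z A B)
        (p, Sum.inl (Sum.inl x)) (q, Sum.inr z) := by
    rw [Finset.sum_eq_single q]
    · simp
    · intro u _ hu
      simp [hu]
    · simp
  rw [e4] at h2
  rw [h2, mul_comm]

omit [Fintype ι] [DecidableEq ι] [Fintype κ] [DecidableEq κ] [Fintype ν] [DecidableEq ν] in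
theorem big_zero {m : ℕ} (X : Fin r → Matrix ι ι 𝕜) (H : Fin r → Matrix ι κ 𝕜)
    (Y : Fin r → Matrix κ κ 𝕜) (K : Fin r → Matrix κ ν 𝕜) (Z : Fin r → Matrix ν ν 𝕜) :
    big m X H Y K Z 0 0 = copies m (tri3 X 0 Y 0 Z) := by
  funext i
  unfold big copies
  ext p q
  simp [kroneckerMap_apply]

end copies

/-- a continuous linear map into tuples of matrices -/
noncomputable def linM {σ : Type} [Fintype σ] (m : ℕ) (P Q : Fin r → Matrix σ σ 𝕜) :
    Pairs 𝕜 m →L[𝕜] (Fin r → (Fin m × σ) → (Fin m × σ) → 𝕜) :=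
  ContinuousLinearMap.pi fun i => ContinuousLinearMap.pi fun p => ContinuousLinearMap.pi fun q =>
    P i p.2 q.2 • pA p.1 q.1 + Q i p.2 q.2 • pB p.1 q.1

theorem trank_zero : trank 𝕜 0 0 0 = 0 :=
  Nat.le_zero.mp (Nat.sInf_le ⟨fun t => t.elim0, fun t => t.elim0, fun t => t.elim0,
    fun i => i.elim0⟩)

theorem NCFun.hard {Φ : NCFun 𝕜 r} (hF : ¬ Φ.Flat) :
    ∃ (σ : Type) (_ : Fintype σ) (_ : DecidableEq σ) (W : Fin r → Matrix σ σ 𝕜), W ∈ Φ.dom σ ∧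
      ∀ m a b L : ℕ, Gives 2 a b L (Φ.entries (Fin m × σ)) (copies m W) →
        trank 𝕜 m m m ≤ a * min a b * L := by
  unfold NCFun.Flat at hF
  push Not at hF
  obtain ⟨ι, κ, ν, _, _, _, _, _, _, X, Y, Z, H, K, hX, hY, hZ, x, z, hne⟩ := hF
  have hW : tri3 X 0 Y 0 Z ∈ Φ.dom ((ι ⊕ κ) ⊕ ν) := Φ.tri3_mem hX hY hZ 0 0
  refine ⟨(ι ⊕ κ) ⊕ ν, inferInstance, inferInstance, tri3 X 0 Y 0 Z, hW, fun m a b L hG => ?_⟩
  rcases m with _ | m
  · rw [trank_zero]; exact Nat.zero_le _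
  set P : Fin r → Matrix ((ι ⊕ κ) ⊕ ν) ((ι ⊕ κ) ⊕ ν) 𝕜 :=
    fun i => fromBlocks (fromBlocks 0 (H i) 0 0) 0 0 0
  set Q : Fin r → Matrix ((ι ⊕ κ) ⊕ ν) ((ι ⊕ κ) ⊕ ν) 𝕜 :=
    fun i => fromBlocks 0 (fromRows 0 (K i)) 0 0
  let ψ : Pairs 𝕜 (m + 1) →
      (Fin r → (Fin (m + 1) × ((ι ⊕ κ) ⊕ ν)) → (Fin (m + 1) × ((ι ⊕ κ) ⊕ ν)) → 𝕜) :=
    fun y => big (m + 1) X H Y K Z y.1 y.2
  let c₀ : Fin r → (Fin (m + 1) × ((ι ⊕ κ) ⊕ ν)) → (Fin (m + 1) × ((ι ⊕ κ) ⊕ ν)) → 𝕜 :=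
    copies (m + 1) (tri3 X 0 Y 0 Z)
  have hψ : ∀ y, ψ y = linM (m + 1) P Q y + c₀ := by
    intro y
    funext i p q
    change (1 : Matrix (Fin (m + 1)) (Fin (m + 1)) 𝕜) p.1 q.1 * tri3 X 0 Y 0 Z i p.2 q.2 +
      y.1 p.1 q.1 * P i p.2 q.2 + y.2 p.1 q.1 * Q i p.2 q.2 =
      (P i p.2 q.2 * y.1 p.1 q.1 + Q i p.2 q.2 * y.2 p.1 q.1) +
        (1 : Matrix (Fin (m + 1)) (Fin (m + 1)) 𝕜) p.1 q.1 * tri3 X 0 Y 0 Z i p.2 q.2
    ring
  have h0 : ψ 0 = copies (m + 1) (tri3 X 0 Y 0 Z) := by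
    have := big_zero (m := m + 1) X H Y K Z
    exact this
  have h1 := Gives.comp (linM (m + 1) P Q) c₀ hψ (x := 0)
    (h0.symm ▸ hG)
  have hcont : Continuous ψ := by
    have : ψ = fun y => linM (m + 1) P Q y + c₀ := funext hψ
    rw [this]
    exact (linM (m + 1) P Q).continuous.add continuous_const
  have hdom : ∀ᶠ y in 𝓝 (0 : Pairs 𝕜 (m + 1)), ψ y ∈ Φ.dom (Fin (m + 1) × ((ι ⊕ κ) ⊕ ν)) :=
    hcont.continuousAt.eventually ((Φ.isOpen_dom _).mem_nhds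
      (by rw [h0]; exact Φ.copies_mem hW m))
  refine rank_of_gives hne (h1.congr
    (fun o : Fin (m + 1) × Fin (m + 1) => ((o.1, Sum.inl (Sum.inl x)), (o.2, Sum.inr z))) ?_)
  filter_upwards [hdom] with y hy
  intro o
  exact (Φ.val_big hX H hY K hZ y.1 y.2 hy o.1 o.2 x z).symm

/-- every noncommutative function is affine or at least as hard as matrix multiplication -/
theorem NCFun.dichotomy (Φ : NCFun 𝕜 r) : Φ.Affine ∨
    ∃ (σ : Type) (_ : Fintype σ) (_ : DecidableEq σ) (W : Fin r → Matrix σ σ 𝕜), W ∈ Φ.dom σ ∧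
      ∀ m a b L : ℕ, Gives 2 a b L (Φ.entries (Fin m × σ)) (copies m W) →
        trank 𝕜 m m m ≤ a * min a b * L := by
  by_cases h : Φ.Flat
  · exact Or.inl h.affine
  · exact Or.inr (NCFun.hard h)

end Pool.Agent.Helper51K9.NC
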