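import Pool.Agent.Helper51K9.NC.Grad

/-!
# Additive invariants: the dichotomy
-/

set_option autoImplicit false
set_option linter.unusedSectionVars false

namespace Pool.Agent.Helper51K9.NC

open Matrix Topology Filter Pool.Agent.Y538.Net Pool.Agent.W956.KF

section hard

variable {𝕜 : Type} [NontriviallyNormedField 𝕜] {r : ℕ}

/-- the direction which belongs to the third matrix -/
noncomputable def linC {σ : Type} [Fintype σ] [DecidableEq σ] (m : ℕ) (j : Fin r) (s t : σ) :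
    (Fin m → Fin m → 𝕜) →L[𝕜] (Fin r → (Fin m × σ) → (Fin m × σ) → 𝕜) :=
  ContinuousLinearMap.pi fun i => ContinuousLinearMap.pi fun p => ContinuousLinearMap.pi fun q =>
    (if i = j ∧ p.2 = s ∧ q.2 = t then (1 : 𝕜) else 0) •
      ((ContinuousLinearMap.proj q.1 : (Fin m → 𝕜) →L[𝕜] 𝕜).comp
        (ContinuousLinearMap.proj p.1 : (Fin m → Fin m → 𝕜) →L[𝕜] (Fin m → 𝕜)))

theorem linC_mu {σ : Type} [Fintype σ] [DecidableEq σ] (m : ℕ) (j : Fin r) (s t : σ)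
    (k i : Fin m) : linC m j s t (mu k i : Fin m → Fin m → 𝕜) = eu j (k, s) (i, t) := by
  funext i' p q
  change (if i' = j ∧ p.2 = s ∧ q.2 = t then (1 : 𝕜) else 0) *
    (if p.1 = k ∧ q.1 = i then 1 else 0) = if i' = j ∧ p = (k, s) ∧ q = (i, t) then 1 else 0
  rw [ite_mul, one_mul, zero_mul, ← ite_and]
  refine if_congr ?_ rfl rfl
  simp only [Prod.ext_iff]
  tauto

theorem NCInv.hard {φ : NCInv 𝕜 r} {j : Fin r} (hF : ¬ (φ.grad j).Flat) :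
    ∃ (σ : Type) (_ : Fintype σ) (_ : DecidableEq σ) (W : Fin r → Matrix σ σ 𝕜), W ∈ φ.dom σ ∧
      ∀ m a b L : ℕ, Gives 3 a b L (φ.one (Fin m × σ)) (copies m W) →
        trank 𝕜 m m m ≤ 3 * a ^ 2 * L := by
  unfold NCFun.Flat at hF
  push Not at hF
  obtain ⟨ι, κ, ν, _, _, _, _, _, _, X, Y, Z, H, K, hX, hY, hZ, x, z, hne⟩ := hF
  have hW : tri3 X 0 Y 0 Z ∈ φ.dom ((ι ⊕ κ) ⊕ ν) := (φ.grad j).tri3_mem hX hY hZ 0 0
  refine ⟨(ι ⊕ κ) ⊕ ν, inferInstance, inferInstance, tri3 X 0 Y 0 Z, hW, fun m a b L hG => ?_⟩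
  rcases m with _ | m
  · rw [trank_zero]; exact Nat.zero_le _
  set P : Fin r → Matrix ((ι ⊕ κ) ⊕ ν) ((ι ⊕ κ) ⊕ ν) 𝕜 :=
    fun i => fromBlocks (fromBlocks 0 (H i) 0 0) 0 0 0
  set Q : Fin r → Matrix ((ι ⊕ κ) ⊕ ν) ((ι ⊕ κ) ⊕ ν) 𝕜 :=
    fun i => fromBlocks 0 (fromRows 0 (K i)) 0 0
  let c₀ : Fin r → (Fin (m + 1) × ((ι ⊕ κ) ⊕ ν)) → (Fin (m + 1) × ((ι ⊕ κ) ⊕ ν)) → 𝕜 :=
    copies (m + 1) (tri3 X 0 Y 0 Z)
  let ψ : Pairs 𝕜 (m + 1) →
      (Fin r → (Fin (m + 1) × ((ι ⊕ κ) ⊕ ν)) → (Fin (m + 1) × ((ι ⊕ κ) ⊕ ν)) → 𝕜) :=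
    fun y => big (m + 1) X H Y K Z y.1 y.2
  have hψ : ∀ y, ψ y = linM (m + 1) P Q y + c₀ := by
    intro y
    funext i p q
    change (1 : Matrix (Fin (m + 1)) (Fin (m + 1)) 𝕜) p.1 q.1 * tri3 X 0 Y 0 Z i p.2 q.2 +
      y.1 p.1 q.1 * P i p.2 q.2 + y.2 p.1 q.1 * Q i p.2 q.2 =
      (P i p.2 q.2 * y.1 p.1 q.1 + Q i p.2 q.2 * y.2 p.1 q.1) +
        (1 : Matrix (Fin (m + 1)) (Fin (m + 1)) 𝕜) p.1 q.1 * tri3 X 0 Y 0 Z i p.2 q.2
    ring
  have h0 : ψ 0 = copies (m + 1) (tri3 X 0 Y 0 Z) := by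
    have := big_zero (m := m + 1) X H Y K Z
    exact this
  have hcont : Continuous ψ := by
    have : ψ = fun y => linM (m + 1) P Q y + c₀ := funext hψ
    rw [this]
    exact (linM (m + 1) P Q).continuous.add continuous_const
  have hdom : ∀ᶠ y in 𝓝 (0 : Pairs 𝕜 (m + 1)), ψ y ∈ φ.dom (Fin (m + 1) × ((ι ⊕ κ) ⊕ ν)) :=
    hcont.continuousAt.eventually ((φ.isOpen_dom _).mem_nhds
      (by rw [h0]; exact (φ.grad j).copies_mem hW m))
  -- the affine family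
  let ℓ : Triples 𝕜 (m + 1) →L[𝕜]
      (Fin r → (Fin (m + 1) × ((ι ⊕ κ) ⊕ ν)) → (Fin (m + 1) × ((ι ⊕ κ) ⊕ ν)) → 𝕜) :=
    (linM (m + 1) P Q).comp (ContinuousLinearMap.fst 𝕜 _ _) +
      (linC (m + 1) j (Sum.inr z) (Sum.inl (Sum.inl x))).comp (ContinuousLinearMap.snd 𝕜 _ _)
  let Ψ : Triples 𝕜 (m + 1) →
      (Fin r → (Fin (m + 1) × ((ι ⊕ κ) ⊕ ν)) → (Fin (m + 1) × ((ι ⊕ κ) ⊕ ν)) → 𝕜) :=
    fun y => ℓ y + c₀
  have hΨ0 : ∀ y, Ψ (y, 0) = ψ y := by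
    intro y
    rw [hψ]
    change linM (m + 1) P Q y + linC (m + 1) j (Sum.inr z) (Sum.inl (Sum.inl x)) 0 + c₀ = _
    rw [map_zero, add_zero]
  have hΨ00 : Ψ 0 = copies (m + 1) (tri3 X 0 Y 0 Z) := by
    rw [← h0]
    exact hΨ0 0
  have h1 := Gives.comp ℓ c₀ (ψ := Ψ) (fun _ => rfl) (x := 0) (hΨ00.symm ▸ hG)
  refine rank_of_cubic hne (F := fun y => φ.fn _ (Ψ y)) (h1.congr (fun _ => ())
    (Filter.Eventually.of_forall fun _ _ => rfl)) ?_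
  filter_upwards [hdom] with y hy
  intro i k
  have hy' : ψ y ∈ φ.dom (Fin (m + 1) × ((ι ⊕ κ) ⊕ ν)) := hy
  have hd : DifferentiableAt 𝕜 (φ.fn (Fin (m + 1) × ((ι ⊕ κ) ⊕ ν))) (Ψ (y, 0)) := by
    rw [hΨ0]
    exact φ.fn_diff hy'
  have h2 : HasFDerivAt Ψ ℓ (y, 0) := ℓ.hasFDerivAt.add_const c₀
  have h3 := (hd.hasFDerivAt.comp (y, 0) h2).fderiv
  have h4 : fderiv 𝕜 (fun y => φ.fn (Fin (m + 1) × ((ι ⊕ κ) ⊕ ν)) (Ψ y)) (y, 0) =
      (fderiv 𝕜 (φ.fn (Fin (m + 1) × ((ι ⊕ κ) ⊕ ν))) (Ψ (y, 0))).comp ℓ := h3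
  have h5 : ℓ ((0, mu k i) : Triples 𝕜 (m + 1)) =
      eu j (k, Sum.inr z) (i, Sum.inl (Sum.inl x)) := by
    change linM (m + 1) P Q 0 + linC (m + 1) j (Sum.inr z) (Sum.inl (Sum.inl x)) (mu k i) = _
    rw [map_zero, zero_add, linC_mu]
  rw [h4, ContinuousLinearMap.comp_apply, h5, hΨ0]
  exact (φ.grad j).val_big hX H hY K hZ y.1 y.2 hy i k x z

end hard

section quad

variable {𝕜 : Type} [RCLike 𝕜] {r : ℕ}

theorem NCInv.quadratic_aux (φ : NCInv 𝕜 r) {α : Fin r → 𝕜} {B : Fin r → Fin r → 𝕜}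
    {ι : Type} [Fintype ι] [DecidableEq ι]
    (hα : ∀ j, ∀ X ∈ φ.dom ι, φ.gr j X = α j • (1 : Matrix ι ι 𝕜) + ∑ i, B j i • X i)
    {X : Fin r → ι → ι → 𝕜} (hX : X ∈ φ.dom ι) : ∃ c : 𝕜, ∀ᶠ Y : Fin r → ι → ι → 𝕜 in 𝓝 X,
      φ.fn ι Y = c + (∑ i, α i * ∑ p, Y i p p +
        ∑ i, ∑ j, B j i / 2 * ∑ p, ∑ q, Y i p q * Y j q p) := by
  let f₀ : (Fin r → ι → ι → 𝕜) →L[𝕜] 𝕜 := ∑ j, α j • ∑ p, pe j p p
  let TB : (Fin r → ι → ι → 𝕜) →L[𝕜] (Fin r → ι → ι → 𝕜) →L[𝕜] 𝕜 :=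
    ∑ j, ∑ i, B j i • ∑ p, ∑ q, (pe i p q : (Fin r → ι → ι → 𝕜) →L[𝕜] 𝕜).smulRight
      (pe j q p : (Fin r → ι → ι → 𝕜) →L[𝕜] 𝕜)
  have hf₀ : ∀ V : Fin r → ι → ι → 𝕜, f₀ V = ∑ j, α j * ∑ p, V j p p := by
    intro V
    simp only [f₀, _root_.sum_apply, _root_.smul_apply, pe_apply, smul_eq_mul]
  have hTB : ∀ Y V : Fin r → ι → ι → 𝕜,
      TB Y V = ∑ j, ∑ i, B j i * ∑ p, ∑ q, Y i p q * V j q p := by
    intro Y V
    simp only [TB, _root_.sum_apply, _root_.smul_apply, ContinuousLinearMap.smulRight_apply,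
      pe_apply, smul_eq_mul]
  have hd : ∀ Y : Fin r → ι → ι → 𝕜, Y ∈ φ.dom ι → φ.d Y = f₀ + TB Y := by
    intro Y hY
    refine ContinuousLinearMap.ext fun V => ?_
    rw [φ.d_apply, _root_.add_apply, hf₀, hTB, ← Finset.sum_add_distrib]
    refine Finset.sum_congr rfl fun j _ => ?_
    have h1 : ∀ p q, φ.gr j Y p q = α j * (if p = q then 1 else 0) + ∑ i, B j i * Y i p q := by
      intro p q
      have h2 := congrFun (congrFun (hα j Y hY) p) q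
      rw [Matrix.add_apply, Matrix.smul_apply, Matrix.sum_apply, Matrix.one_apply] at h2
      exact h2
    simp only [h1, add_mul, Finset.sum_add_distrib, Finset.mul_sum, Finset.sum_mul]
    congr 1
    · refine Finset.sum_congr rfl fun p _ => ?_
      rw [Finset.sum_eq_single p]
      · simp
      · intro q _ hq
        simp [hq.symm]
      · simp
    · have e1 : ∀ p, ∑ q, ∑ i, B j i * Y i p q * V j q p =
          ∑ i, ∑ q, B j i * Y i p q * V j q p := fun p => Finset.sum_comm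
      simp only [e1]
      rw [Finset.sum_comm]
      refine Finset.sum_congr rfl fun i _ => Finset.sum_congr rfl fun p _ =>
        Finset.sum_congr rfl fun q _ => ?_
      ring
  have hopen : IsOpen {Y : Fin r → ι → ι → 𝕜 | Y ∈ φ.dom ι} := φ.isOpen_dom ι
  obtain ⟨ε, hε, hball⟩ := Metric.isOpen_iff.mp hopen X hX
  have hder : ∀ Y ∈ Metric.ball X ε, HasFDerivAt (φ.fn ι) (f₀ + TB Y) Y := by
    intro Y hY
    have h1 := (φ.fn_diff (hball hY)).hasFDerivAt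
    rw [← hd Y (hball hY)]
    exact h1
  have hsymm : ∀ v w : Fin r → ι → ι → 𝕜, TB v w = TB w v := by
    intro v w
    refine second_derivative_symmetric_of_eventually (f := φ.fn ι) (f' := fun Y => f₀ + TB Y)
      (x := X) ?_ ?_ v w
    · filter_upwards [Metric.ball_mem_nhds X hε] with Y hY
      exact hder Y hY
    · exact (TB.hasFDerivAt (x := X)).const_add f₀
  let q : (Fin r → ι → ι → 𝕜) → 𝕜 := fun Y => f₀ Y + (1 / 2) * TB Y Y
  have hq : ∀ Y : Fin r → ι → ι → 𝕜, HasFDerivAt q (f₀ + TB Y) Y := by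
    intro Y
    have h1 := (TB.hasFDerivAt (x := Y)).clm_apply (hasFDerivAt_id Y)
    have h2 := (f₀.hasFDerivAt (x := Y)).add (h1.const_mul (1 / 2 : 𝕜))
    refine h2.congr_fderiv ?_
    refine ContinuousLinearMap.ext fun V => ?_
    simp only [_root_.add_apply, _root_.smul_apply, ContinuousLinearMap.comp_apply,
      ContinuousLinearMap.flip_apply, id_eq, ContinuousLinearMap.id_apply, smul_eq_mul]
    rw [hsymm V Y]
    ring
  refine ⟨φ.fn ι X - q X, ?_⟩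
  filter_upwards [Metric.ball_mem_nhds X hε] with Y hY
  have hconst : (fun Z => φ.fn ι Z - q Z) Y = (fun Z => φ.fn ι Z - q Z) X := by
    refine IsOpen.is_const_of_fderiv_eq_zero (𝕜 := 𝕜)
      (f := fun Z : Fin r → ι → ι → 𝕜 => φ.fn ι Z - q Z) Metric.isOpen_ball
      (convex_ball X ε).isPreconnected ?_ ?_ hY (Metric.mem_ball_self hε)
    · intro Z hZ
      exact ((hder Z hZ).sub (hq Z)).differentiableAt.differentiableWithinAt
    · intro Z hZ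
      have h1 := ((hder Z hZ).sub (hq Z)).fderiv
      rw [sub_self] at h1
      exact h1
  have h1 : φ.fn ι Y - q Y = φ.fn ι X - q X := hconst
  have h2 : q Y = ∑ i, α i * ∑ p, Y i p p +
      ∑ i, ∑ j, B j i / 2 * ∑ p, ∑ q, Y i p q * Y j q p := by
    simp only [q, hf₀, hTB]
    congr 1
    simp only [Finset.mul_sum]
    rw [Finset.sum_comm]
    refine Finset.sum_congr rfl fun i _ => Finset.sum_congr rfl fun j _ =>
      Finset.sum_congr rfl fun p _ => Finset.sum_congr rfl fun q _ => ?_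
    ring
  rw [← h2]
  linear_combination h1

theorem NCInv.quadratic_of_affine {φ : NCInv 𝕜 r} (h : ∀ j, (φ.grad j).Affine) :
    φ.Quadratic := by
  choose α B hα using h
  refine ⟨α, fun i j => B j i / 2, fun ι _ _ X hX => ?_⟩
  obtain ⟨c, hc⟩ := φ.quadratic_aux (α := α) (B := B) (ι := ι) (fun j X hX => hα j ι X hX) hX
  refine ⟨c, ?_⟩
  filter_upwards [hc] with Y hY
  refine Eq.trans hY ?_
  rw [add_assoc]
  simp only [Matrix.trace, Matrix.diag, Matrix.mul_apply]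

/-- every additive invariant is locally a quadratic trace polynomial or at least as hard as matrix
multiplication -/
theorem NCInv.dichotomy (φ : NCInv 𝕜 r) : φ.Quadratic ∨
    ∃ (σ : Type) (_ : Fintype σ) (_ : DecidableEq σ) (W : Fin r → Matrix σ σ 𝕜), W ∈ φ.dom σ ∧
      ∀ m a b L : ℕ, Gives 3 a b L (φ.one (Fin m × σ)) (copies m W) →
        trank 𝕜 m m m ≤ 3 * a ^ 2 * L := by
  by_cases h : ∀ j, (φ.grad j).Flat
  · exact Or.inl (NCInv.quadratic_of_affine fun j => (h j).affine)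
  · push Not at h
    obtain ⟨j, hj⟩ := h
    exact Or.inr (NCInv.hard hj)

end quad

end Pool.Agent.Helper51K9.NC
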