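import Pool.Agent.Helper51K9.NC.Inv
import Mathlib.LinearAlgebra.FreeAlgebra

/-!
# Noncommutative polynomials as noncommutative functions
-/

set_option autoImplicit false
set_option linter.unusedSectionVars false

namespace Pool.Agent.Helper51K9.NC

open Matrix Topology Filter Pool.Agent.Y538.Net Pool.Agent.W956.KF

section ev

variable {K : Type} [Field K] {r : ℕ}

variable {R : Type} [CommRing R] [Algebra K R]
variable {ι κ : Type} [Fintype ι] [DecidableEq ι] [Fintype κ] [DecidableEq κ]

theorem ev_sum (p : FreeAlgebra K (Fin r)) (X : Fin r → Matrix ι ι R) (Y : Fin r → Matrix κ κ R) :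
    ev p (fun i => fromBlocks (X i) 0 0 (Y i)) = fromBlocks (ev p X) 0 0 (ev p Y) := by
  unfold ev
  induction p using FreeAlgebra.induction with
  | grade0 c =>
    rw [AlgHom.commutes, AlgHom.commutes, AlgHom.commutes]
    simp only [Algebra.algebraMap_eq_smul_one]
    rw [← fromBlocks_one, fromBlocks_smul]
    simp
  | grade1 i => simp
  | mul a b ha hb =>
    rw [map_mul, map_mul, map_mul, ha, hb, fromBlocks_multiply]
    simp
  | add a b ha hb =>
    rw [map_add, map_add, map_add, ha, hb, fromBlocks_add]
    simp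

theorem ev_sim (p : FreeAlgebra K (Fin r)) (S : Matrix ι κ R) (T : Matrix κ ι R)
    (X : Fin r → Matrix κ κ R) (hST : S * T = 1) (hTS : T * S = 1) :
    ev p (fun i => S * X i * T) = S * ev p X * T := by
  unfold ev
  induction p using FreeAlgebra.induction with
  | grade0 c =>
    rw [AlgHom.commutes, AlgHom.commutes, Algebra.algebraMap_eq_smul_one,
      Algebra.algebraMap_eq_smul_one]
    simp [hST]
  | grade1 i => simp
  | mul a b ha hb =>
    rw [map_mul, map_mul, ha, hb]
    calc S * (FreeAlgebra.lift K) X a * T * (S * (FreeAlgebra.lift K) X b * T)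
        = S * (FreeAlgebra.lift K) X a * (T * S) * (FreeAlgebra.lift K) X b * T := by
          simp only [Matrix.mul_assoc]
      _ = S * ((FreeAlgebra.lift K) X a * (FreeAlgebra.lift K) X b) * T := by
          rw [hTS]; simp only [Matrix.mul_assoc, Matrix.mul_one]
  | add a b ha hb =>
    rw [map_add, map_add, ha, hb, Matrix.mul_add, Matrix.add_mul]

/-- words of bounded length -/
abbrev Wd (r d : ℕ) : Type := {l : List (Fin r) // l.length ≤ d}

noncomputable instance (r d : ℕ) : Fintype (Wd r d) :=
  (List.finite_length_le (Fin r) d).fintype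

/-- the matrices which put a letter in front of a word -/
noncomputable def shiftM (K : Type) [Field K] (r d : ℕ) : Fin r → Matrix (Wd r d) (Wd r d) K :=
  fun i => Matrix.of fun u v => if (u : List (Fin r)) = i :: v then 1 else 0

theorem prod_shift (d : ℕ) (l : List (Fin r)) : ∀ (u : Wd r d),
    (l.map (shiftM K r d)).prod u ⟨[], Nat.zero_le _⟩ =
      if (u : List (Fin r)) = l then 1 else 0 := by
  induction l with
  | nil =>
    intro u
    rw [List.map_nil, List.prod_nil, Matrix.one_apply]
    refine if_congr ?_ rfl rfl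
    rw [Subtype.ext_iff]
  | cons i l ih =>
    intro u
    rw [List.map_cons, List.prod_cons, Matrix.mul_apply]
    simp only [ih]
    by_cases h : (u : List (Fin r)) = i :: l
    · have hl : l.length ≤ d := by
        have h1 := u.2
        rw [h, List.length_cons] at h1
        omega
      rw [if_pos h, Finset.sum_eq_single ⟨l, hl⟩]
      · simp [shiftM, h]
      · intro v _ hv
        have : ¬ (v : List (Fin r)) = l := fun e => hv (Subtype.ext e)
        simp [this]
      · simp
    · rw [if_neg h]
      refine Finset.sum_eq_zero fun v _ => ?_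
      by_cases hv : (v : List (Fin r)) = l
      · have : ¬ (u : List (Fin r)) = i :: (v : List (Fin r)) := by rw [hv]; exact h
        simp [shiftM, this]
      · simp [hv]

theorem basis_eq (w : FreeMonoid (Fin r)) : FreeAlgebra.basisFreeMonoid K (Fin r) w =
    (w.toList.map (FreeAlgebra.ι K)).prod := by
  have h1 : FreeAlgebra.basisFreeMonoid K (Fin r) w = FreeMonoid.lift (FreeAlgebra.ι K) w := by
    simp [FreeAlgebra.basisFreeMonoid, FreeAlgebra.equivMonoidAlgebraFreeMonoid]
  rw [h1, FreeMonoid.lift_apply]

theorem ev_shift (p : FreeAlgebra K (Fin r)) (d : ℕ) (u : Wd r d) :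
    ev p (shiftM K r d) u ⟨[], Nat.zero_le _⟩ =
      (FreeAlgebra.basisFreeMonoid K (Fin r)).repr p (FreeMonoid.ofList (u : List (Fin r))) := by
  -- both sides are linear in `p`
  let f : FreeAlgebra K (Fin r) →ₗ[K] K :=
    { toFun := fun p => ev p (shiftM K r d) u ⟨[], Nat.zero_le _⟩
      map_add' := fun a b => by simp [ev]
      map_smul' := fun c a => by simp [ev] }
  let g : FreeAlgebra K (Fin r) →ₗ[K] K :=
    { toFun := fun p => (FreeAlgebra.basisFreeMonoid K (Fin r)).repr p
        (FreeMonoid.ofList (u : List (Fin r)))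
      map_add' := fun a b => by simp
      map_smul' := fun c a => by simp }
  have hfg : f = g := by
    classical
    refine (FreeAlgebra.basisFreeMonoid K (Fin r)).ext fun w => ?_
    change ev (FreeAlgebra.basisFreeMonoid K (Fin r) w) (shiftM K r d) u ⟨[], Nat.zero_le _⟩ =
      (FreeAlgebra.basisFreeMonoid K (Fin r)).repr (FreeAlgebra.basisFreeMonoid K (Fin r) w)
        (FreeMonoid.ofList (u : List (Fin r)))
    rw [Module.Basis.repr_self, basis_eq, ev, map_list_prod, List.map_map]
    have e : (⇑((FreeAlgebra.lift K) (shiftM K r d)) ∘ FreeAlgebra.ι K : Fin r → _) =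
        shiftM K r d := by
      funext i
      simp
    rw [e, prod_shift, Finsupp.single_apply]
    refine if_congr ?_ rfl rfl
    constructor
    · intro h
      rw [h]
      rfl
    · intro h
      rw [h]
      rfl
  exact congrArg (fun h : FreeAlgebra K (Fin r) →ₗ[K] K => h p) hfg

/-- a noncommutative polynomial which vanishes at all tuples of matrices is zero -/
theorem eq_zero_of_ev {p : FreeAlgebra K (Fin r)} (h : ∀ (ι : Type) [Fintype ι] [DecidableEq ι],
    ∀ X : Fin r → Matrix ι ι K, ev p X = 0) : p = 0 := by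
  refine (FreeAlgebra.basisFreeMonoid K (Fin r)).repr.map_eq_zero_iff.mp ?_
  ext w
  have h1 := ev_shift p w.toList.length ⟨w.toList, le_rfl⟩
  rw [h] at h1
  exact h1.symm

end ev

section ncfun

variable {𝕜 : Type} [NontriviallyNormedField 𝕜] {r : ℕ}

/-- A noncommutative polynomial as a noncommutative function. -/
noncomputable def NCFun.ofPoly (p : FreeAlgebra 𝕜 (Fin r)) : NCFun 𝕜 r where
  dom := fun _ _ _ => Set.univ
  val := fun _ _ _ X => ev p X
  isOpen_dom := fun _ _ _ => isOpen_univ
  sum_dom := fun _ _ _ _ _ _ _ _ _ _ => Set.mem_univ _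
  sum_val := fun _ _ _ _ _ _ X Y _ _ => ev_sum p X Y
  sim_dom := fun _ _ _ _ _ _ _ _ _ _ _ _ => Set.mem_univ _
  sim_val := fun _ _ _ _ _ _ S T X hST hTS _ => ev_sim p S T X hST hTS

theorem affinePoly_of_affine {p : FreeAlgebra 𝕜 (Fin r)} (h : (NCFun.ofPoly p).Affine) :
    AffinePoly p := by
  obtain ⟨α₀, α, hα⟩ := h
  refine ⟨α₀, α, ?_⟩
  rw [← sub_eq_zero]
  refine eq_zero_of_ev fun ι _ _ X => ?_
  have h1 : ev p X = α₀ • (1 : Matrix ι ι 𝕜) + ∑ i, α i • X i := hα ι X (Set.mem_univ _)
  unfold ev at h1 ⊢
  rw [map_sub, map_add, h1, AlgHom.commutes, map_sum, Algebra.algebraMap_eq_smul_one]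
  simp

end ncfun

end Pool.Agent.Helper51K9.NC
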