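import Pool.Agent.Helper51K9.NC.Size

/-!
# Reductions between matrix multiplication and noncommutative polynomials
-/

set_option autoImplicit false
set_option linter.unusedSectionVars false

namespace Pool.Agent.Helper51K9.NC

open Matrix Topology Filter Pool.Agent.Y538.Net Pool.Agent.W956.KF Pool.Agent.H522R2
open Pool.Agent.H88R3.MM (Vars)

section ev

variable {K : Type} [Field K] {r : ℕ} {R : Type} [CommRing R] [Algebra K R]
variable {ι κ : Type} [Fintype ι] [DecidableEq ι] [Fintype κ] [DecidableEq κ]

theorem ev_map (p : FreeAlgebra K (Fin r)) {R' : Type} [CommRing R'] [Algebra K R']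
    (φ : R →ₐ[K] R') (X : Fin r → Matrix ι ι R) :
    (ev p X).map φ = ev p (fun i => (X i).map φ) := by
  have h : (φ.mapMatrix).comp (FreeAlgebra.lift K X) =
      FreeAlgebra.lift K (fun i => (X i).map φ) := by
    refine FreeAlgebra.hom_ext ?_
    funext i
    simp
  exact congrArg (fun f : FreeAlgebra K (Fin r) →ₐ[K] Matrix ι ι R' => f p) h

theorem ev_inter (p : FreeAlgebra K (Fin r)) {A : Fin r → Matrix ι ι R}
    {B : Fin r → Matrix κ κ R} (S : Matrix ι κ R) (h : ∀ i, A i * S = S * B i) :
    ev p A * S = S * ev p B := by
  unfold ev
  induction p using FreeAlgebra.induction with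
  | grade0 c =>
    rw [AlgHom.commutes, AlgHom.commutes, Algebra.algebraMap_eq_smul_one,
      Algebra.algebraMap_eq_smul_one]
    simp
  | grade1 i =>
    rw [FreeAlgebra.lift_ι_apply, FreeAlgebra.lift_ι_apply]
    exact h i
  | mul a b ha hb => rw [map_mul, map_mul, Matrix.mul_assoc, hb, ← Matrix.mul_assoc, ha,
      Matrix.mul_assoc]
  | add a b ha hb => rw [map_add, map_add, Matrix.add_mul, ha, hb, Matrix.mul_add]

/-- the matrix extended by zeros -/
noncomputable def extend (j : ι ↪ κ) (X : Fin r → Matrix ι ι R) : Fin r → Matrix κ κ R :=
  fun i => Matrix.of fun a b =>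
    Function.extend (Prod.map j j) (fun xy : ι × ι => X i xy.1 xy.2) 0 (a, b)

theorem extend_apply (j : ι ↪ κ) (X : Fin r → Matrix ι ι R) (i : Fin r) (x y : ι) :
    extend j X i (j x) (j y) = X i x y := by
  have := (j.injective.prodMap j.injective).extend_apply
    (fun xy : ι × ι => X i xy.1 xy.2) (0 : κ × κ → R) (x, y)
  exact this

theorem extend_zero (j : ι ↪ κ) (X : Fin r → Matrix ι ι R) (i : Fin r) (a b : κ)
    (h : ¬ ∃ x y, j x = a ∧ j y = b) : extend j X i a b = 0 := by
  have := Function.extend_apply' (f := Prod.map j j)
    (fun xy : ι × ι => X i xy.1 xy.2) (0 : κ × κ → R) (a, b) (by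
      rintro ⟨⟨x, y⟩, hxy⟩
      rw [Prod.map_apply, Prod.mk.injEq] at hxy
      exact h ⟨x, y, hxy.1, hxy.2⟩)
  exact this

theorem ev_extend (p : FreeAlgebra K (Fin r)) (j : ι ↪ κ) (X : Fin r → Matrix ι ι R) (x y : ι) :
    ev p (extend j X) (j x) (j y) = ev p X x y := by
  let J : Matrix κ ι R := Matrix.of fun a u => if a = j u then 1 else 0
  have h1 := ev_inter p (A := extend j X) (B := X) J (by
    intro i
    ext a y
    rw [Matrix.mul_apply, Matrix.mul_apply, Finset.sum_eq_single (j y)]
    · by_cases ha : ∃ x, j x = a
      · obtain ⟨x, rfl⟩ := ha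
        rw [Finset.sum_eq_single x]
        · simp [J, extend_apply]
        · intro z _ hz
          have : ¬ j x = j z := fun e => hz (j.injective e).symm
          simp [J, this]
        · simp
      · rw [extend_zero j X i a (j y) (fun ⟨x, _, h, _⟩ => ha ⟨x, h⟩), zero_mul]
        refine (Finset.sum_eq_zero fun x _ => ?_).symm
        have : ¬ a = j x := fun e => ha ⟨x, e.symm⟩
        simp [J, this]
    · intro b _ hb
      simp [J, hb]
    · simp)
  have h2 := congrFun (congrFun h1 (j x)) y
  rw [Matrix.mul_apply, Matrix.mul_apply, Finset.sum_eq_single (j y), Finset.sum_eq_single x] at h2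
  · simpa [J] using h2
  · intro z _ hz
    have : ¬ j x = j z := fun e => hz (j.injective e).symm
    simp [J, this]
  · simp
  · intro b _ hb
    simp [J, hb]
  · simp

end ev

/-! ### Paths -/

section path

variable {K : Type} [Field K] {r : ℕ} {R : Type} [CommRing R] [Algebra K R]

/-- the final segments of a word -/
abbrev Sf (w : List (Fin r)) : Type := {u : List (Fin r) // u ∈ w.tails.toFinset}

theorem mem_sf {w u : List (Fin r)} : u ∈ w.tails.toFinset ↔ u <:+ w := by
  rw [List.mem_toFinset, List.mem_tails]

/-- the empty final segment -/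
def nilS (w : List (Fin r)) : Sf w := ⟨[], mem_sf.mpr (List.nil_suffix)⟩

/-- the word itself -/
def topS (w : List (Fin r)) : Sf w := ⟨w, mem_sf.mpr (List.suffix_refl w)⟩

/-- the matrices which put a letter in front of a final segment -/
noncomputable def stepM (R : Type) [CommRing R] (w : List (Fin r)) :
    Fin r → Matrix (Sf w) (Sf w) R :=
  fun i => Matrix.of fun u v => if (u : List (Fin r)) = i :: v then 1 else 0

theorem prod_step (w l : List (Fin r)) : ∀ u : Sf w,
    (l.map (stepM R w)).prod u (nilS w) = if (u : List (Fin r)) = l then 1 else 0 := by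
  induction l with
  | nil =>
    intro u
    rw [List.map_nil, List.prod_nil, Matrix.one_apply]
    refine if_congr ?_ rfl rfl
    rw [Subtype.ext_iff]
    rfl
  | cons i l ih =>
    intro u
    rw [List.map_cons, List.prod_cons, Matrix.mul_apply]
    simp only [ih]
    by_cases h : (u : List (Fin r)) = i :: l
    · have hl : l <:+ w := by
        have h1 := mem_sf.mp u.2
        rw [h] at h1
        exact (List.suffix_cons i l).trans h1
      rw [if_pos h, Finset.sum_eq_single ⟨l, mem_sf.mpr hl⟩]
      · simp [stepM, h]
      · intro v _ hv
        have : ¬ (v : List (Fin r)) = l := fun e => hv (Subtype.ext e)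
        simp [this]
      · simp
    · rw [if_neg h]
      refine Finset.sum_eq_zero fun v _ => ?_
      by_cases hv : (v : List (Fin r)) = l
      · have : ¬ (u : List (Fin r)) = i :: (v : List (Fin r)) := by rw [hv]; exact h
        simp [stepM, this]
      · simp [hv]

theorem ev_step (p : FreeAlgebra K (Fin r)) (w : List (Fin r)) (u : Sf w) :
    ev p (stepM R w) u (nilS w) = algebraMap K R
      ((FreeAlgebra.basisFreeMonoid K (Fin r)).repr p (FreeMonoid.ofList (u : List (Fin r)))) := by
  let f : FreeAlgebra K (Fin r) →ₗ[K] R :=
    { toFun := fun p => ev p (stepM R w) u (nilS w)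
      map_add' := fun a b => by simp [ev]
      map_smul' := fun c a => by simp [ev] }
  let g : FreeAlgebra K (Fin r) →ₗ[K] R :=
    { toFun := fun p => algebraMap K R ((FreeAlgebra.basisFreeMonoid K (Fin r)).repr p
        (FreeMonoid.ofList (u : List (Fin r))))
      map_add' := fun a b => by simp
      map_smul' := fun c a => by
        rw [map_smul, Finsupp.smul_apply, smul_eq_mul, map_mul, RingHom.id_apply,
          Algebra.smul_def] }
  have hfg : f = g := by
    classical
    refine (FreeAlgebra.basisFreeMonoid K (Fin r)).ext fun v => ?_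
    change ev (FreeAlgebra.basisFreeMonoid K (Fin r) v) (stepM R w) u (nilS w) =
      algebraMap K R ((FreeAlgebra.basisFreeMonoid K (Fin r)).repr
        (FreeAlgebra.basisFreeMonoid K (Fin r) v) (FreeMonoid.ofList (u : List (Fin r))))
    rw [Module.Basis.repr_self, basis_eq, ev, map_list_prod, List.map_map]
    have e : (⇑((FreeAlgebra.lift K) (stepM R w)) ∘ FreeAlgebra.ι K : Fin r → _) =
        stepM R w := by
      funext i
      simp
    rw [e, prod_step, Finsupp.single_apply]
    have h2 : ((u : List (Fin r)) = FreeMonoid.toList v) ↔
        v = FreeMonoid.ofList (u : List (Fin r)) := by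
      constructor
      · intro h
        rw [h]
        rfl
      · intro h
        rw [h]
        rfl
    by_cases h : v = FreeMonoid.ofList (u : List (Fin r))
    · rw [if_pos (h2.mpr h), if_pos h, map_one]
    · rw [if_neg (fun e => h (h2.mp e)), if_neg h, map_zero]
  exact congrArg (fun h : FreeAlgebra K (Fin r) →ₗ[K] R => h p) hfg

/-- the tuple in which two steps of the path carry the matrices `A` and `B` -/
noncomputable def two {m : ℕ} (w : List (Fin r)) (A B : Matrix (Fin m) (Fin m) R) :
    Fin r → Matrix (Fin m × Sf w) (Fin m × Sf w) R := fun i => Matrix.of fun x y =>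
  if (x.2 : List (Fin r)) = i :: y.2 then
    (if (x.2 : List (Fin r)) = w then A x.1 y.1 else if (x.2 : List (Fin r)) = w.tail then
      B x.1 y.1 else if x.1 = y.1 then 1 else 0) else 0

theorem ev_two (p : FreeAlgebra K (Fin r)) {m : ℕ} {w : List (Fin r)} (hw : 2 ≤ w.length)
    (A B : Matrix (Fin m) (Fin m) R) (a b : Fin m) :
    ev p (two w A B) (a, topS w) (b, nilS w) = algebraMap K R
      ((FreeAlgebra.basisFreeMonoid K (Fin r)).repr p (FreeMonoid.ofList w)) *
        ∑ k, A a k * B k b := by
  classical
  have hlt : w.tail.length < w.length := by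
    rw [List.length_tail]
    omega
  have hne : w.tail ≠ w := fun e => by rw [e] at hlt; exact lt_irrefl _ hlt
  have hlt2 : w.tail.tail.length < w.tail.length := by
    rw [List.length_tail, List.length_tail]
    omega
  have hn1 : ([] : List (Fin r)) ≠ w := fun e => by rw [← e] at hw; simp at hw
  have hn2 : ([] : List (Fin r)) ≠ w.tail := fun e => by
    have := congrArg List.length e
    rw [List.length_tail, List.length_nil] at this
    omega
  let v : Fin m → R := Pi.single b 1
  let vec : List (Fin r) → Fin m → R := fun u =>
    if u = w then A *ᵥ (B *ᵥ v) else if u = w.tail then B *ᵥ v else v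
  let T : Matrix (Fin m × Sf w) (Sf w) R := Matrix.of fun x t =>
    if x.2 = t then vec x.2 x.1 else 0
  have h1 := ev_inter p (A := two w A B) (B := stepM R w) T (by
    intro i
    ext ⟨q, u⟩ t
    rw [Matrix.mul_apply, Matrix.mul_apply, Fintype.sum_prod_type]
    have e1 : ∀ q' : Fin m, ∑ u', two w A B i (q, u) (q', u') * T (q', u') t =
        two w A B i (q, u) (q', t) * vec t q' := by
      intro q'
      rw [Finset.sum_eq_single t]
      · simp [T]
      · intro u' _ hu
        simp [T, hu]
      · simp
    have e2 : ∑ u', T (q, u) u' * stepM R w i u' t = vec u q * stepM R w i u t := by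
      rw [Finset.sum_eq_single u]
      · simp [T]
      · intro u' _ hu
        simp [T, hu.symm]
      · simp
    rw [Finset.sum_congr rfl fun q' _ => e1 q', e2]
    by_cases hu : (u : List (Fin r)) = i :: t
    · have hs : (u : List (Fin r)) <:+ w := mem_sf.mp u.2
      have e3 : stepM R w i u t = 1 := by simp [stepM, hu]
      have htail : (u : List (Fin r)).tail = t := by rw [hu, List.tail_cons]
      have hlen : (t : List (Fin r)).length < (u : List (Fin r)).length := by
        rw [hu, List.length_cons]; omega
      rw [e3, mul_one]
      by_cases hu1 : (u : List (Fin r)) = w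
      · have ht : (t : List (Fin r)) = w.tail := by rw [← htail, hu1]
        have e4 : ∀ q', two w A B i (q, u) (q', t) = A q q' := by
          intro q'
          simp only [two, Matrix.of_apply]
          rw [if_pos hu, if_pos hu1]
        have e5 : vec t = B *ᵥ v := by
          simp only [vec]
          rw [ht, if_neg hne, if_pos rfl]
        have e6 : vec u = A *ᵥ (B *ᵥ v) := by
          simp only [vec]
          rw [if_pos hu1]
        simp only [e4, e5, e6]
        rfl
      · by_cases hu2 : (u : List (Fin r)) = w.tail
        · have ht : (t : List (Fin r)) = w.tail.tail := by rw [← htail, hu2]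
          have e4 : ∀ q', two w A B i (q, u) (q', t) = B q q' := by
            intro q'
            simp only [two, Matrix.of_apply]
            rw [if_pos hu, if_neg hu1, if_pos hu2]
          have ht1 : (t : List (Fin r)) ≠ w := fun e => by
            have h6 := congrArg List.length ht
            rw [e] at h6
            omega
          have ht2 : (t : List (Fin r)) ≠ w.tail := fun e => by
            rw [← ht, e] at hlt2
            exact lt_irrefl _ hlt2
          have e5 : vec t = v := by
            simp only [vec]
            rw [if_neg ht1, if_neg ht2]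
          have e6 : vec u = B *ᵥ v := by
            simp only [vec]
            rw [if_neg hu1, if_pos hu2]
          simp only [e4, e5, e6]
          rfl
        · have e4 : ∀ q', two w A B i (q, u) (q', t) = if q = q' then 1 else 0 := by
            intro q'
            simp only [two, Matrix.of_apply]
            rw [if_pos hu, if_neg hu1, if_neg hu2]
          have hule := hs.length_le
          have ht1 : (t : List (Fin r)) ≠ w := fun e => by
            rw [e] at hlen
            omega
          have ht2 : (t : List (Fin r)) ≠ w.tail := fun e => by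
            have h5 : (t : List (Fin r)).length = w.length - 1 := by
              rw [e, List.length_tail]
            exact hu1 (hs.eq_of_length (by omega))
          have e5 : vec t = v := by
            simp only [vec]
            rw [if_neg ht1, if_neg ht2]
          have e6 : vec u = v := by
            simp only [vec]
            rw [if_neg hu1, if_neg hu2]
          simp only [e4, e5, e6]
          simp
    · have e3 : stepM R w i u t = 0 := by simp [stepM, hu]
      have e4 : ∀ q', two w A B i (q, u) (q', t) = 0 := by
        intro q'
        simp only [two, Matrix.of_apply]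
        rw [if_neg hu]
      simp [e3, e4])
  have h2 := congrFun (congrFun h1 (a, topS w)) (nilS w)
  rw [Matrix.mul_apply, Matrix.mul_apply, Fintype.sum_prod_type] at h2
  have e1 : ∀ q' : Fin m, ∑ u', ev p (two w A B) (a, topS w) (q', u') * T (q', u') (nilS w) =
      ev p (two w A B) (a, topS w) (q', nilS w) * v q' := by
    intro q'
    rw [Finset.sum_eq_single (nilS w)]
    · have : vec (nilS w : Sf w) = v := by
        simp only [vec]
        rw [if_neg (by exact hn1), if_neg (by exact hn2)]
      simp [T, this]
    · intro u' _ hu
      simp [T, hu]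
    · simp
  have e2 : ∑ u', T (a, topS w) u' * ev p (stepM R w) u' (nilS w) =
      (A *ᵥ (B *ᵥ v)) a * ev p (stepM R w) (topS w) (nilS w) := by
    rw [Finset.sum_eq_single (topS w)]
    · have : vec (topS w : Sf w) = A *ᵥ (B *ᵥ v) := by
        simp only [vec]
        rw [if_pos (by rfl)]
      simp [T, this]
    · intro u' _ hu
      simp [T, hu.symm]
    · simp
  rw [Finset.sum_congr rfl fun q' _ => e1 q', e2, ev_step] at h2
  have e3 : (A *ᵥ (B *ᵥ v)) a = ∑ k, A a k * B k b := by
    simp only [v]
    rw [Matrix.mulVec_mulVec, Matrix.mulVec_single_one]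
    rfl
  have e4 : ∑ q', ev p (two w A B) (a, topS w) (q', nilS w) * v q' =
      ev p (two w A B) (a, topS w) (b, nilS w) := by
    simp only [v]
    rw [Finset.sum_eq_single b]
    · simp
    · intro u _ hu
      simp [hu]
    · simp
  rw [e4, e3] at h2
  rw [h2, mul_comm]
  rfl

end path

/-- a polynomial which is not affine has a long word -/
theorem exists_word {K : Type} [Field K] {r : ℕ} {p : FreeAlgebra K (Fin r)}
    (hp : ¬ AffinePoly p) : ∃ w : List (Fin r), 2 ≤ w.length ∧
      (FreeAlgebra.basisFreeMonoid K (Fin r)).repr p (FreeMonoid.ofList w) ≠ 0 := by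
  classical
  by_contra hcon
  push Not at hcon
  refine hp ⟨(FreeAlgebra.basisFreeMonoid K (Fin r)).repr p (FreeMonoid.ofList []),
    fun i => (FreeAlgebra.basisFreeMonoid K (Fin r)).repr p (FreeMonoid.ofList [i]), ?_⟩
  have e0 : (algebraMap K (FreeAlgebra K (Fin r))
      ((FreeAlgebra.basisFreeMonoid K (Fin r)).repr p (FreeMonoid.ofList []))) =
      ((FreeAlgebra.basisFreeMonoid K (Fin r)).repr p (FreeMonoid.ofList [])) •
        FreeAlgebra.basisFreeMonoid K (Fin r) (FreeMonoid.ofList []) := by
    rw [basis_eq]
    simp [Algebra.algebraMap_eq_smul_one]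
  have e1 : ∀ i, FreeAlgebra.ι K i =
      FreeAlgebra.basisFreeMonoid K (Fin r) (FreeMonoid.ofList [i]) := by
    intro i
    rw [basis_eq]
    simp
  rw [e0]
  simp only [e1]
  apply (FreeAlgebra.basisFreeMonoid K (Fin r)).repr.injective
  rw [map_add, map_smul, map_sum, Module.Basis.repr_self]
  simp only [map_smul, Module.Basis.repr_self]
  ext w
  rw [Finsupp.add_apply, Finsupp.smul_apply, Finsupp.single_apply, Finsupp.finsetSum_apply]
  simp only [Finsupp.smul_apply, Finsupp.single_apply, smul_eq_mul, mul_ite, mul_one, mul_zero]
  rcases hw : FreeMonoid.toList w with _ | ⟨i, _ | ⟨j, l⟩⟩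
  · have hw' : w = FreeMonoid.ofList [] := by rw [← hw]; rfl
    subst hw'
    rw [if_pos rfl, Finset.sum_eq_zero, add_zero]
    intro i _
    rw [if_neg]
    intro e
    have := congrArg FreeMonoid.toList e
    simp at this
  · have hw' : w = FreeMonoid.ofList [i] := by rw [← hw]; rfl
    subst hw'
    rw [if_neg, zero_add, Finset.sum_eq_single i, if_pos rfl]
    · intro k _ hk
      rw [if_neg]
      intro e
      have := congrArg FreeMonoid.toList e
      simp at this
      exact hk this
    · simp
    · intro e
      have := congrArg FreeMonoid.toList e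
      simp at this
  · have hw' : w = FreeMonoid.ofList (i :: j :: l) := by rw [← hw]; rfl
    subst hw'
    rw [hcon (i :: j :: l) (by simp), if_neg, zero_add, Finset.sum_eq_zero]
    · intro k _
      rw [if_neg]
      intro e
      have := congrArg FreeMonoid.toList e
      simp at this
    · intro e
      have := congrArg FreeMonoid.toList e
      simp at this

end Pool.Agent.Helper51K9.NC
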