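import Pool.Agent.Helper51K9.NC.Poly
import Pool.Agent.Helper16K9.Adds.Equiv

/-!
# Circuit sizes of noncommutative polynomials
-/

set_option autoImplicit false
set_option linter.unusedSectionVars false

namespace Pool.Agent.Helper51K9.NC

open Matrix Topology Filter Pool.Agent.Y538.Net Pool.Agent.W956.KF Pool.Agent.H522R2
open Pool.Agent.H88R3.MM (Vars)

/-! ### Circuits and networks -/

section nets

variable {𝕜 : Type} [NontriviallyNormedField 𝕜] {E : Type} [NormedAddCommGroup E]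
  [NormedSpace 𝕜 E] {b : ℕ}

theorem aff_congr {g g' : ℕ → Fin b → E → 𝕜} {s : ℕ} (h : ∀ l < s, g l = g' l) :
    Aff g s = Aff g' s := by
  unfold Aff
  congr 2
  ext f
  constructor
  · rintro ⟨l, hl, o, rfl⟩
    exact ⟨l, hl, o, by rw [h l hl]⟩
  · rintro ⟨l, hl, o, rfl⟩
    exact ⟨l, hl, o, by rw [h l hl]⟩

theorem aff_mono {g : ℕ → Fin b → E → 𝕜} {s s' : ℕ} (h : s ≤ s') : Aff g s ≤ Aff g s' := by
  unfold Aff
  refine Submodule.span_mono (Set.union_subset_union_right _ ?_)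
  rintro f ⟨l, hl, o, rfl⟩
  exact ⟨l, by omega, o, rfl⟩

theorem net_extend {k : WithTop ℕ∞} {s : ℕ} {g : ℕ → Fin 1 → E → 𝕜}
    (h : IsNetK k 2 1 s Set.univ g) {u v : E → 𝕜} (hu : u ∈ Aff g s) (hv : v ∈ Aff g s) :
    ∃ g' : ℕ → Fin 1 → E → 𝕜, IsNetK k 2 1 (s + 1) Set.univ g' ∧ Aff g s ≤ Aff g' (s + 1) ∧
      (fun x => u x * v x) ∈ Aff g' (s + 1) := by
  classical
  let g' : ℕ → Fin 1 → E → 𝕜 := fun l o x => if l < s then g l o x else u x * v x
  have hg : ∀ l < s, g l = g' l := by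
    intro l hl
    funext o x
    simp [g', hl]
  have hA : ∀ l ≤ s, Aff g l = Aff g' l := fun l hl => aff_congr fun i hi => hg i (by omega)
  refine ⟨g', ⟨isOpen_univ, fun l hl => ?_⟩, ?_, ?_⟩
  · by_cases hls : l < s
    · obtain ⟨w, φ, hw, hφ⟩ := h.2 l hls
      refine ⟨w, φ, fun i => hA l hls.le ▸ hw i, fun x hx => ⟨(hφ x hx).1, fun o => ?_⟩⟩
      rw [← hg l hls]
      exact (hφ x hx).2 o
    · have hle : l = s := by omega
      subst hle
      refine ⟨![u, v], fun y _ => y 0 * y 1, ?_, fun x _ => ⟨?_, fun o => ?_⟩⟩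
      · intro i
        rw [← hA l le_rfl]
        fin_cases i
        · exact hu
        · exact hv
      · refine contDiffAt_pi.mpr fun _ => ?_
        exact (contDiff_apply 𝕜 𝕜 (0 : Fin 2)).contDiffAt.mul
          (contDiff_apply 𝕜 𝕜 (1 : Fin 2)).contDiffAt
      · simp [g']
  · rw [hA s le_rfl]
    exact aff_mono (Nat.le_succ s)
  · refine Submodule.subset_span (Or.inr ⟨s, Nat.lt_succ_self s, 0, ?_⟩)
    funext x
    simp [g']

theorem net_of_reach {V : Type} [Fintype V] (k : WithTop ℕ∞) {s : ℕ}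
    {T : Set (MvPolynomial V 𝕜)} (h : Reach (inputs 𝕜 V) s T) :
    ∃ g : ℕ → Fin 1 → (V → 𝕜) → 𝕜, IsNetK k 2 1 s Set.univ g ∧
      ∀ P ∈ T, (fun x : V → 𝕜 => MvPolynomial.eval x P) ∈ Aff g s := by
  induction h with
  | refl =>
    refine ⟨fun _ _ _ => 0, ⟨isOpen_univ, fun l hl => absurd hl (Nat.not_lt_zero l)⟩, ?_⟩
    rintro P (⟨v, rfl⟩ | ⟨c, rfl⟩)
    · refine Submodule.subset_span (Or.inl ⟨ContinuousLinearMap.proj v, 0, ?_⟩)
      funext x
      simp
    · refine Submodule.subset_span (Or.inl ⟨0, c, ?_⟩)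
      funext x
      simp
  | @add s T' x y _ hx hy ih =>
    obtain ⟨g, hg, hP⟩ := ih
    obtain ⟨g', h1, h2, h3⟩ := net_extend hg (Submodule.zero_mem _) (Submodule.zero_mem _)
    refine ⟨g', h1, ?_⟩
    intro P hPm
    rcases Set.mem_insert_iff.mp hPm with rfl | hPm
    · refine h2 ?_
      have : (fun z : V → 𝕜 => MvPolynomial.eval z (x + y)) =
          (fun z => MvPolynomial.eval z x) + fun z => MvPolynomial.eval z y := by
        funext z
        simp
      rw [this]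
      exact Submodule.add_mem _ (hP x hx) (hP y hy)
    · exact h2 (hP P hPm)
  | @mul s T' x y _ hx hy ih =>
    obtain ⟨g, hg, hP⟩ := ih
    obtain ⟨g', h1, h2, h3⟩ := net_extend hg (hP x hx) (hP y hy)
    refine ⟨g', h1, ?_⟩
    intro P hPm
    rcases Set.mem_insert_iff.mp hPm with rfl | hPm
    · have : (fun z : V → 𝕜 => MvPolynomial.eval z (x * y)) =
          fun z => MvPolynomial.eval z x * MvPolynomial.eval z y := by
        funext z
        simp
      rw [this]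
      exact h3
    · exact h2 (hP P hPm)

/-- a circuit is a network, at every input -/
theorem gives_of_circuit {V κ : Type} [Fintype V] (k : WithTop ℕ∞) (C : Circuit 𝕜 V)
    (F : κ → MvPolynomial V 𝕜) (h : ∀ o, ∃ v, C.poly v = F o) (x : V → 𝕜) :
    ∃ s ≤ C.size, Gives k 2 1 s (fun (x : V → 𝕜) o => MvPolynomial.eval x (F o)) x := by
  obtain ⟨s, hs, T, hT, hsub⟩ := cost_of_circuit C
  obtain ⟨g, hg, hP⟩ := net_of_reach k hT
  refine ⟨s, hs, Set.univ, g, hg, Set.mem_univ x, fun o => ?_⟩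
  obtain ⟨v, hv⟩ := h o
  refine ⟨_, hP (F o) (hsub ⟨v, hv⟩), Filter.EventuallyEq.rfl⟩

end nets

/-! ### Upper bounds -/

section upper

variable {K : Type} [Field K] {r : ℕ}

theorem costMM_size (K : Type) [Field K] (m : ℕ) : CostMM K (Fin m) (sizeMM K m) := by
  intro R _ _ T hT A B hA hB
  let φ : MvPolynomial (Vars m) K →+* R :=
    MvPolynomial.eval₂Hom (algebraMap K R)
      (Sum.elim (fun x => A x.1 x.2) fun x => B x.1 x.2)
  refine ((cost_MM_sizeMM K m).map φ).mono ?_ ?_ le_rfl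
  · rintro _ ⟨_, ⟨v, rfl⟩ | ⟨c, rfl⟩, rfl⟩
    · rcases v with v | v
      · simpa [φ] using hA _ _
      · simpa [φ] using hB _ _
    · simpa [φ] using hT c
  · rintro _ ⟨i, j, rfl⟩
    refine ⟨_, ⟨(i, j), rfl⟩, ?_⟩
    simp only [entryMM, map_sum, map_mul, Matrix.mul_apply]
    refine Finset.sum_congr rfl fun k _ => ?_
    simp [φ]

theorem cost_ev (p : FreeAlgebra K (Fin r)) : ∃ c : ℕ, ∀ (m : ℕ) (R : Type) [CommRing R]
    [Algebra K R] (T : Set R), (∀ c : K, algebraMap K R c ∈ T) →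
    ∀ X : Fin r → Matrix (Fin m) (Fin m) R, (∀ i a b, X i a b ∈ T) →
      Cost T {x | ∃ a b, x = ev p X a b} (c * (sizeMM K m + m ^ 2)) := by
  induction p using FreeAlgebra.induction with
  | grade0 c =>
    refine ⟨0, fun m R _ _ T hT X hX => Cost.of_subset ?_ _⟩
    rintro x ⟨a, b, rfl⟩
    unfold ev
    rw [AlgHom.commutes, Algebra.algebraMap_eq_smul_one, Matrix.smul_apply, Matrix.one_apply]
    split_ifs
    · rw [← Algebra.algebraMap_eq_smul_one]
      exact hT c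
    · rw [smul_zero]
      simpa using hT 0
  | grade1 i =>
    refine ⟨0, fun m R _ _ T hT X hX => Cost.of_subset ?_ _⟩
    rintro x ⟨a, b, rfl⟩
    unfold ev
    rw [FreeAlgebra.lift_ι_apply]
    exact hX i a b
  | mul p q hp hq =>
    obtain ⟨c, hc⟩ := hp
    obtain ⟨d, hd⟩ := hq
    refine ⟨c + d + 1, fun m R _ _ T hT X hX => ?_⟩
    have h1 := (hc m R T hT X hX).union (hd m R T hT X hX)
    have h2 := costMM_size K m R (T ∪ ({x | ∃ a b, x = ev p X a b} ∪ {x | ∃ a b, x = ev q X a b}))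
      (fun c => Or.inl (hT c)) (ev p X) (ev q X) (fun i j => Or.inr (Or.inl ⟨i, j, rfl⟩))
      (fun i j => Or.inr (Or.inr ⟨i, j, rfl⟩))
    refine (h1.comp h2).mono subset_rfl ?_ ?_
    · rintro x ⟨a, b, rfl⟩
      refine Or.inr ⟨a, b, ?_⟩
      unfold ev
      rw [map_mul]
    · nlinarith [sq_nonneg m]
  | add p q hp hq =>
    obtain ⟨c, hc⟩ := hp
    obtain ⟨d, hd⟩ := hq
    refine ⟨c + d + 1, fun m R _ _ T hT X hX => ?_⟩
    have h1 := (hc m R T hT X hX).union (hd m R T hT X hX)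
    have h2 : Cost (T ∪ ({x | ∃ a b, x = ev p X a b} ∪ {x | ∃ a b, x = ev q X a b}))
        (Set.range fun t : Fin m × Fin m => ev p X t.1 t.2 + ev q X t.1 t.2)
        (Fintype.card (Fin m × Fin m) * 1) := Cost.range fun t =>
      Cost.add (Or.inr (Or.inl ⟨t.1, t.2, rfl⟩)) (Or.inr (Or.inr ⟨t.1, t.2, rfl⟩))
    refine (h1.comp h2).mono subset_rfl ?_ ?_
    · rintro x ⟨a, b, rfl⟩
      refine Or.inr ⟨(a, b), ?_⟩
      unfold ev
      rw [map_add]
      rfl
    · simp only [Fintype.card_prod, Fintype.card_fin]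
      nlinarith

theorem exists_circuit_NC (p : FreeAlgebra K (Fin r)) (m : ℕ) :
    ∃ C : Circuit K (Fin r × Fin m × Fin m),
      (∀ a b : Fin m, ∃ v : Fin C.nodes, C.poly v = ev p (gen K r m) a b) ∧
        C.size = sizeNC p m := by
  obtain ⟨c, hc⟩ := cost_ev p
  have h1 := hc m (MvPolynomial (Fin r × Fin m × Fin m) K) (inputs K _) C_mem_inputs (gen K r m)
    (fun i a b => X_mem_inputs _)
  have hfin : {x | ∃ a b, x = ev p (gen K r m) a b}.Finite := by
    refine (Set.finite_range fun t : Fin m × Fin m => ev p (gen K r m) t.1 t.2).subset ?_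
    rintro x ⟨a, b, rfl⟩
    exact ⟨(a, b), rfl⟩
  obtain ⟨C, h2, h3⟩ := exists_circuit_of_cost hfin h1
  exact Nat.sInf_mem (s := {s | ∃ C : Circuit K (Fin r × Fin m × Fin m),
    (∀ a b : Fin m, ∃ v : Fin C.nodes, C.poly v = ev p (gen K r m) a b) ∧ C.size = s})
    ⟨C.size, C, fun a b => h3 _ ⟨a, b, rfl⟩, rfl⟩

theorem sizeNC_le (p : FreeAlgebra K (Fin r)) : ∃ c : ℕ, ∀ m,
    sizeNC p m ≤ c * (sizeMM K m + m ^ 2) := by
  obtain ⟨c, hc⟩ := cost_ev p
  refine ⟨c, fun m => ?_⟩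
  have h1 := hc m (MvPolynomial (Fin r × Fin m × Fin m) K) (inputs K _) C_mem_inputs (gen K r m)
    (fun i a b => X_mem_inputs _)
  have hfin : {x | ∃ a b, x = ev p (gen K r m) a b}.Finite := by
    refine (Set.finite_range fun t : Fin m × Fin m => ev p (gen K r m) t.1 t.2).subset ?_
    rintro x ⟨a, b, rfl⟩
    exact ⟨(a, b), rfl⟩
  obtain ⟨C, h2, h3⟩ := exists_circuit_of_cost hfin h1
  exact le_trans (Nat.sInf_le ⟨C, fun a b => h3 _ ⟨a, b, rfl⟩, rfl⟩) h2

theorem cost_tr (p : FreeAlgebra K (Fin r)) (m : ℕ) : Cost (inputs K (Fin r × Fin m × Fin m))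
    {(ev p (gen K r m)).trace} (sizeNC p m + m) := by
  obtain ⟨C, h1, h2⟩ := exists_circuit_NC p m
  let S : Set (MvPolynomial (Fin r × Fin m × Fin m) K) := {x | ∃ a b, x = ev p (gen K r m) a b}
  have h3 : Cost (inputs K (Fin r × Fin m × Fin m)) S (sizeNC p m) := by
    refine (cost_of_circuit C).mono subset_rfl ?_ h2.le
    rintro _ ⟨a, b, rfl⟩
    exact h1 a b
  have h0 : (0 : MvPolynomial (Fin r × Fin m × Fin m) K) ∈ inputs K (Fin r × Fin m × Fin m) := by
    simpa using C_mem_inputs (K := K) (V := Fin r × Fin m × Fin m) 0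
  have h4 : Cost (inputs K (Fin r × Fin m × Fin m) ∪ S)
      {∑ a : Fin m, ev p (gen K r m) a a} (Finset.univ : Finset (Fin m)).card := by
    refine Cost.sum (Set.mem_union_left _ h0) Finset.univ
      (fun a : Fin m => ev p (gen K r m) a a) fun a _ => ?_
    exact Or.inr ⟨a, a, rfl⟩
  refine (h3.comp h4).mono subset_rfl ?_ (by simp)
  rintro _ rfl
  exact Or.inr rfl

theorem exists_circuit_tr (p : FreeAlgebra K (Fin r)) (m : ℕ) :
    ∃ C : Circuit K (Fin r × Fin m × Fin m),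
      (∃ v : Fin C.nodes, C.poly v = (ev p (gen K r m)).trace) ∧ C.size = sizeTr p m := by
  obtain ⟨C, h2, h3⟩ := exists_circuit_of_cost (Set.finite_singleton _) (cost_tr p m)
  exact Nat.sInf_mem (s := {s | ∃ C : Circuit K (Fin r × Fin m × Fin m),
    (∃ v : Fin C.nodes, C.poly v = (ev p (gen K r m)).trace) ∧ C.size = s})
    ⟨C.size, C, h3 _ rfl, rfl⟩

theorem sizeTr_le (p : FreeAlgebra K (Fin r)) (m : ℕ) : sizeTr p m ≤ sizeNC p m + m := by
  obtain ⟨C, h2, h3⟩ := exists_circuit_of_cost (Set.finite_singleton _) (cost_tr p m)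
  exact le_trans (Nat.sInf_le ⟨C, h3 _ rfl, rfl⟩) h2

end upper

end Pool.Agent.Helper51K9.NC
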