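import Pool.Agent.Helper51K9.NC.Equiv

/-!
# Traces of noncommutative polynomials
-/

set_option autoImplicit false
set_option linter.unusedSectionVars false

namespace Pool.Agent.Helper51K9.NC

open Matrix Topology Filter Pool.Agent.Y538.Net Pool.Agent.W956.KF Pool.Agent.H522R2
open Pool.Agent.H88R3.MM (Vars)

section basic

variable {K : Type} [Field K] {r : ℕ} {R : Type} [CommRing R] [Algebra K R]
variable {ι κ : Type} [Fintype ι] [DecidableEq ι] [Fintype κ] [DecidableEq κ]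

/-- the constant term -/
noncomputable def ct (p : FreeAlgebra K (Fin r)) : K := FreeAlgebra.lift K (0 : Fin r → K) p

theorem ev_zero (p : FreeAlgebra K (Fin r)) :
    ev p (0 : Fin r → Matrix ι ι R) = algebraMap K R (ct p) • (1 : Matrix ι ι R) := by
  have h : (Algebra.ofId K (Matrix ι ι R)).comp (FreeAlgebra.lift K (0 : Fin r → K)) =
      FreeAlgebra.lift K (0 : Fin r → Matrix ι ι R) := by
    refine FreeAlgebra.hom_ext ?_
    funext i
    simp
  have h2 := congrArg (fun f : FreeAlgebra K (Fin r) →ₐ[K] Matrix ι ι R => f p) h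
  refine h2.symm.trans ?_
  change algebraMap K (Matrix ι ι R) (ct p) = _
  rw [Algebra.algebraMap_eq_smul_one, algebraMap_smul]

theorem ev_submatrix (p : FreeAlgebra K (Fin r)) (e : ι ≃ κ) (X : Fin r → Matrix κ κ R) :
    ev p (fun i => (X i).submatrix e e) = (ev p X).submatrix e e := by
  have h := ev_sim p ((1 : Matrix κ κ R).submatrix e (Equiv.refl κ))
    ((1 : Matrix κ κ R).submatrix (Equiv.refl κ) e) X
    (by rw [Matrix.submatrix_mul_equiv, Matrix.mul_one, Matrix.submatrix_one_equiv])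
    (by rw [Matrix.submatrix_mul_equiv, Matrix.mul_one, Matrix.submatrix_one_equiv])
  have e1 : ∀ Y : Matrix κ κ R, (1 : Matrix κ κ R).submatrix e (Equiv.refl κ) * Y *
      (1 : Matrix κ κ R).submatrix (Equiv.refl κ) e = Y.submatrix e e := by
    intro Y
    have h1 : Y = Y.submatrix (Equiv.refl κ) (Equiv.refl κ) := rfl
    conv_lhs => rw [h1]
    rw [Matrix.submatrix_mul_equiv, Matrix.submatrix_mul_equiv, Matrix.one_mul, Matrix.mul_one]
  simpa only [e1] using h

theorem trace_submatrix' (e : ι ≃ κ) (X : Matrix κ κ R) : (X.submatrix e e).trace = X.trace := by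
  simp only [Matrix.trace, Matrix.diag, Matrix.submatrix_apply]
  exact e.sum_comp (fun k => X k k)

end basic

section tr

variable {𝕜 : Type} [NontriviallyNormedField 𝕜] {r : ℕ}

theorem ev_diff (p : FreeAlgebra 𝕜 (Fin r)) {ι : Type} [Fintype ι] [DecidableEq ι] (a b : ι)
    (X : Fin r → ι → ι → 𝕜) :
    DifferentiableAt 𝕜 (fun Y : Fin r → ι → ι → 𝕜 => ev p (fun i => Matrix.of (Y i)) a b) X
    := by
  unfold ev
  induction p using FreeAlgebra.induction generalizing a b with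
  | grade0 c =>
    simp only [AlgHom.commutes]
    exact differentiableAt_const _
  | grade1 i =>
    simp only [FreeAlgebra.lift_ι_apply]
    exact (((ContinuousLinearMap.proj b : (ι → 𝕜) →L[𝕜] 𝕜).comp
      ((ContinuousLinearMap.proj a : (ι → ι → 𝕜) →L[𝕜] (ι → 𝕜)).comp
        (ContinuousLinearMap.proj i : (Fin r → ι → ι → 𝕜) →L[𝕜] (ι → ι → 𝕜))))).differentiableAt
  | mul x y hx hy =>
    simp only [map_mul, Matrix.mul_apply]
    exact DifferentiableAt.fun_sum fun k _ => (hx a k).mul (hy k b)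
  | add x y hx hy =>
    simp only [map_add, Matrix.add_apply]
    exact (hx a b).add (hy a b)

theorem trace_blocks {R ι κ : Type} [CommRing R] [Fintype ι] [Fintype κ] (X : Matrix ι ι R)
    (Y : Matrix κ κ R) : (fromBlocks X 0 0 Y).trace = X.trace + Y.trace := by
  simp [Matrix.trace, Fintype.sum_sum_type]

/-- The trace of a noncommutative polynomial as an additive invariant. -/
noncomputable def NCInv.ofTr (p : FreeAlgebra 𝕜 (Fin r)) : NCInv 𝕜 r where
  dom := fun _ _ _ => Set.univ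
  val := fun _ _ _ X => (ev p X).trace
  isOpen_dom := fun _ _ _ => isOpen_univ
  differentiable := fun ι _ _ X _ => by
    simp only [Matrix.trace, Matrix.diag]
    exact DifferentiableAt.fun_sum fun k _ => ev_diff p k k X
  sum_dom := fun _ _ _ _ _ _ _ _ _ _ => Set.mem_univ _
  sum_val := fun _ _ _ _ _ _ X Y _ _ => by
    rw [ev_sum, trace_blocks]
  sim_dom := fun _ _ _ _ _ _ _ _ _ _ _ _ => Set.mem_univ _
  sim_val := fun _ _ _ _ _ _ S T X hST hTS _ => by
    rw [ev_sim p S T X hST hTS, Matrix.trace_mul_comm, ← Matrix.mul_assoc, hTS, Matrix.one_mul]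

end tr

section rc

variable {𝕜 : Type} [RCLike 𝕜] {r : ℕ}

theorem quadraticTrace_of_quadratic {p : FreeAlgebra 𝕜 (Fin r)}
    (h : (NCInv.ofTr p).Quadratic) : QuadraticTrace p := by
  obtain ⟨α, β, h⟩ := h
  refine ⟨ct p, α, β, fun ι _ _ X => ?_⟩
  obtain ⟨c, hc⟩ := h ι 0 (Set.mem_univ _)
  -- the constant
  have hc0 : c = ct p * Fintype.card ι := by
    have h1 := hc.self_of_nhds
    have h2 : (NCInv.ofTr p).val ι 0 = (ev p (0 : Fin r → Matrix ι ι 𝕜)).trace := rfl
    rw [h2, ev_zero] at h1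
    simp [Matrix.trace_smul, Matrix.trace_one] at h1
    exact h1.symm
  let φ : 𝕜 → Polynomial 𝕜 →ₐ[𝕜] 𝕜 := fun t => Polynomial.aeval t
  let XX : Fin r → Matrix ι ι (Polynomial 𝕜) := fun i => Matrix.of fun a b =>
    Polynomial.X * Polynomial.C (X i a b)
  let P : Polynomial 𝕜 := (ev p XX).trace
  let Q : Polynomial 𝕜 := Polynomial.C c + Polynomial.X * Polynomial.C (∑ i, α i * (X i).trace) +
    Polynomial.X ^ 2 * Polynomial.C (∑ i, ∑ j, β i j * (X i * X j).trace)
  have hP : ∀ t, P.eval t = (ev p (fun i => t • X i)).trace := by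
    intro t
    have h1 := ev_map p (φ t) XX
    have h2 : (fun i => (XX i).map (φ t)) = fun i => t • X i := by
      funext i
      ext a b
      simp only [XX, φ, Matrix.map_apply, Matrix.of_apply, Matrix.smul_apply, smul_eq_mul,
        map_mul, Polynomial.aeval_X, Polynomial.aeval_C, Algebra.algebraMap_self,
        RingHom.id_apply]
    rw [h2] at h1
    rw [← h1]
    change Polynomial.eval t (∑ a, ev p XX a a) = ∑ a, (ev p XX).map (φ t) a a
    rw [Polynomial.eval_finsetSum]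
    refine Finset.sum_congr rfl fun a _ => ?_
    rw [Matrix.map_apply]
    simp [φ, Polynomial.aeval_def, Polynomial.eval₂_eq_eval_map]
  have hQ : ∀ t, Q.eval t = c + ∑ i, α i * (t • X i).trace +
      ∑ i, ∑ j, β i j * ((t • X i) * (t • X j)).trace := by
    intro t
    simp only [Q, Polynomial.eval_add, Polynomial.eval_mul, Polynomial.eval_C, Polynomial.eval_X,
      Polynomial.eval_pow, Finset.mul_sum, Matrix.trace_smul, Matrix.smul_mul, Matrix.mul_smul,
      smul_eq_mul]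
    congr 1
    · congr 1
      exact Finset.sum_congr rfl fun i _ => by ring
    · exact Finset.sum_congr rfl fun i _ => Finset.sum_congr rfl fun j _ => by ring
  have hcont : Continuous fun t : 𝕜 => (fun i => t • X i : Fin r → Matrix ι ι 𝕜) :=
    continuous_pi fun i => continuous_id.smul continuous_const
  have hev : ∀ᶠ t in 𝓝 (0 : 𝕜), P.eval t = Q.eval t := by
    have h1 : Tendsto (fun t : 𝕜 => (fun i => t • X i : Fin r → Matrix ι ι 𝕜)) (𝓝 0)
        (𝓝 (0 : Fin r → Matrix ι ι 𝕜)) := by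
      have h2 := hcont.tendsto 0
      have h3 : (fun i => (0 : 𝕜) • X i : Fin r → Matrix ι ι 𝕜) = 0 := by
        funext i
        simp
      rwa [h3] at h2
    filter_upwards [h1.eventually hc] with t ht
    rw [hP, hQ]
    exact ht
  have hPQ : P = Q := Polynomial.eq_of_infinite_eval_eq P Q (infinite_of_mem_nhds 0 hev)
  have h1 : P.eval 1 = Q.eval 1 := by rw [hPQ]
  rw [hP, hQ] at h1
  simpa [hc0] using h1

end rc

section gives

variable {𝕜 : Type} [NontriviallyNormedField 𝕜]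

theorem Gives.add_const {E : Type} [NormedAddCommGroup E] [NormedSpace 𝕜 E] {κ : Type}
    {k : WithTop ℕ∞} {a b L : ℕ} {F : E → κ → 𝕜} {x : E} (h : Gives k a b L F x) (c : κ → 𝕜) :
    Gives k a b L (fun y o => F y o + c o) x := by
  obtain ⟨D, g, hg, hx, hF⟩ := h
  refine ⟨D, g, hg, hx, fun o => ?_⟩
  obtain ⟨f, hf, he⟩ := hF o
  refine ⟨f + fun _ => c o, Submodule.add_mem _ hf ?_, ?_⟩
  · refine Submodule.subset_span (Or.inl ⟨0, c o, ?_⟩)
    funext y
    simp
  · filter_upwards [he] with y hy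
    rw [Pi.add_apply, hy]

end gives

section lower

variable {𝕜 : Type} [RCLike 𝕜] {r : ℕ}

theorem trank_le_sizeTr {p : FreeAlgebra 𝕜 (Fin r)} (hp : ¬ QuadraticTrace p) :
    ∃ s : ℕ, 0 < s ∧ ∀ m n, s * m ≤ n → trank 𝕜 m m m ≤ 12 * sizeTr p n := by
  rcases (NCInv.ofTr p).dichotomy with h | ⟨σ, _, _, W, -, hW⟩
  · exact absurd (quadraticTrace_of_quadratic h) hp
  refine ⟨Fintype.card σ + 1, Nat.succ_pos _, fun m n hmn => ?_⟩
  have hle : m * Fintype.card σ ≤ n := by
    refine le_trans ?_ hmn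
    rw [mul_comm]
    exact Nat.mul_le_mul_right _ (Nat.le_succ _)
  have hcard : Fintype.card (Fin n) =
      Fintype.card ((Fin m × σ) ⊕ Fin (n - m * Fintype.card σ)) := by
    rw [Fintype.card_sum, Fintype.card_prod, Fintype.card_fin, Fintype.card_fin, Fintype.card_fin]
    omega
  let e : Fin n ≃ (Fin m × σ) ⊕ Fin (n - m * Fintype.card σ) := Fintype.equivOfCardEq hcard
  let ℓ : (Fin r → (Fin m × σ) → (Fin m × σ) → 𝕜) →L[𝕜] (Fin r × Fin n × Fin n → 𝕜) :=
    ContinuousLinearMap.pi fun v => Sum.elim (fun u => Sum.elim (fun w =>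
      ((ContinuousLinearMap.proj w : ((Fin m × σ) → 𝕜) →L[𝕜] 𝕜).comp
        ((ContinuousLinearMap.proj u : ((Fin m × σ) → (Fin m × σ) → 𝕜) →L[𝕜] ((Fin m × σ) → 𝕜)).comp
        (ContinuousLinearMap.proj v.1 : (Fin r → (Fin m × σ) → (Fin m × σ) → 𝕜) →L[𝕜]
          ((Fin m × σ) → (Fin m × σ) → 𝕜))))) (fun _ => 0) (e v.2.2)) (fun _ => 0) (e v.2.1)
  let Z : (Fin r → (Fin m × σ) → (Fin m × σ) → 𝕜) → Fin r → Matrix (Fin n) (Fin n) 𝕜 :=
    fun X i => (fromBlocks (X i) 0 0 0 : Matrix ((Fin m × σ) ⊕ Fin (n - m * Fintype.card σ))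
      ((Fin m × σ) ⊕ Fin (n - m * Fintype.card σ)) 𝕜).submatrix e e
  let ψ : (Fin r → (Fin m × σ) → (Fin m × σ) → 𝕜) → (Fin r × Fin n × Fin n → 𝕜) :=
    fun X v => Z X v.1 v.2.1 v.2.2
  have hψ : ∀ X, ψ X = ℓ X + 0 := by
    intro X
    funext v
    rw [add_zero]
    change (fromBlocks (X v.1) 0 0 0 : Matrix ((Fin m × σ) ⊕ Fin (n - m * Fintype.card σ))
      ((Fin m × σ) ⊕ Fin (n - m * Fintype.card σ)) 𝕜) (e v.2.1) (e v.2.2) =
      (Sum.elim (fun u => Sum.elim (fun w =>
      ((ContinuousLinearMap.proj w : ((Fin m × σ) → 𝕜) →L[𝕜] 𝕜).comp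
        ((ContinuousLinearMap.proj u : ((Fin m × σ) → (Fin m × σ) → 𝕜) →L[𝕜] ((Fin m × σ) → 𝕜)).comp
        (ContinuousLinearMap.proj v.1 : (Fin r → (Fin m × σ) → (Fin m × σ) → 𝕜) →L[𝕜]
          ((Fin m × σ) → (Fin m × σ) → 𝕜))))) (fun _ => 0) (e v.2.2)) (fun _ => 0) (e v.2.1) :
          (Fin r → (Fin m × σ) → (Fin m × σ) → 𝕜) →L[𝕜] 𝕜) X
    rcases e v.2.1 with u | u <;> rcases e v.2.2 with w | w <;> rfl
  obtain ⟨C, ⟨v, hv⟩, hC⟩ := exists_circuit_tr p n
  obtain ⟨s', hs', hG⟩ := gives_of_circuit (κ := Unit) 3 C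
    (fun _ => (ev p (gen 𝕜 r n)).trace) (fun _ => ⟨v, hv⟩) (ψ (copies m W))
  have h1 := (Gives.comp ℓ 0 hψ (x := (copies m W : Fin r → (Fin m × σ) → (Fin m × σ) → 𝕜))
    hG).add_const (fun _ => -(ev p (0 : Fin r → Matrix (Fin (n - m * Fintype.card σ))
      (Fin (n - m * Fintype.card σ)) 𝕜)).trace)
  have h2 : Gives 3 2 1 s' ((NCInv.ofTr p).one (Fin m × σ)) (copies m W) := by
    refine h1.congr id (Filter.Eventually.of_forall fun X o => ?_)
    have e1 : MvPolynomial.eval (ψ X) (ev p (gen 𝕜 r n)).trace = (ev p (Z X)).trace := by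
      have e2 := ev_map p (MvPolynomial.aeval (ψ X) : MvPolynomial (Fin r × Fin n × Fin n) 𝕜 →ₐ[𝕜] 𝕜)
        (gen 𝕜 r n)
      have e3 : (fun i => (gen 𝕜 r n i).map (MvPolynomial.aeval (ψ X) :
          MvPolynomial (Fin r × Fin n × Fin n) 𝕜 →ₐ[𝕜] 𝕜)) = Z X := by
        funext i
        ext a b
        simp only [gen, Matrix.map_apply, Matrix.of_apply, MvPolynomial.aeval_X]
        rfl
      rw [e3] at e2
      rw [← e2, Matrix.trace, Matrix.trace, map_sum]
      refine Finset.sum_congr rfl fun a _ => ?_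
      rw [Matrix.diag_apply, Matrix.diag_apply, Matrix.map_apply, MvPolynomial.aeval_def,
        MvPolynomial.eval₂_eq_eval_map]
      simp
    have e4 : (ev p (Z X)).trace = (ev p (X : Fin r → Matrix (Fin m × σ) (Fin m × σ) 𝕜)).trace +
        (ev p (0 : Fin r → Matrix (Fin (n - m * Fintype.card σ))
          (Fin (n - m * Fintype.card σ)) 𝕜)).trace := by
      have e5 := ev_submatrix p e (fun i => (fromBlocks (X i) 0 0 0 :
        Matrix ((Fin m × σ) ⊕ Fin (n - m * Fintype.card σ))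
          ((Fin m × σ) ⊕ Fin (n - m * Fintype.card σ)) 𝕜))
      have e6 : ev p (Z X) = ev p (fun i => (fromBlocks (X i) 0 0 0 :
        Matrix ((Fin m × σ) ⊕ Fin (n - m * Fintype.card σ))
          ((Fin m × σ) ⊕ Fin (n - m * Fintype.card σ)) 𝕜).submatrix e e) := rfl
      rw [e6, e5, trace_submatrix']
      have e7 := ev_sum p (X : Fin r → Matrix (Fin m × σ) (Fin m × σ) 𝕜)
        (0 : Fin r → Matrix (Fin (n - m * Fintype.card σ)) (Fin (n - m * Fintype.card σ)) 𝕜)
      have e8 : ev p (fun i => (fromBlocks (X i) 0 0 0 :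
        Matrix ((Fin m × σ) ⊕ Fin (n - m * Fintype.card σ))
          ((Fin m × σ) ⊕ Fin (n - m * Fintype.card σ)) 𝕜)) = fromBlocks
            (ev p (X : Fin r → Matrix (Fin m × σ) (Fin m × σ) 𝕜)) 0 0
            (ev p (0 : Fin r → Matrix (Fin (n - m * Fintype.card σ))
              (Fin (n - m * Fintype.card σ)) 𝕜)) := e7
      rw [e8, trace_blocks]
    change (ev p (X : Fin r → Matrix (Fin m × σ) (Fin m × σ) 𝕜)).trace =
      MvPolynomial.eval (ψ X) (ev p (gen 𝕜 r n)).trace +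
        -(ev p (0 : Fin r → Matrix (Fin (n - m * Fintype.card σ))
          (Fin (n - m * Fintype.card σ)) 𝕜)).trace
    rw [e1, e4, add_neg_cancel_right]
  have h3 := hW m 2 1 s' h2
  have h4 : s' ≤ sizeTr p n := hs'.trans hC.le
  calc trank 𝕜 m m m ≤ 3 * 2 ^ 2 * s' := h3
    _ ≤ 12 * sizeTr p n := by omega

theorem sizeTr_upper (p : FreeAlgebra 𝕜 (Fin r)) : ∃ c : ℕ, 0 < c ∧
    ∀ m, sizeTr p m ≤ c * sizeMM 𝕜 m := by
  obtain ⟨c, hc⟩ := sizeNC_le p
  refine ⟨3 * c + 2, by omega, fun m => ?_⟩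
  have h1 := hc m
  have h2 := sq_le_sizeMM 𝕜 m
  have h3 := sizeTr_le p m
  have h4 : m ≤ m ^ 2 := Nat.le_self_pow two_ne_zero m
  nlinarith

theorem superlinear_Tr {p : FreeAlgebra 𝕜 (Fin r)} (hp : ¬ QuadraticTrace p) :
    EvSuperlinear (sizeTr p) ↔ Superlinear (sizeMM 𝕜) := by
  obtain ⟨s, hs, h1⟩ := trank_le_sizeTr hp
  obtain ⟨c, -, h2⟩ := sizeTr_upper p
  exact evSuperlinear_iff (s := s) (c := 12) (C := c) hs (by norm_num)
    (fun m n hmn => (h1 m n hmn).trans (Nat.le_add_right _ _)) h2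

end lower

end Pool.Agent.Helper51K9.NC
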