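import Pool.Agent.Helper51K9.NC.Defs

/-!
# Noncommutative functions: the dichotomy
-/

set_option autoImplicit false

namespace Pool.Agent.Helper51K9.NC

open Matrix Topology Filter

variable {𝕜 : Type} [NontriviallyNormedField 𝕜] {r : ℕ}

section basic

variable (Φ : NCFun 𝕜 r)
variable {ι κ ν : Type} [Fintype ι] [DecidableEq ι] [Fintype κ] [DecidableEq κ]
  [Fintype ν] [DecidableEq ν]

/-- block upper triangular tuples -/
def tri (X : Fin r → Matrix ι ι 𝕜) (H : Fin r → Matrix ι κ 𝕜) (Y : Fin r → Matrix κ κ 𝕜) :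
    Fin r → Matrix (ι ⊕ κ) (ι ⊕ κ) 𝕜 := fun i => fromBlocks (X i) (H i) 0 (Y i)

/-- noncommutative functions respect intertwiners -/
theorem NCFun.inter {X : Fin r → Matrix ι ι 𝕜} {Y : Fin r → Matrix κ κ 𝕜} (hX : X ∈ Φ.dom ι)
    (hY : Y ∈ Φ.dom κ) (S : Matrix ι κ 𝕜) (h : ∀ i, X i * S = S * Y i) :
    Φ.val ι X * S = S * Φ.val κ Y := by
  have hPQ : (fromBlocks 1 S 0 1 : Matrix (ι ⊕ κ) (ι ⊕ κ) 𝕜) * fromBlocks 1 (-S) 0 1 = 1 := by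
    simp [fromBlocks_multiply, ← fromBlocks_one]
  have hQP : (fromBlocks 1 (-S) 0 1 : Matrix (ι ⊕ κ) (ι ⊕ κ) 𝕜) * fromBlocks 1 S 0 1 = 1 := by
    simp [fromBlocks_multiply, ← fromBlocks_one]
  have h1 := Φ.sum_dom ι κ X Y hX hY
  have h2 := Φ.sim_val _ _ _ _ _ hPQ hQP h1
  have h3 : (fun i => (fromBlocks 1 S 0 1 : Matrix (ι ⊕ κ) (ι ⊕ κ) 𝕜) *
      fromBlocks (X i) 0 0 (Y i) * fromBlocks 1 (-S) 0 1) =
      fun i => fromBlocks (X i) 0 0 (Y i) := by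
    funext i
    simp [fromBlocks_multiply, h i]
  rw [h3, Φ.sum_val ι κ X Y hX hY] at h2
  have h4 := congrArg toBlocks₁₂ h2
  simp only [fromBlocks_multiply, toBlocks_fromBlocks₁₂, Matrix.one_mul, Matrix.mul_zero,
    Matrix.mul_one, Matrix.mul_neg, _root_.add_zero, _root_.zero_add] at h4
  exact (neg_add_eq_zero.mp h4.symm)

theorem NCFun.tri_mem {X : Fin r → Matrix ι ι 𝕜} {Y : Fin r → Matrix κ κ 𝕜} (hX : X ∈ Φ.dom ι)
    (hY : Y ∈ Φ.dom κ) (H : Fin r → Matrix ι κ 𝕜) : tri X H Y ∈ Φ.dom (ι ⊕ κ) := by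
  have h0 : tri X (fun i => (0 : 𝕜) • H i) Y ∈ Φ.dom (ι ⊕ κ) := by
    have := Φ.sum_dom ι κ X Y hX hY
    have e : tri X (fun i => (0 : 𝕜) • H i) Y = fun i => fromBlocks (X i) 0 0 (Y i) := by
      funext i
      simp [tri]
    rwa [e]
  have hcont : Continuous fun c : 𝕜 => tri X (fun i => c • H i) Y := by
    unfold tri
    refine continuous_pi fun i => ?_
    refine Continuous.matrix_fromBlocks continuous_const ?_ continuous_const continuous_const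
    exact continuous_id.smul continuous_const
  have h1 : ∀ᶠ c in 𝓝[≠] (0 : 𝕜), tri X (fun i => c • H i) Y ∈ Φ.dom (ι ⊕ κ) :=
    (hcont.continuousAt.eventually ((Φ.isOpen_dom (ι ⊕ κ)).mem_nhds h0)).filter_mono
      nhdsWithin_le_nhds
  obtain ⟨c, hc, hc0⟩ := (h1.and self_mem_nhdsWithin).exists
  have hc0' : c ≠ 0 := hc0
  have h2 := Φ.sim_dom (ι ⊕ κ) (ι ⊕ κ) (fromBlocks (c⁻¹ • 1) 0 0 1) (fromBlocks (c • 1) 0 0 1) _
    (by simp [fromBlocks_multiply, ← fromBlocks_one, smul_smul, hc0'])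
    (by simp [fromBlocks_multiply, ← fromBlocks_one, smul_smul, hc0']) hc
  have h3 : (fun i => (fromBlocks (c⁻¹ • 1) 0 0 1 : Matrix (ι ⊕ κ) (ι ⊕ κ) 𝕜) *
      tri X (fun i => c • H i) Y i * fromBlocks (c • 1) 0 0 1) = tri X H Y := by
    funext i
    simp [tri, fromBlocks_multiply, smul_smul, hc0']
  rwa [h3] at h2

/-- the upper right block of the value at a block upper triangular tuple -/
noncomputable def NCFun.dd (X : Fin r → Matrix ι ι 𝕜) (H : Fin r → Matrix ι κ 𝕜)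
    (Y : Fin r → Matrix κ κ 𝕜) : Matrix ι κ 𝕜 := (Φ.val (ι ⊕ κ) (tri X H Y)).toBlocks₁₂

theorem NCFun.val_tri {X : Fin r → Matrix ι ι 𝕜} {Y : Fin r → Matrix κ κ 𝕜} (hX : X ∈ Φ.dom ι)
    (hY : Y ∈ Φ.dom κ) (H : Fin r → Matrix ι κ 𝕜) :
    Φ.val (ι ⊕ κ) (tri X H Y) = fromBlocks (Φ.val ι X) (Φ.dd X H Y) 0 (Φ.val κ Y) := by
  have hm := Φ.tri_mem hX hY H
  have h1 := Φ.inter hm hX (fromRows 1 0 : Matrix (ι ⊕ κ) ι 𝕜) (fun i => by
    simp [tri, fromBlocks_mul_fromRows, fromRows_mul])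
  have h2 := Φ.inter hY hm (fromCols 0 1 : Matrix κ (ι ⊕ κ) 𝕜) (fun i => by
    simp [tri, fromCols_mul_fromBlocks, mul_fromCols])
  have e11 : (Φ.val (ι ⊕ κ) (tri X H Y)).toBlocks₁₁ = Φ.val ι X := by
    have := congrArg toRows₁ h1
    rw [← fromBlocks_toBlocks (Φ.val (ι ⊕ κ) (tri X H Y)), fromBlocks_mul_fromRows,
      fromRows_mul] at this
    simpa using this
  have e21 : (Φ.val (ι ⊕ κ) (tri X H Y)).toBlocks₂₁ = 0 := by
    have := congrArg toRows₂ h1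
    rw [← fromBlocks_toBlocks (Φ.val (ι ⊕ κ) (tri X H Y)), fromBlocks_mul_fromRows,
      fromRows_mul] at this
    simpa using this
  have e22 : (Φ.val (ι ⊕ κ) (tri X H Y)).toBlocks₂₂ = Φ.val κ Y := by
    have := congrArg toCols₂ h2
    rw [← fromBlocks_toBlocks (Φ.val (ι ⊕ κ) (tri X H Y)), fromCols_mul_fromBlocks,
      mul_fromCols] at this
    simpa using this.symm
  conv_lhs => rw [← fromBlocks_toBlocks (Φ.val (ι ⊕ κ) (tri X H Y))]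
  rw [e11, e21, e22]
  rfl

/-- block upper triangular tuples with three diagonal blocks -/
def tri3 (X : Fin r → Matrix ι ι 𝕜) (H : Fin r → Matrix ι κ 𝕜) (Y : Fin r → Matrix κ κ 𝕜)
    (K : Fin r → Matrix κ ν 𝕜) (Z : Fin r → Matrix ν ν 𝕜) :
    Fin r → Matrix ((ι ⊕ κ) ⊕ ν) ((ι ⊕ κ) ⊕ ν) 𝕜 :=
  tri (tri X H Y) (fun i => fromRows 0 (K i)) Z

theorem NCFun.tri3_mem {X : Fin r → Matrix ι ι 𝕜} {Y : Fin r → Matrix κ κ 𝕜}
    {Z : Fin r → Matrix ν ν 𝕜} (hX : X ∈ Φ.dom ι) (hY : Y ∈ Φ.dom κ) (hZ : Z ∈ Φ.dom ν)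
    (H : Fin r → Matrix ι κ 𝕜) (K : Fin r → Matrix κ ν 𝕜) :
    tri3 X H Y K Z ∈ Φ.dom ((ι ⊕ κ) ⊕ ν) := Φ.tri_mem (Φ.tri_mem hX hY H) hZ _

theorem NCFun.val_tri3_12 {X : Fin r → Matrix ι ι 𝕜} {Y : Fin r → Matrix κ κ 𝕜}
    {Z : Fin r → Matrix ν ν 𝕜} (hX : X ∈ Φ.dom ι) (hY : Y ∈ Φ.dom κ) (hZ : Z ∈ Φ.dom ν)
    (H : Fin r → Matrix ι κ 𝕜) (K : Fin r → Matrix κ ν 𝕜) (x : ι) (y : κ) :
    Φ.val ((ι ⊕ κ) ⊕ ν) (tri3 X H Y K Z) (Sum.inl (Sum.inl x)) (Sum.inl (Sum.inr y)) =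
      Φ.dd X H Y x y := by
  unfold tri3
  rw [Φ.val_tri (Φ.tri_mem hX hY H) hZ, fromBlocks_apply₁₁, Φ.val_tri hX hY, fromBlocks_apply₁₂]

theorem NCFun.val_tri3_23 {X : Fin r → Matrix ι ι 𝕜} {Y : Fin r → Matrix κ κ 𝕜}
    {Z : Fin r → Matrix ν ν 𝕜} (hX : X ∈ Φ.dom ι) (hY : Y ∈ Φ.dom κ) (hZ : Z ∈ Φ.dom ν)
    (H : Fin r → Matrix ι κ 𝕜) (K : Fin r → Matrix κ ν 𝕜) (y : κ) (z : ν) :
    Φ.val ((ι ⊕ κ) ⊕ ν) (tri3 X H Y K Z) (Sum.inl (Sum.inr y)) (Sum.inr z) =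
      Φ.dd Y K Z y z := by
  have h1 := Φ.inter (Φ.tri_mem hY hZ K) (Φ.tri3_mem hX hY hZ H K)
    (fromBlocks (fromCols 0 1) 0 0 1 : Matrix (κ ⊕ ν) ((ι ⊕ κ) ⊕ ν) 𝕜) (fun i => by
      simp [tri3, tri, fromBlocks_multiply, mul_fromCols, fromCols_mul_fromBlocks,
        fromCols_mul_fromRows])
  have h2 := congrFun (congrFun h1 (Sum.inl y)) (Sum.inr z)
  rw [Φ.val_tri hY hZ, ← fromBlocks_toBlocks (Φ.val ((ι ⊕ κ) ⊕ ν) (tri3 X H Y K Z)),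
    fromBlocks_multiply, fromBlocks_multiply, fromBlocks_apply₁₂, fromBlocks_apply₁₂] at h2
  simp only [Matrix.mul_zero, Matrix.mul_one, _root_.zero_add, Matrix.zero_mul,
    _root_.add_zero] at h2
  rw [h2, Matrix.mul_apply, Fintype.sum_sum_type]
  simp [fromCols, Matrix.one_apply, toBlocks₁₂]

/-- The upper right blocks of the values at all block upper triangular tuples with three diagonal
blocks vanish. -/
def NCFun.Flat : Prop := ∀ (ι κ ν : Type) [Fintype ι] [DecidableEq ι] [Fintype κ]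
  [DecidableEq κ] [Fintype ν] [DecidableEq ν] (X : Fin r → Matrix ι ι 𝕜)
  (Y : Fin r → Matrix κ κ 𝕜) (Z : Fin r → Matrix ν ν 𝕜) (H : Fin r → Matrix ι κ 𝕜)
  (K : Fin r → Matrix κ ν 𝕜), X ∈ Φ.dom ι → Y ∈ Φ.dom κ → Z ∈ Φ.dom ν → ∀ x z,
    Φ.val ((ι ⊕ κ) ⊕ ν) (tri3 X H Y K Z) (Sum.inl (Sum.inl x)) (Sum.inr z) = 0

variable {Φ}

theorem NCFun.Flat.right (hF : Φ.Flat) {X : Fin r → Matrix ι ι 𝕜} {Y Z : Fin r → Matrix κ κ 𝕜}
    (hX : X ∈ Φ.dom ι) (hY : Y ∈ Φ.dom κ) (hZ : Z ∈ Φ.dom κ) (H : Fin r → Matrix ι κ 𝕜) :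
    Φ.dd X H Y = Φ.dd X H Z := by
  ext x z
  have h1 := Φ.inter (Φ.tri3_mem hX hY hZ H (fun i => Z i - Y i)) (Φ.tri_mem hX hZ H)
    (fromRows 1 (fromCols 0 1) : Matrix ((ι ⊕ κ) ⊕ κ) (ι ⊕ κ) 𝕜) (fun i => by
      simp only [tri3, tri, fromBlocks_mul_fromRows, fromRows_mul,
        fromCols_mul_fromBlocks, mul_fromCols]
      congr 1
      · rw [Matrix.one_mul, Matrix.mul_one]
        ext (a | a) (b | b) <;> simp
      · ext a (b | b) <;> simp)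
  have h2 := congrFun (congrFun h1 (Sum.inl (Sum.inl x))) (Sum.inr z)
  rw [Matrix.mul_apply, Matrix.mul_apply, Fintype.sum_sum_type, Fintype.sum_sum_type,
    Fintype.sum_sum_type] at h2
  simp only [fromRows_apply_inl, fromRows_apply_inr, fromCols_apply_inr, Matrix.one_apply] at h2
  simp only [mul_ite, mul_one, mul_zero, ite_mul, one_mul, zero_mul, Finset.sum_ite_eq',
    Finset.sum_ite_eq, Finset.mem_univ, if_true, reduceCtorEq, if_false, Finset.sum_const_zero,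
    Sum.inr.injEq, Sum.inl.injEq, zero_add, add_zero] at h2
  rw [Φ.val_tri3_12 hX hY hZ, hF ι κ κ X Y Z _ _ hX hY hZ, Φ.val_tri hX hZ,
    fromBlocks_apply₁₂] at h2
  simpa using h2

theorem NCFun.Flat.left (hF : Φ.Flat) {X X' : Fin r → Matrix ι ι 𝕜} {Y : Fin r → Matrix κ κ 𝕜}
    (hX : X ∈ Φ.dom ι) (hX' : X' ∈ Φ.dom ι) (hY : Y ∈ Φ.dom κ) (H : Fin r → Matrix ι κ 𝕜) :
    Φ.dd X H Y = Φ.dd X' H Y := by
  ext x z
  have h1 := Φ.inter (Φ.tri_mem hX hY H) (Φ.tri3_mem hX hX' hY (fun i => X i - X' i) H)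
    (fromBlocks (fromCols 1 1) 0 0 1 : Matrix (ι ⊕ κ) ((ι ⊕ ι) ⊕ κ) 𝕜) (fun i => by
      simp [tri3, tri, fromBlocks_multiply, mul_fromCols, fromCols_mul_fromBlocks,
        fromCols_mul_fromRows])
  have h2 := congrFun (congrFun h1 (Sum.inl x)) (Sum.inr z)
  rw [Φ.val_tri hX hY, ← fromBlocks_toBlocks (Φ.val ((ι ⊕ ι) ⊕ κ) (tri3 _ _ _ _ _)),
    fromBlocks_multiply, fromBlocks_multiply, fromBlocks_apply₁₂, fromBlocks_apply₁₂] at h2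
  simp only [Matrix.mul_zero, Matrix.mul_one, _root_.zero_add, Matrix.zero_mul,
    _root_.add_zero] at h2
  rw [h2, Matrix.mul_apply, Fintype.sum_sum_type]
  simp only [fromCols_apply_inl, fromCols_apply_inr, Matrix.one_apply, ite_mul, one_mul, zero_mul,
    Finset.sum_ite_eq, Finset.mem_univ, if_true, toBlocks₁₂, Matrix.of_apply]
  rw [hF ι ι κ X X' Y _ _ hX hX' hY, Φ.val_tri3_23 hX hX' hY, zero_add]

variable (Φ)

theorem NCFun.val_sub {X Y : Fin r → Matrix ι ι 𝕜} (hX : X ∈ Φ.dom ι) (hY : Y ∈ Φ.dom ι) :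
    Φ.val ι Y = Φ.val ι X + Φ.dd X (fun i => Y i - X i) Y := by
  have h1 := Φ.inter (Φ.tri_mem hX hY (fun i => Y i - X i)) hY
    (fromRows 1 1 : Matrix (ι ⊕ ι) ι 𝕜) (fun i => by
      simp [tri, fromBlocks_mul_fromRows, fromRows_mul])
  have h2 := congrArg toRows₁ h1
  rw [Φ.val_tri hX hY, fromBlocks_mul_fromRows, fromRows_mul] at h2
  simpa using h2.symm

theorem NCFun.dd_smul {X : Fin r → Matrix ι ι 𝕜} {Y : Fin r → Matrix κ κ 𝕜} (hX : X ∈ Φ.dom ι)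
    (hY : Y ∈ Φ.dom κ) (H : Fin r → Matrix ι κ 𝕜) (c : 𝕜) :
    Φ.dd X (fun i => c • H i) Y = c • Φ.dd X H Y := by
  have h1 := Φ.inter (Φ.tri_mem hX hY (fun i => c • H i)) (Φ.tri_mem hX hY H)
    (fromBlocks (c • 1) 0 0 1 : Matrix (ι ⊕ κ) (ι ⊕ κ) 𝕜) (fun i => by
      simp [tri, fromBlocks_multiply])
  rw [Φ.val_tri hX hY, Φ.val_tri hX hY, fromBlocks_multiply, fromBlocks_multiply] at h1
  have h2 := congrArg toBlocks₁₂ h1
  simpa using h2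

theorem NCFun.dd_conj {X X' : Fin r → Matrix ι ι 𝕜} {Y Y' : Fin r → Matrix κ κ 𝕜}
    (hX : X ∈ Φ.dom ι) (hX' : X' ∈ Φ.dom ι)
    (hY : Y ∈ Φ.dom κ) (hY' : Y' ∈ Φ.dom κ) (H H' : Fin r → Matrix ι κ 𝕜) (g : Matrix ι ι 𝕜)
    (k : Matrix κ κ 𝕜) (h1 : ∀ i, X' i * g = g * X i) (h2 : ∀ i, Y' i * k = k * Y i)
    (h3 : ∀ i, H' i * k = g * H i) : Φ.dd X' H' Y' * k = g * Φ.dd X H Y := by
  have h1 := Φ.inter (Φ.tri_mem hX' hY' H') (Φ.tri_mem hX hY H)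
    (fromBlocks g 0 0 k : Matrix (ι ⊕ κ) (ι ⊕ κ) 𝕜) (fun i => by
      simp [tri, fromBlocks_multiply, h1 i, h2 i, h3 i])
  rw [Φ.val_tri hX hY, Φ.val_tri hX' hY', fromBlocks_multiply, fromBlocks_multiply] at h1
  have h2 := congrArg toBlocks₁₂ h1
  simpa using h2

end basic

section flat

variable {Φ : NCFun 𝕜 r} (hF : Φ.Flat) {ι : Type} [Fintype ι] [DecidableEq ι]
  {X₀ : Fin r → Matrix ι ι 𝕜} (h₀ : X₀ ∈ Φ.dom ι)

include hF h₀

theorem NCFun.Flat.diff {X Y : Fin r → Matrix ι ι 𝕜} (hX : X ∈ Φ.dom ι) (hY : Y ∈ Φ.dom ι) :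
    Φ.val ι Y = Φ.val ι X + Φ.dd X₀ (fun i => Y i - X i) X₀ := by
  rw [Φ.val_sub hX hY, hF.right hX hY h₀, hF.left hX h₀ h₀]

theorem NCFun.Flat.mul_left (g g' : Matrix ι ι 𝕜) (hg : g * g' = 1) (H : Fin r → Matrix ι ι 𝕜) :
    Φ.dd X₀ (fun i => g * H i) X₀ = g * Φ.dd X₀ H X₀ := by
  have hg' : g' * g = 1 := _root_.mul_eq_one_comm.mp hg
  have hX' := Φ.sim_dom ι ι g g' X₀ hg hg' h₀
  have h1 := Φ.dd_conj h₀ hX' h₀ h₀ H (fun i => g * H i) g 1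
    (fun i => by rw [Matrix.mul_assoc, hg', Matrix.mul_one]) (fun i => by simp)
    (fun i => by simp)
  rw [Matrix.mul_one, hF.left hX' h₀ h₀] at h1
  exact h1

theorem NCFun.Flat.mul_right (k k' : Matrix ι ι 𝕜) (hk : k * k' = 1) (H : Fin r → Matrix ι ι 𝕜) :
    Φ.dd X₀ (fun i => H i * k) X₀ = Φ.dd X₀ H X₀ * k := by
  have hk' : k' * k = 1 := _root_.mul_eq_one_comm.mp hk
  have hX' := Φ.sim_dom ι ι k k' X₀ hk hk' h₀
  have h1 := Φ.dd_conj (X := X₀) (X' := X₀) h₀ h₀ h₀ hX' (fun i => H i * k) H 1 k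
    (fun i => by simp) (fun i => by rw [Matrix.mul_assoc, hk', Matrix.mul_one])
    (fun i => by simp)
  rw [Matrix.one_mul, hF.right h₀ hX' h₀] at h1
  exact h1.symm

theorem NCFun.Flat.add (H K : Fin r → Matrix ι ι 𝕜) :
    Φ.dd X₀ (fun i => H i + K i) X₀ = Φ.dd X₀ H X₀ + Φ.dd X₀ K X₀ := by
  have hc1 : Continuous fun c : 𝕜 => fun i => X₀ i + c • H i :=
    continuous_pi fun i => continuous_const.add (continuous_id.smul continuous_const)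
  have hc2 : Continuous fun c : 𝕜 => fun i => X₀ i + c • (H i + K i) :=
    continuous_pi fun i => continuous_const.add (continuous_id.smul continuous_const)
  have hn := (Φ.isOpen_dom ι).mem_nhds h₀
  have h1 : ∀ᶠ c in 𝓝[≠] (0 : 𝕜), (fun i => X₀ i + c • H i) ∈ Φ.dom ι :=
    (hc1.continuousAt.eventually (by simpa using hn)).filter_mono nhdsWithin_le_nhds
  have h2 : ∀ᶠ c in 𝓝[≠] (0 : 𝕜), (fun i => X₀ i + c • (H i + K i)) ∈ Φ.dom ι :=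
    (hc2.continuousAt.eventually (by simpa using hn)).filter_mono nhdsWithin_le_nhds
  obtain ⟨c, ⟨m1, m2⟩, hc0⟩ := ((h1.and h2).and self_mem_nhdsWithin).exists
  have hc0' : c ≠ 0 := hc0
  have e1 := hF.diff h₀ h₀ m1
  have e2 := hF.diff h₀ h₀ m2
  have e3 := hF.diff h₀ m1 m2
  have s1 : (fun i => X₀ i + c • H i - X₀ i) = fun i => c • H i := by
    funext i; abel
  have s2 : (fun i => X₀ i + c • (H i + K i) - X₀ i) = fun i => c • (H i + K i) := by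
    funext i; abel
  have s3 : (fun i => X₀ i + c • (H i + K i) - (X₀ i + c • H i)) = fun i => c • K i := by
    funext i; rw [smul_add]; abel
  rw [s1, Φ.dd_smul h₀ h₀] at e1
  rw [s2, Φ.dd_smul h₀ h₀] at e2
  rw [s3, Φ.dd_smul h₀ h₀, e1, e2] at e3
  have e4 : c • Φ.dd X₀ (fun i => H i + K i) X₀ = c • (Φ.dd X₀ H X₀ + Φ.dd X₀ K X₀) := by
    rw [smul_add]
    have := congrArg (fun M => M - Φ.val ι X₀) e3
    simp only [add_sub_cancel_left] at this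
    rw [this]
    abel
  exact smul_right_injective _ hc0' e4

omit hF in
theorem NCFun.Flat.neg (H : Fin r → Matrix ι ι 𝕜) :
    Φ.dd X₀ (fun i => - H i) X₀ = - Φ.dd X₀ H X₀ := by
  have := Φ.dd_smul h₀ h₀ H (-1)
  simpa using this

end flat

end Pool.Agent.Helper51K9.NC
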